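import Pool.Agent.Helper360.NM.Defs
set_option autoImplicit false

namespace NMA

open NM Complex Metric Set Filter Topology MeasureTheory

/-- `Λ f (z) = ∑ l_n f̂(n) z^n`. -/
noncomputable def Lf (l : ℕ → ℂ) (f : ℂ → ℂ) (z : ℂ) : ℂ := ∑' n, l n * cf f n * z ^ n

/-- total mass -/
noncomputable def mass (t : ℝ →₀ ℝ) : ℝ := t.sum fun _ m => m

/-- the weight `1 / (2 (n+1)^2)` -/
noncomputable def wt (n : ℕ) : ℝ := 1 / (2 * ((n : ℝ) + 1) ^ 2)

/-- `log⁺ max_{n ≤ N} c_n |Λ (f v^n) (z)|`, where `a` is the sequence of coefficients of `f`. -/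
noncomputable def U (l a : ℕ → ℂ) (N : ℕ) (z : ℂ) : ℝ :=
  Real.posLog ((Finset.range (N + 1)).sup' Finset.nonempty_range_add_one
    (fun n => wt n * ‖Lam l a n z‖))

end NMA
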