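import Pool.Agent.Helper694.NMA.Defs
set_option autoImplicit false

namespace NMA

open NM Complex Metric Set Filter Topology MeasureTheory


namespace N_F_add

theorem F_add (s t : ℝ →₀ ℝ) (z : ℂ) : F (s + t) z = F s z * F t z := by
  unfold F
  rw [← Complex.exp_add]
  congr 1
  apply Finsupp.sum_add_index'
  · intro a
    simp
  · intro a b c
    push_cast
    ring

end N_F_add

alias F_add := N_F_add.F_add

end NMA
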