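import Pool.Agent.Helper694.NMA.Defs
set_option autoImplicit false

namespace NMA

open NM Complex Metric Set Filter Topology MeasureTheory


namespace N_H_diff

theorem H_diff (w : ℂ) (hw : ‖w‖ = 1) : DifferentiableOn ℂ (fun v => H (w * v)) (ball 0 1) := by
  intro v hv
  have hv1 : ‖v‖ < 1 := by simpa using hv
  have hne : (1 : ℂ) - w * v ≠ 0 := by
    intro h0
    have h1 : w * v = 1 := (sub_eq_zero.mp h0).symm
    have h2 : ‖w * v‖ = 1 := by rw [h1]; simp
    rw [norm_mul, hw, one_mul] at h2
    exact absurd h2 hv1.ne
  have hd1 : DifferentiableAt ℂ (fun v : ℂ => 1 + w * v) v :=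
    (differentiableAt_const 1).add ((differentiableAt_const w).mul differentiableAt_id)
  have hd2 : DifferentiableAt ℂ (fun v : ℂ => 1 - w * v) v :=
    (differentiableAt_const 1).sub ((differentiableAt_const w).mul differentiableAt_id)
  have h3 : DifferentiableAt ℂ (fun v : ℂ => H (w * v)) v := by
    unfold H
    exact hd1.div hd2 hne
  exact h3.differentiableWithinAt

end N_H_diff

alias H_diff := N_H_diff.H_diff

end NMA
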