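import Pool.Agent.Helper694.NMA.Defs
import Pool.Agent.Helper694.NMA.J_H_diff
set_option autoImplicit false

namespace NMA

open NM Complex Metric Set Filter Topology MeasureTheory


namespace N_F_diff

theorem F_diff (t : ℝ →₀ ℝ) : DifferentiableOn ℂ (F t) (ball 0 1) := by
  unfold F
  apply DifferentiableOn.cexp
  unfold Finsupp.sum
  have h : ∀ α : ℝ, DifferentiableOn ℂ
      (fun v => H (Complex.exp ((α : ℂ) * Complex.I) * v)) (ball 0 1) := fun α =>
    H_diff _ (Complex.norm_exp_ofReal_mul_I α)
  have := DifferentiableOn.fun_sum (u := t.support) (𝕜 := ℂ) (s := ball (0:ℂ) 1)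
    (A := fun α v => ((t α : ℝ) : ℂ) * H (Complex.exp ((α : ℂ) * Complex.I) * v))
    (fun α _ => (h α).const_mul _)
  exact this

end N_F_diff

alias F_diff := N_F_diff.F_diff

end NMA
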