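import Pool.Agent.Helper694.NMA.Defs
set_option autoImplicit false

namespace NMA

open NM Complex Metric Set Filter Topology MeasureTheory


namespace N_F_norm

theorem F_norm (t : ℝ →₀ ℝ) (z : ℂ) :
    ‖F t z‖ = Real.exp (t.sum fun α m => m * (H (Complex.exp ((α : ℂ) * Complex.I) * z)).re) := by
  unfold F
  rw [Complex.norm_exp]
  congr 1
  unfold Finsupp.sum
  rw [Complex.re_sum]
  refine Finset.sum_congr rfl fun α _ => ?_
  rw [Complex.re_ofReal_mul]

end N_F_norm

alias F_norm := N_F_norm.F_norm

end NMA
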