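import Pool.Agent.Helper694.NMA.Defs
set_option autoImplicit false

namespace NMA

open NM Complex Metric Set Filter Topology MeasureTheory


namespace N_H_re_pos

theorem H_re_pos (v : ℂ) (hv : v ∈ ball (0:ℂ) 1) : 0 < (H v).re := by
  have hn : ‖v‖ < 1 := by simpa using hv
  have hsq : v.re ^ 2 + v.im ^ 2 < 1 := by
    have h1 : ‖v‖ ^ 2 < 1 := by nlinarith [norm_nonneg v]
    have h2 := Complex.normSq_apply v
    have h3 := Complex.normSq_eq_norm_sq v
    nlinarith
  have hne : (1 : ℂ) - v ≠ 0 := by
    intro h
    have : v = 1 := (sub_eq_zero.mp h).symm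
    rw [this] at hn
    simp at hn
  have hpos : 0 < Complex.normSq (1 - v) := Complex.normSq_pos.mpr hne
  unfold H
  rw [Complex.div_re, ← add_div]
  apply div_pos _ hpos
  simp only [Complex.add_re, Complex.one_re, Complex.sub_re, Complex.add_im, Complex.one_im,
    Complex.sub_im]
  nlinarith

end N_H_re_pos

alias H_re_pos := N_H_re_pos.H_re_pos

end NMA
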