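import Pool.Agent.Helper694.NMA.Defs
import Pool.Agent.Helper694.NMA.J_F_norm
import Pool.Agent.Helper694.NMA.J_H_re_pos
set_option autoImplicit false

namespace NMA

open NM Complex Metric Set Filter Topology MeasureTheory


namespace N_F_one_le

theorem F_one_le (t : ℝ →₀ ℝ) (ht : ∀ α, 0 ≤ t α) (z : ℂ) (hz : z ∈ ball (0:ℂ) 1) :
    1 ≤ ‖F t z‖ := by
  rw [F_norm]
  refine Real.one_le_exp ?_
  unfold Finsupp.sum
  refine Finset.sum_nonneg (fun α _ => mul_nonneg (ht α) (le_of_lt (H_re_pos _ ?_)))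
  rw [mem_ball_zero_iff] at hz ⊢
  rw [norm_mul, Complex.norm_exp_ofReal_mul_I, one_mul]
  exact hz

end N_F_one_le

alias F_one_le := N_F_one_le.F_one_le

end NMA
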