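import Pool.Agent.Helper694.NMA.Defs
set_option autoImplicit false

namespace NMA

open NM Complex Metric Set Filter Topology MeasureTheory


namespace N_H_re_le

theorem H_re_le (v : ℂ) (hv : v ∈ ball (0:ℂ) 1) : (H v).re ≤ (1 + ‖v‖) / (1 - ‖v‖) := by
  rw [mem_ball_zero_iff] at hv
  refine (Complex.re_le_norm _).trans ?_
  unfold H
  rw [norm_div]
  have h1 : ‖1 + v‖ ≤ 1 + ‖v‖ := by
    have := norm_add_le 1 v
    simpa using this
  have h2 : 1 - ‖v‖ ≤ ‖1 - v‖ := by
    have := norm_sub_norm_le 1 v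
    simpa using this
  have h3 : 0 < 1 - ‖v‖ := by linarith
  exact div_le_div₀ (by positivity) h1 h3 h2

end N_H_re_le

alias H_re_le := N_H_re_le.H_re_le

end NMA
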