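import Pool.Agent.Helper694.NMA.Defs
import Pool.Agent.Helper694.NMA.J_F_norm
import Pool.Agent.Helper694.NMA.J_H_re_le
set_option autoImplicit false

namespace NMA

open NM Complex Metric Set Filter Topology MeasureTheory


namespace N_F_upper

theorem F_upper (t : ℝ →₀ ℝ) (ht : ∀ α, 0 ≤ t α) (z : ℂ) (hz : z ∈ ball (0:ℂ) 1) :
    ‖F t z‖ ≤ Real.exp (mass t * ((1 + ‖z‖) / (1 - ‖z‖))) := by
  rw [F_norm]
  apply Real.exp_le_exp.2
  unfold mass
  rw [Finsupp.sum, Finsupp.sum, Finset.sum_mul]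
  apply Finset.sum_le_sum
  intro α _
  apply mul_le_mul_of_nonneg_left _ (ht α)
  have hn : ‖Complex.exp ((α : ℂ) * Complex.I) * z‖ = ‖z‖ := by
    rw [norm_mul, Complex.norm_exp_ofReal_mul_I, one_mul]
  have hm : Complex.exp ((α : ℂ) * Complex.I) * z ∈ ball (0:ℂ) 1 := by
    rw [mem_ball_zero_iff] at hz ⊢
    rw [hn]
    exact hz
  have := H_re_le _ hm
  rw [hn] at this
  exact this

end N_F_upper

alias F_upper := N_F_upper.F_upper

end NMA
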