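import Pool.Agent.Helper694.NMA.Defs
import Pool.Agent.Helper694.NMA.J_H_diff
set_option autoImplicit false

namespace NMA

open NM Complex Metric Set Filter Topology MeasureTheory


namespace N_H_mean

theorem H_mean (w : ℂ) (hw : ‖w‖ = 1) (r : ℝ) (hr : 0 < r) (hr1 : r < 1) :
    (2 * Real.pi)⁻¹ * ∫ θ in (0:ℝ)..(2 * Real.pi),
      (H (w * ((r : ℂ) * Complex.exp ((θ : ℂ) * Complex.I)))).re = 1 := by
  have hsub : closedBall (0:ℂ) |r| ⊆ ball 0 1 := by
    rw [abs_of_pos hr]; exact closedBall_subset_ball hr1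
  have hd : DiffContOnCl ℂ (fun v => H (w * v)) (ball 0 |r|) := by
    apply DifferentiableOn.diffContOnCl
    exact (H_diff w hw).mono (closure_ball_subset_closedBall.trans hsub)
  have h1 := hd.circleAverage
  have h2 : H (w * 0) = 1 := by simp [H]
  rw [h2, Real.circleAverage_def] at h1
  have hcm : ∀ θ : ℝ, circleMap 0 r θ = (r : ℂ) * Complex.exp ((θ : ℂ) * Complex.I) := by
    intro θ; simp [circleMap]
  have hcont : Continuous (fun θ : ℝ => H (w * ((r : ℂ) * Complex.exp ((θ : ℂ) * Complex.I)))) := by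
    have hc : ContinuousOn (fun v => H (w * v)) (ball 0 1) := (H_diff w hw).continuousOn
    refine hc.comp_continuous (f := fun θ : ℝ => (r : ℂ) * Complex.exp ((θ : ℂ) * Complex.I))
      (by fun_prop) ?_
    intro θ
    rw [mem_ball_zero_iff, norm_mul, Complex.norm_exp_ofReal_mul_I, mul_one, Complex.norm_real,
      Real.norm_eq_abs, abs_of_pos hr]
    exact hr1
  have h3 : ∫ θ in (0:ℝ)..(2 * Real.pi), H (w * ((r : ℂ) * Complex.exp ((θ : ℂ) * Complex.I)))
      = ∫ θ in (0:ℝ)..(2 * Real.pi), H (w * circleMap 0 r θ) := by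
    simp only [hcm]
  have h4 := congrArg Complex.re h1
  rw [← h3, Complex.smul_re, Complex.one_re, smul_eq_mul] at h4
  rw [← h4]
  congr 1
  have h5 := Complex.reCLM.intervalIntegral_comp_comm (μ := volume) (a := (0:ℝ)) (b := 2 * Real.pi)
    (f := fun θ : ℝ => H (w * ((r : ℂ) * Complex.exp ((θ : ℂ) * Complex.I))))
    (hcont.intervalIntegrable _ _)
  simpa using h5

end N_H_mean

alias H_mean := N_H_mean.H_mean

end NMA
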