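import Pool.Agent.Helper694.NMA.Defs
set_option autoImplicit false

namespace NMA

open NM Complex Metric Set Filter Topology MeasureTheory


namespace N_T_add_le

theorem circ_cont (r : ℝ) (hr : 0 < r) (hr1 : r < 1) (f : ℂ → ℂ)
    (hf : ContinuousOn f (ball 0 1)) :
    Continuous fun θ : ℝ => Real.posLog ‖f ((r : ℂ) * Complex.exp ((θ : ℂ) * Complex.I))‖ := by
  have h1 : Continuous fun θ : ℝ => f ((r : ℂ) * Complex.exp ((θ : ℂ) * Complex.I)) := by
    apply hf.comp_continuous (by fun_prop)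
    intro θ
    rw [mem_ball_zero_iff, norm_mul, Complex.norm_exp_ofReal_mul_I, mul_one, Complex.norm_real,
      Real.norm_eq_abs, abs_of_pos hr]
    exact hr1
  exact Real.continuous_posLog.comp h1.norm

theorem T_add_le (r : ℝ) (hr : 0 < r) (hr1 : r < 1) (f g : ℂ → ℂ) (hf : ContinuousOn f (ball 0 1))
    (hg : ContinuousOn g (ball 0 1)) :
    T r (fun z => f z + g z) ≤ T r f + T r g + Real.log 2 := by
  have h1 := circ_cont r hr hr1 f hf
  have h2 := circ_cont r hr hr1 g hg
  have h3 := circ_cont r hr hr1 (fun z => f z + g z) (hf.add hg)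
  have h12 : Continuous fun θ : ℝ =>
      Real.posLog ‖f ((r : ℂ) * Complex.exp ((θ : ℂ) * Complex.I))‖ +
        Real.posLog ‖g ((r : ℂ) * Complex.exp ((θ : ℂ) * Complex.I))‖ := h1.add h2
  have h0 : (0:ℝ) ≤ 2 * Real.pi := by positivity
  have key : ∫ θ in (0:ℝ)..(2 * Real.pi),
      Real.posLog ‖f ((r : ℂ) * Complex.exp ((θ : ℂ) * Complex.I)) +
        g ((r : ℂ) * Complex.exp ((θ : ℂ) * Complex.I))‖ ≤
      ∫ θ in (0:ℝ)..(2 * Real.pi),
        (Real.posLog ‖f ((r : ℂ) * Complex.exp ((θ : ℂ) * Complex.I))‖ +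
        Real.posLog ‖g ((r : ℂ) * Complex.exp ((θ : ℂ) * Complex.I))‖ + Real.log 2) := by
    apply intervalIntegral.integral_mono_on h0 (h3.intervalIntegrable _ _)
      ((h12.add continuous_const).intervalIntegrable _ _)
    intro θ _
    exact Real.posLog_norm_add_le (f ((r : ℂ) * Complex.exp ((θ : ℂ) * Complex.I)))
      (g ((r : ℂ) * Complex.exp ((θ : ℂ) * Complex.I)))
  rw [intervalIntegral.integral_add (h12.intervalIntegrable _ _)
    (continuous_const.intervalIntegrable _ _),
    intervalIntegral.integral_add (h1.intervalIntegrable _ _) (h2.intervalIntegrable _ _),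
    intervalIntegral.integral_const] at key
  unfold T
  have hpi : (0:ℝ) < (2 * Real.pi)⁻¹ := by positivity
  have h4 := mul_le_mul_of_nonneg_left key hpi.le
  refine h4.trans (le_of_eq ?_)
  rw [smul_eq_mul, sub_zero, mul_add, mul_add, ← mul_assoc (2 * Real.pi)⁻¹ (2 * Real.pi),
    inv_mul_cancel₀ (by positivity : (2 * Real.pi : ℝ) ≠ 0), one_mul]

end N_T_add_le

alias T_add_le := N_T_add_le.T_add_le

end NMA
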