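import Pool.Agent.Helper694.NMA.Defs
import Pool.Agent.Helper694.NMA.J_T_add_le
set_option autoImplicit false

namespace NMA

open NM Complex Metric Set Filter Topology MeasureTheory


namespace N_InN_add

theorem InN_add (f g : ℂ → ℂ) (hf : InN f) (hg : InN g) : InN (fun z => f z + g z) := by
  obtain ⟨hfd, K, hK⟩ := hf
  obtain ⟨hgd, K', hK'⟩ := hg
  refine ⟨hfd.add hgd, K + K' + Real.log 2, ?_⟩
  intro r hr hr1
  have h1 := T_add_le r hr hr1 f g hfd.continuousOn hgd.continuousOn
  have h2 := hK r hr hr1
  have h3 := hK' r hr hr1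
  linarith

end N_InN_add

alias InN_add := N_InN_add.InN_add

end NMA
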