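import Pool.Agent.Helper694.NMA.Defs
set_option autoImplicit false

namespace NMA

open NM Complex Metric Set Filter Topology MeasureTheory


namespace N_T_pow

theorem T_pow (r : ℝ) (hr : 0 < r) (hr1 : r < 1) (q : ℕ) (hq : 0 < q) (f : ℂ → ℂ)
    (hf : ContinuousOn f (ball 0 1)) :
    T r (fun z => f (z ^ q)) = T (r ^ q) f := by
  have hrq0 : 0 < r ^ q := pow_pos hr q
  have hrq1 : r ^ q < 1 := pow_lt_one₀ hr.le hr1 hq.ne'
  set φ : ℝ → ℝ := fun θ => Real.posLog ‖f (((r ^ q : ℝ) : ℂ) * Complex.exp ((θ : ℂ) * Complex.I))‖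
    with hφ
  have hqR : (q : ℝ) ≠ 0 := by exact_mod_cast hq.ne'
  have hcont : Continuous φ := by
    have h1 : Continuous fun θ : ℝ => ((r ^ q : ℝ) : ℂ) * Complex.exp ((θ : ℂ) * Complex.I) := by
      fun_prop
    have h2 : ∀ θ : ℝ, ((r ^ q : ℝ) : ℂ) * Complex.exp ((θ : ℂ) * Complex.I) ∈ ball (0 : ℂ) 1 := by
      intro θ
      rw [mem_ball_zero_iff, norm_mul, Complex.norm_exp_ofReal_mul_I, Complex.norm_real, mul_one,
        Real.norm_of_nonneg hrq0.le]
      exact hrq1
    have h3 : Continuous fun θ : ℝ =>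
        f (((r ^ q : ℝ) : ℂ) * Complex.exp ((θ : ℂ) * Complex.I)) :=
      hf.comp_continuous h1 h2
    exact Real.continuous_posLog.comp h3.norm
  have hper : Function.Periodic φ (2 * Real.pi) := by
    intro θ
    have : Complex.exp (((θ + 2 * Real.pi : ℝ) : ℂ) * Complex.I)
        = Complex.exp ((θ : ℂ) * Complex.I) := by
      rw [Complex.ofReal_add, add_mul, Complex.ofReal_mul, Complex.ofReal_ofNat,
        Complex.exp_add, Complex.exp_two_pi_mul_I, mul_one]
    simp only [hφ]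
    rw [this]
  unfold T
  congr 1
  have e1 : ∀ θ : ℝ, Real.posLog ‖(fun z => f (z ^ q)) ((r : ℂ) * Complex.exp ((θ : ℂ) * Complex.I))‖
      = φ (q * θ) := by
    intro θ
    simp only [hφ]
    congr 3
    rw [mul_pow, ← Complex.exp_nat_mul, Complex.ofReal_pow]
    congr 2
    push_cast
    ring
  simp only [e1]
  rw [intervalIntegral.integral_comp_mul_left φ hqR, mul_zero]
  have h4 := hper.intervalIntegral_add_zsmul_eq (q : ℤ) 0
    (fun a b => hcont.intervalIntegrable a b)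
  rw [zero_add, zero_add] at h4
  have e2 : (q : ℝ) * (2 * Real.pi) = (q : ℤ) • (2 * Real.pi) := by
    rw [zsmul_eq_mul, Int.cast_natCast]
  rw [e2, h4, zsmul_eq_mul, Int.cast_natCast, smul_eq_mul, ← mul_assoc, inv_mul_cancel₀ hqR,
    one_mul]

end N_T_pow

alias T_pow := N_T_pow.T_pow

end NMA
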