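import Pool.Agent.Helper694.NMA.Defs
import Pool.Agent.Helper694.NMA.J_T_pow
set_option autoImplicit false

namespace NMA

open NM Complex Metric Set Filter Topology MeasureTheory


namespace N_InN_comp_pow

theorem InN_comp_pow (q : ℕ) (hq : 0 < q) (f : ℂ → ℂ) (hf : InN f) : InN (fun z => f (z ^ q)) := by
  obtain ⟨hd, K, hK⟩ := hf
  refine ⟨?_, K, fun r hr hr1 => ?_⟩
  · refine hd.comp (differentiable_pow q).differentiableOn ?_
    intro z hz
    rw [mem_ball_zero_iff] at hz ⊢
    rw [norm_pow]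
    exact pow_lt_one₀ (norm_nonneg _) hz hq.ne'
  · rw [T_pow r hr hr1 q hq f hd.continuousOn]
    exact hK _ (pow_pos hr q) (pow_lt_one₀ hr.le hr1 hq.ne')

end N_InN_comp_pow

alias InN_comp_pow := N_InN_comp_pow.InN_comp_pow

end NMA
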