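import Pool.Agent.Helper694.NMA.Defs
set_option autoImplicit false

namespace NMA

open NM Complex Metric Set Filter Topology MeasureTheory


namespace N_T_congr

theorem T_congr (r : ℝ) (hr : 0 < r) (hr1 : r < 1) (f g : ℂ → ℂ) (h : EqOn f g (ball 0 1)) :
    T r f = T r g := by
  have h1 : ∀ θ : ℝ, f ((r : ℂ) * Complex.exp ((θ : ℂ) * Complex.I)) =
      g ((r : ℂ) * Complex.exp ((θ : ℂ) * Complex.I)) := by
    intro θ
    apply h
    rw [mem_ball_zero_iff, norm_mul, Complex.norm_exp_ofReal_mul_I, mul_one, Complex.norm_real,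
      Real.norm_of_nonneg hr.le]
    exact hr1
  unfold T
  simp only [h1]

end N_T_congr

alias T_congr := N_T_congr.T_congr

end NMA
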