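import Pool.Agent.Helper694.NMA.Defs
import Pool.Agent.Helper694.NMA.J_T_congr
set_option autoImplicit false

namespace NMA

open NM Complex Metric Set Filter Topology MeasureTheory


namespace N_InN_congr

theorem InN_congr (f g : ℂ → ℂ) (h : EqOn f g (ball 0 1)) (hf : InN f) : InN g := by
  obtain ⟨hd, K, hK⟩ := hf
  refine ⟨hd.congr fun z hz => (h hz).symm, K, fun r hr hr1 => ?_⟩
  rw [← T_congr r hr hr1 f g h]
  exact hK r hr hr1

end N_InN_congr

alias InN_congr := N_InN_congr.InN_congr

end NMA
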