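import Pool.Agent.Helper694.NMA.Defs
set_option autoImplicit false

namespace NMA

open NM Complex Metric Set Filter Topology MeasureTheory


namespace N_T_le_of_bound

theorem T_le_of_bound (r : ℝ) (hr : 0 < r) (hr1 : r < 1) (f : ℂ → ℂ)
    (hf : ContinuousOn f (ball 0 1)) (M : ℝ) (h : ∀ z ∈ ball (0:ℂ) 1, ‖z‖ = r → ‖f z‖ ≤ M) :
    T r f ≤ Real.posLog M := by
  have hn : ∀ θ : ℝ, ‖(r : ℂ) * Complex.exp ((θ : ℂ) * Complex.I)‖ = r := by
    intro θ
    rw [norm_mul, Complex.norm_exp_ofReal_mul_I, mul_one, Complex.norm_real,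
      Real.norm_of_nonneg hr.le]
  have hb : ∀ θ : ℝ, (r : ℂ) * Complex.exp ((θ : ℂ) * Complex.I) ∈ ball (0:ℂ) 1 := by
    intro θ
    rw [mem_ball_zero_iff, hn θ]
    exact hr1
  have hc : Continuous fun θ : ℝ => f ((r : ℂ) * Complex.exp ((θ : ℂ) * Complex.I)) :=
    hf.comp_continuous (by fun_prop) hb
  have hc2 : Continuous fun θ : ℝ =>
      Real.posLog ‖f ((r : ℂ) * Complex.exp ((θ : ℂ) * Complex.I))‖ :=
    Real.continuous_posLog.comp hc.norm
  have h1 : ∫ θ in (0:ℝ)..(2 * Real.pi),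
      Real.posLog ‖f ((r : ℂ) * Complex.exp ((θ : ℂ) * Complex.I))‖ ≤
      ∫ _θ in (0:ℝ)..(2 * Real.pi), Real.posLog M := by
    apply intervalIntegral.integral_mono_on Real.two_pi_pos.le (hc2.intervalIntegrable _ _)
      intervalIntegrable_const
    intro θ _
    exact Real.posLog_le_posLog (norm_nonneg _) (h _ (hb θ) (hn θ))
  unfold T
  rw [intervalIntegral.integral_const, sub_zero, smul_eq_mul] at h1
  have h2 := mul_le_mul_of_nonneg_left h1 (inv_nonneg.2 Real.two_pi_pos.le)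
  rwa [← mul_assoc, inv_mul_cancel₀ Real.two_pi_pos.ne', one_mul] at h2

end N_T_le_of_bound

alias T_le_of_bound := N_T_le_of_bound.T_le_of_bound

end NMA
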