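import Pool.Agent.Helper694.NMA.Defs
import Pool.Agent.Helper694.NMA.J_T_le_of_bound
set_option autoImplicit false

namespace NMA

open NM Complex Metric Set Filter Topology MeasureTheory


namespace N_InN_of_bound

theorem InN_of_bound (f : ℂ → ℂ) (hf : DifferentiableOn ℂ f (ball 0 1)) (M : ℝ)
    (h : ∀ z ∈ ball (0:ℂ) 1, ‖f z‖ ≤ M) : InN f := by
  refine ⟨hf, Real.posLog M, fun r hr hr1 => ?_⟩
  exact T_le_of_bound r hr hr1 f hf.continuousOn M (fun z hz _ => h z hz)

end N_InN_of_bound

alias InN_of_bound := N_InN_of_bound.InN_of_bound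

end NMA
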