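import Pool.Agent.Helper694.NMA.Defs
set_option autoImplicit false

namespace NMA

open NM Complex Metric Set Filter Topology MeasureTheory


namespace N_T_nonneg

theorem T_nonneg (r : ℝ) (f : ℂ → ℂ) : 0 ≤ T r f := by
  unfold T
  have hpi := Real.pi_pos
  refine mul_nonneg (by positivity) ?_
  refine intervalIntegral.integral_nonneg (by positivity) ?_
  intro θ _
  exact Real.posLog_nonneg

end N_T_nonneg

alias T_nonneg := N_T_nonneg.T_nonneg

end NMA
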