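import Pool.Agent.Helper694.NMA.Defs
import Pool.Agent.Helper694.NMA.J_T_nonneg
import Pool.Agent.Helper694.NMA.J_T_pow
import Pool.Agent.Helper694.NMA.J_T_le_of_bound
set_option autoImplicit false

namespace NMA

open NM Complex Metric Set Filter Topology MeasureTheory


namespace N_InN_of_pow

theorem h400_norm (s : ℝ) (hs0 : 0 < s) (θ : ℝ) :
    ‖(s : ℂ) * Complex.exp ((θ : ℂ) * Complex.I)‖ = s := by
  rw [norm_mul, Complex.norm_exp_ofReal_mul_I, mul_one, Complex.norm_real, Real.norm_eq_abs,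
    abs_of_pos hs0]

theorem h400_cont (g : ℂ → ℂ) (hg : DifferentiableOn ℂ g (ball 0 1)) (s : ℝ) (hs0 : 0 < s)
    (hs1 : s < 1) (q : ℕ) (hq : 0 < q) :
    Continuous (fun θ : ℝ => g (((s : ℂ) * Complex.exp ((θ : ℂ) * Complex.I)) ^ q)) := by
  have h1 : Continuous (fun θ : ℝ => ((s : ℂ) * Complex.exp ((θ : ℂ) * Complex.I)) ^ q) := by
    fun_prop
  apply hg.continuousOn.comp_continuous h1
  intro θ
  rw [mem_ball, dist_zero_right, norm_pow, h400_norm s hs0]
  exact pow_lt_one₀ hs0.le hs1 (by omega)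

theorem InN_of_pow (q r : ℕ) (hq : 0 < q) (g : ℂ → ℂ) (hg : DifferentiableOn ℂ g (ball 0 1))
    (h : InN (fun z => z ^ r * g (z ^ q))) : InN g := by
  obtain ⟨-, K, hK⟩ := h
  refine ⟨hg, ?_⟩
  have hsub : closedBall (0:ℂ) (1/2) ⊆ ball 0 1 := closedBall_subset_ball (by norm_num)
  obtain ⟨M, hM⟩ := (isCompact_closedBall (0:ℂ) (1/2)).exists_bound_of_continuousOn
    (hg.continuousOn.mono hsub)
  refine ⟨Real.posLog M + (r * Real.log 2 + |K|), ?_⟩
  intro ρ hρ0 hρ1
  have hlog2 : 0 < Real.log 2 := Real.log_pos (by norm_num)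
  have hrlog : 0 ≤ (r:ℝ) * Real.log 2 := by positivity
  by_cases hρ : ρ ≤ 1 / 2
  · have h1 := T_le_of_bound ρ hρ0 hρ1 g hg.continuousOn M (fun z _ hz => hM z (by
      rw [mem_closedBall, dist_zero_right, hz]
      exact hρ))
    have h2 := abs_nonneg K
    linarith
  · have hρ' : 1 / 2 < ρ := not_le.mp hρ
    obtain ⟨s, hs⟩ : ∃ s : ℝ, s = ρ ^ ((1:ℝ) / q) := ⟨_, rfl⟩
    have hq0 : (0:ℝ) < q := by exact_mod_cast hq
    have hs0 : 0 < s := by
      rw [hs]
      exact Real.rpow_pos_of_pos hρ0 _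
    have hs1 : s < 1 := by
      rw [hs]
      exact Real.rpow_lt_one hρ0.le hρ1 (by positivity)
    have hsq : s ^ q = ρ := by
      rw [hs, ← Real.rpow_natCast, ← Real.rpow_mul hρ0.le, one_div, inv_mul_cancel₀ hq0.ne',
        Real.rpow_one]
    have hs2 : 1 / 2 < s := by
      have h1 : s ^ q ≤ s ^ 1 := pow_le_pow_of_le_one hs0.le hs1.le hq
      rw [hsq, pow_one] at h1
      linarith
    have hT := T_pow s hs0 hs1 q hq g hg.continuousOn
    rw [hsq] at hT
    rw [← hT]
    have hK1 := hK s hs0 hs1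
    have hA : Continuous (fun θ : ℝ => Real.posLog
        ‖g (((s : ℂ) * Complex.exp ((θ : ℂ) * Complex.I)) ^ q)‖) :=
      Real.continuous_posLog.comp (h400_cont g hg s hs0 hs1 q hq).norm
    have hB : Continuous (fun θ : ℝ => Real.posLog
        ‖((s : ℂ) * Complex.exp ((θ : ℂ) * Complex.I)) ^ r *
          g (((s : ℂ) * Complex.exp ((θ : ℂ) * Complex.I)) ^ q)‖) := by
      have h1 : Continuous (fun θ : ℝ => ((s : ℂ) * Complex.exp ((θ : ℂ) * Complex.I)) ^ r) := by
        fun_prop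
      exact Real.continuous_posLog.comp (h1.mul (h400_cont g hg s hs0 hs1 q hq)).norm
    have hmono : ∫ θ in (0:ℝ)..(2 * Real.pi), Real.posLog
          ‖g (((s : ℂ) * Complex.exp ((θ : ℂ) * Complex.I)) ^ q)‖ ≤
        ∫ θ in (0:ℝ)..(2 * Real.pi), ((r:ℝ) * Real.log 2 + Real.posLog
          ‖((s : ℂ) * Complex.exp ((θ : ℂ) * Complex.I)) ^ r *
            g (((s : ℂ) * Complex.exp ((θ : ℂ) * Complex.I)) ^ q)‖) := by
      apply intervalIntegral.integral_mono_on (by positivity) (hA.intervalIntegrable _ _)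
        ((continuous_const.add hB).intervalIntegrable _ _)
      intro θ _
      obtain ⟨G, hG⟩ : ∃ G, G = g (((s : ℂ) * Complex.exp ((θ : ℂ) * Complex.I)) ^ q) := ⟨_, rfl⟩
      simp only [Pi.add_apply]
      rw [← hG, norm_mul, norm_pow, h400_norm s hs0]
      have h1 : ‖G‖ ≤ 2 ^ r * (s ^ r * ‖G‖) := by
        rw [← mul_assoc, ← mul_pow]
        have h2 : 1 ≤ (2 * s) ^ r := one_le_pow₀ (by linarith)
        nlinarith [norm_nonneg G]
      have h3 := (Real.posLog_le_posLog (norm_nonneg G) h1).trans Real.posLog_mul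
      have h2l : Real.posLog (2:ℝ) = Real.log 2 := Real.posLog_eq_log (by norm_num)
      rw [Real.posLog_pow, h2l] at h3
      exact h3
    rw [intervalIntegral.integral_add (continuous_const.intervalIntegrable _ _)
      (hB.intervalIntegrable _ _), intervalIntegral.integral_const, smul_eq_mul, sub_zero] at hmono
    unfold T at hK1 ⊢
    have hpi := Real.pi_pos
    have h5 : (2 * Real.pi)⁻¹ * (2 * Real.pi * ((r:ℝ) * Real.log 2)) = r * Real.log 2 := by
      field_simp
    have h6 := mul_le_mul_of_nonneg_left hmono (show 0 ≤ (2 * Real.pi)⁻¹ by positivity)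
    rw [mul_add, h5] at h6
    have h7 := le_abs_self K
    have h8 : 0 ≤ Real.posLog M := Real.posLog_nonneg
    linarith

end N_InN_of_pow

alias InN_of_pow := N_InN_of_pow.InN_of_pow

end NMA
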