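import Pool.Agent.Helper694.NMA.Defs
set_option autoImplicit false

namespace NMA

open NM Complex Metric Set Filter Topology MeasureTheory


namespace N_T_mono

theorem T_mono (r : ℝ) (hr : 0 < r) (hr1 : r < 1) (f g : ℂ → ℂ) (hf : ContinuousOn f (ball 0 1))
    (hg : ContinuousOn g (ball 0 1)) (h : ∀ z ∈ ball (0:ℂ) 1, ‖f z‖ ≤ ‖g z‖) :
    T r f ≤ T r g := by
  have hmem : ∀ θ : ℝ, (r : ℂ) * Complex.exp ((θ : ℂ) * Complex.I) ∈ ball (0:ℂ) 1 := by
    intro θ
    rw [mem_ball_zero_iff, norm_mul, Complex.norm_exp_ofReal_mul_I, mul_one, Complex.norm_real,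
      Real.norm_eq_abs, abs_of_pos hr]
    exact hr1
  have hc : Continuous (fun θ : ℝ => (r : ℂ) * Complex.exp ((θ : ℂ) * Complex.I)) := by fun_prop
  have hcf : Continuous (fun θ : ℝ => Real.posLog ‖f ((r : ℂ) * Complex.exp ((θ : ℂ) * Complex.I))‖) :=
    Real.continuous_posLog.comp (hf.comp_continuous hc hmem).norm
  have hcg : Continuous (fun θ : ℝ => Real.posLog ‖g ((r : ℂ) * Complex.exp ((θ : ℂ) * Complex.I))‖) :=
    Real.continuous_posLog.comp (hg.comp_continuous hc hmem).norm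
  unfold T
  refine mul_le_mul_of_nonneg_left ?_ (by positivity)
  refine intervalIntegral.integral_mono_on (by positivity) (hcf.intervalIntegrable _ _)
    (hcg.intervalIntegrable _ _) fun θ _ => ?_
  exact Real.posLog_le_posLog (norm_nonneg _) (h _ (hmem θ))

end N_T_mono

alias T_mono := N_T_mono.T_mono

end NMA
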