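import Pool.Agent.Helper694.NMA.Defs
import Pool.Agent.Helper694.NMA.J_T_mono
set_option autoImplicit false

namespace NMA

open NM Complex Metric Set Filter Topology MeasureTheory


namespace N_InN_pow_mul

theorem InN_pow_mul (r : ℕ) (f : ℂ → ℂ) (hf : InN f) : InN (fun z => z ^ r * f z) := by
  obtain ⟨hd, K, hK⟩ := hf
  have hd' : DifferentiableOn ℂ (fun z : ℂ => z ^ r * f z) (ball 0 1) :=
    (differentiableOn_pow r).mul hd
  refine ⟨hd', K, fun ρ h0 h1 => ?_⟩
  refine le_trans (T_mono ρ h0 h1 (fun z => z ^ r * f z) f hd'.continuousOn hd.continuousOn ?_)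
    (hK ρ h0 h1)
  intro z hz
  have hz1 : ‖z‖ < 1 := by simpa using hz
  have h2 : ‖z‖ ^ r ≤ 1 := pow_le_one₀ (norm_nonneg z) hz1.le
  show ‖z ^ r * f z‖ ≤ ‖f z‖
  rw [norm_mul, norm_pow]
  exact mul_le_of_le_one_left (norm_nonneg _) h2

end N_InN_pow_mul

alias InN_pow_mul := N_InN_pow_mul.InN_pow_mul

end NMA
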