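import Pool.Agent.Helper694.NMA.Defs
set_option autoImplicit false

namespace NMA

open NM Complex Metric Set Filter Topology MeasureTheory


namespace N_T_rot

theorem T_rot (r : ℝ) (w : ℂ) (hw : ‖w‖ = 1) (f : ℂ → ℂ) :
    T r (fun z => f (w * z)) = T r f := by
  unfold T
  congr 1
  set φ : ℝ → ℝ := fun θ => Real.posLog ‖f ((r : ℂ) * Complex.exp ((θ : ℂ) * Complex.I))‖ with hφ
  have hw2 : w = Complex.exp ((Complex.arg w : ℂ) * Complex.I) := by
    have := Complex.norm_mul_exp_arg_mul_I w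
    rw [hw, Complex.ofReal_one, one_mul] at this
    exact this.symm
  have h1 : (fun θ : ℝ => Real.posLog ‖f (w * ((r : ℂ) * Complex.exp ((θ : ℂ) * Complex.I)))‖) =
      fun θ => φ (θ + Complex.arg w) := by
    funext θ
    rw [hφ]
    show _ = Real.posLog ‖f ((r : ℂ) * Complex.exp (((θ + Complex.arg w : ℝ) : ℂ) * Complex.I))‖
    have h2 : w * ((r : ℂ) * Complex.exp ((θ : ℂ) * Complex.I)) =
        (r : ℂ) * Complex.exp (((θ + Complex.arg w : ℝ) : ℂ) * Complex.I) := by
      conv_lhs => rw [hw2]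
      push_cast
      rw [add_mul, Complex.exp_add]
      ring
    rw [h2]
  have hper : Function.Periodic φ (2 * Real.pi) := by
    intro θ
    rw [hφ]
    show Real.posLog ‖f ((r : ℂ) * Complex.exp (((θ + 2 * Real.pi : ℝ) : ℂ) * Complex.I))‖ =
      Real.posLog ‖f ((r : ℂ) * Complex.exp ((θ : ℂ) * Complex.I))‖
    have h3 : Complex.exp (((θ + 2 * Real.pi : ℝ) : ℂ) * Complex.I) =
        Complex.exp ((θ : ℂ) * Complex.I) := by
      push_cast
      rw [add_mul, Complex.exp_add, Complex.exp_two_pi_mul_I, mul_one]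
    rw [h3]
  have h4 : ∫ θ in (0:ℝ)..(2 * Real.pi),
      Real.posLog ‖f (w * ((r : ℂ) * Complex.exp ((θ : ℂ) * Complex.I)))‖ =
      ∫ θ in (0:ℝ)..(2 * Real.pi), φ (θ + Complex.arg w) := by rw [h1]
  rw [h4, intervalIntegral.integral_comp_add_right]
  have h5 := hper.intervalIntegral_add_eq (0 + Complex.arg w) 0
  rw [zero_add (2 * Real.pi)] at h5
  rw [← h5]
  congr 1
  ring

end N_T_rot

alias T_rot := N_T_rot.T_rot

end NMA
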