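import Pool.Agent.Helper694.NMA.Defs
import Pool.Agent.Helper694.NMA.J_T_rot
set_option autoImplicit false

namespace NMA

open NM Complex Metric Set Filter Topology MeasureTheory


namespace N_InN_rot

theorem InN_rot (w : ℂ) (hw : ‖w‖ = 1) (f : ℂ → ℂ) (hf : InN f) : InN (fun z => f (w * z)) := by
  obtain ⟨h1, K, hK⟩ := hf
  refine ⟨?_, K, fun r hr0 hr1 => ?_⟩
  · refine h1.comp (g := f) (f := fun z => w * z)
      ((differentiable_id.const_mul w).differentiableOn) ?_
    intro z hz
    rw [mem_ball_zero_iff] at hz ⊢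
    rw [norm_mul, hw, one_mul]
    exact hz
  · rw [T_rot r w hw f]
    exact hK r hr0 hr1

end N_InN_rot

alias InN_rot := N_InN_rot.InN_rot

end NMA
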