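import Pool.Agent.Helper694.NMA.Defs
set_option autoImplicit false

namespace NMA

open NM Complex Metric Set Filter Topology MeasureTheory


namespace N_T_smul_le

theorem circ_mem (r : ℝ) (hr : 0 < r) (hr1 : r < 1) (θ : ℝ) :
    (r : ℂ) * Complex.exp ((θ : ℂ) * Complex.I) ∈ ball (0:ℂ) 1 := by
  rw [mem_ball_zero_iff, norm_mul, Complex.norm_exp_ofReal_mul_I, mul_one, Complex.norm_real,
    Real.norm_of_nonneg hr.le]
  exact hr1

theorem circ_cont (r : ℝ) (hr : 0 < r) (hr1 : r < 1) (f : ℂ → ℂ)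
    (hf : ContinuousOn f (ball 0 1)) :
    Continuous (fun θ : ℝ => Real.posLog ‖f ((r : ℂ) * Complex.exp ((θ : ℂ) * Complex.I))‖) := by
  have h1 : Continuous (fun θ : ℝ => (r : ℂ) * Complex.exp ((θ : ℂ) * Complex.I)) := by fun_prop
  have h2 : Continuous (fun θ : ℝ => f ((r : ℂ) * Complex.exp ((θ : ℂ) * Complex.I))) :=
    hf.comp_continuous h1 (fun θ => circ_mem r hr hr1 θ)
  exact Real.continuous_posLog.comp h2.norm

theorem T_smul_le (r : ℝ) (hr : 0 < r) (hr1 : r < 1) (c : ℂ) (f : ℂ → ℂ)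
    (hf : ContinuousOn f (ball 0 1)) :
    T r (fun z => c * f z) ≤ Real.posLog ‖c‖ + T r f := by
  have hpi : (0:ℝ) < 2 * Real.pi := by positivity
  have h1 := circ_cont r hr hr1 f hf
  have h2 := circ_cont r hr hr1 (fun z => c * f z) (continuousOn_const.mul hf)
  have h3 : (∫ θ in (0:ℝ)..(2 * Real.pi),
      Real.posLog ‖c * f ((r : ℂ) * Complex.exp ((θ : ℂ) * Complex.I))‖) ≤
      ∫ θ in (0:ℝ)..(2 * Real.pi), (Real.posLog ‖c‖ +
        Real.posLog ‖f ((r : ℂ) * Complex.exp ((θ : ℂ) * Complex.I))‖) := by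
    apply intervalIntegral.integral_mono_on hpi.le
    · exact h2.intervalIntegrable _ _
    · exact (continuous_const.add h1).intervalIntegrable _ _
    · intro θ _
      rw [norm_mul]
      exact Real.posLog_mul
  have h4 : (∫ θ in (0:ℝ)..(2 * Real.pi), (Real.posLog ‖c‖ +
        Real.posLog ‖f ((r : ℂ) * Complex.exp ((θ : ℂ) * Complex.I))‖)) =
      (2 * Real.pi) * Real.posLog ‖c‖ + ∫ θ in (0:ℝ)..(2 * Real.pi),
        Real.posLog ‖f ((r : ℂ) * Complex.exp ((θ : ℂ) * Complex.I))‖ := by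
    rw [intervalIntegral.integral_add (continuous_const.intervalIntegrable _ _)
      (h1.intervalIntegrable _ _)]
    simp
  unfold T
  rw [h4] at h3
  have h5 := mul_le_mul_of_nonneg_left h3 (inv_nonneg.mpr hpi.le)
  have h6 : (2 * Real.pi)⁻¹ * ((2 * Real.pi) * Real.posLog ‖c‖ +
      ∫ θ in (0:ℝ)..(2 * Real.pi),
        Real.posLog ‖f ((r : ℂ) * Complex.exp ((θ : ℂ) * Complex.I))‖) =
      Real.posLog ‖c‖ + (2 * Real.pi)⁻¹ * ∫ θ in (0:ℝ)..(2 * Real.pi),
        Real.posLog ‖f ((r : ℂ) * Complex.exp ((θ : ℂ) * Complex.I))‖ := by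
    rw [mul_add, ← mul_assoc, inv_mul_cancel₀ hpi.ne', one_mul]
  rw [h6] at h5
  exact h5

end N_T_smul_le

alias T_smul_le := N_T_smul_le.T_smul_le

end NMA
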