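import Pool.Agent.Helper694.NMA.Defs
import Pool.Agent.Helper694.NMA.J_T_smul_le
set_option autoImplicit false

namespace NMA

open NM Complex Metric Set Filter Topology MeasureTheory


namespace N_InN_smul

theorem InN_smul (c : ℂ) (f : ℂ → ℂ) (hf : InN f) : InN (fun z => c * f z) := by
  obtain ⟨h1, K, hK⟩ := hf
  refine ⟨h1.const_mul c, Real.posLog ‖c‖ + K, fun r hr hr1 => ?_⟩
  exact (T_smul_le r hr hr1 c f h1.continuousOn).trans (by linarith [hK r hr hr1])

end N_InN_smul

alias InN_smul := N_InN_smul.InN_smul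

end NMA
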