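import Pool.Agent.Helper694.NMA.Defs
import Pool.Agent.Helper694.NMA.J_InN_add
import Pool.Agent.Helper694.NMA.J_InN_smul
import Pool.Agent.Helper694.NMA.J_InN_of_bound
set_option autoImplicit false

namespace NMA

open NM Complex Metric Set Filter Topology MeasureTheory


namespace N_InN_sum

theorem InN_sum {ι : Type*} (s : Finset ι) (f : ι → ℂ → ℂ) (hf : ∀ i ∈ s, InN (f i)) :
    InN (fun z => ∑ i ∈ s, f i z) := by
  classical
  induction s using Finset.induction_on with
  | empty =>
    refine InN_of_bound _ ?_ 0 ?_
    · simp only [Finset.sum_empty]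
      exact differentiableOn_const _
    · intro z _
      simp
  | insert i s hi ih =>
    have h1 : InN (f i) := hf i (Finset.mem_insert_self i s)
    have h2 : InN (fun z => ∑ i ∈ s, f i z) :=
      ih (fun j hj => hf j (Finset.mem_insert_of_mem hj))
    have h3 := InN_add _ _ h1 h2
    simpa only [Finset.sum_insert hi] using h3

end N_InN_sum

alias InN_sum := N_InN_sum.InN_sum

end NMA
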