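import Pool.Agent.Helper694.NMA.Defs
set_option autoImplicit false

namespace NMA

open NM Complex Metric Set Filter Topology MeasureTheory


namespace N_cf_bound

theorem cf_bound (f : ℂ → ℂ) (hf : DifferentiableOn ℂ f (ball 0 1)) (ρ : ℝ) (h0 : 0 < ρ)
    (h1 : ρ < 1) (M : ℝ) (hM : ∀ z : ℂ, ‖z‖ ≤ ρ → ‖f z‖ ≤ M) (n : ℕ) :
    ‖cf f n‖ ≤ M / ρ ^ n := by
  have hd : DiffContOnCl ℂ f (ball 0 ρ) := by
    apply (hf.mono _).diffContOnCl_ball (U := closedBall 0 ρ) (Set.Subset.refl _)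
    exact closedBall_subset_ball h1
  have h := Complex.norm_iteratedDeriv_le_of_forall_mem_sphere_norm_le n h0 hd
    (fun z hz => hM z (le_of_eq (by simpa using hz)))
  unfold cf
  rw [norm_div, Complex.norm_natCast]
  have hn : (0:ℝ) < (n.factorial : ℝ) := by exact_mod_cast n.factorial_pos
  rw [div_le_iff₀ hn]
  calc _ ≤ _ := h
    _ = M / ρ ^ n * (n.factorial : ℝ) := by ring

end N_cf_bound

alias cf_bound := N_cf_bound.cf_bound

end NMA
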