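import Pool.Agent.Helper694.NMA.Defs
import Pool.Agent.Helper694.NMA.J_cf_bound
set_option autoImplicit false

namespace NMA

open NM Complex Metric Set Filter Topology MeasureTheory


namespace N_Lf_hasSum

theorem Lf_hasSum (l : ℕ → ℂ) (hl : ∀ r : ℝ, 0 ≤ r → r < 1 → Summable (fun n => ‖l n‖ * r ^ n))
    (f : ℂ → ℂ) (hf : DifferentiableOn ℂ f (ball 0 1)) (z : ℂ) (hz : z ∈ ball (0:ℂ) 1) :
    HasSum (fun n => l n * cf f n * z ^ n) (Lf l f z) := by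
  have hz1 : ‖z‖ < 1 := by simpa using hz
  obtain ⟨ρ, hρ1, hρ2⟩ := exists_between hz1
  have hρ0 : 0 < ρ := lt_of_le_of_lt (norm_nonneg z) hρ1
  have hsub : closedBall (0:ℂ) ρ ⊆ ball 0 1 := closedBall_subset_ball hρ2
  obtain ⟨M, hM⟩ := (isCompact_closedBall (0:ℂ) ρ).exists_bound_of_continuousOn
    (hf.continuousOn.mono hsub)
  have hM' : ∀ w : ℂ, ‖w‖ ≤ ρ → ‖f w‖ ≤ M := fun w hw => hM w (by simpa using hw)
  have hb := cf_bound f hf ρ hρ0 hρ2 M hM'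
  have hM0 : 0 ≤ M := le_trans (norm_nonneg _) (hM' 0 (by simpa using hρ0.le))
  have hr0 : 0 ≤ ‖z‖ / ρ := by positivity
  have hr1 : ‖z‖ / ρ < 1 := by rw [div_lt_one hρ0]; exact hρ1
  have hs := (hl (‖z‖ / ρ) hr0 hr1).mul_left M
  have hsum : Summable (fun n => l n * cf f n * z ^ n) := by
    refine Summable.of_norm_bounded hs (fun n => ?_)
    rw [norm_mul, norm_mul, norm_pow]
    calc ‖l n‖ * ‖cf f n‖ * ‖z‖ ^ n ≤ ‖l n‖ * (M / ρ ^ n) * ‖z‖ ^ n := by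
          gcongr
          exact hb n
      _ = M * (‖l n‖ * (‖z‖ / ρ) ^ n) := by
          rw [div_pow]; ring
  exact hsum.hasSum

end N_Lf_hasSum

alias Lf_hasSum := N_Lf_hasSum.Lf_hasSum

end NMA
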