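import Pool.Agent.Helper694.NMA.Defs
set_option autoImplicit false

namespace NMA

open NM Complex Metric Set Filter Topology MeasureTheory


namespace N_diff_of_hasSum

theorem diff_of_hasSum (a : ℕ → ℂ) (f : ℂ → ℂ)
    (h : ∀ z ∈ ball (0:ℂ) 1, HasSum (fun n => a n * z ^ n) (f z)) :
    DifferentiableOn ℂ f (ball 0 1) := by
  obtain ⟨p, hp⟩ : ∃ p : FormalMultilinearSeries ℂ ℂ ℂ,
    p = FormalMultilinearSeries.ofScalars ℂ a := ⟨_, rfl⟩
  have hball : Metric.eball (0:ℂ) 1 = ball (0:ℂ) 1 := by
    rw [← Metric.eball_ofReal, ENNReal.ofReal_one]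
  have hrad : 1 ≤ p.radius := by
    refine ENNReal.le_of_forall_nnreal_lt fun r hr => ?_
    have hr1 : (r : ℝ) < 1 := by exact_mod_cast hr
    have hz : ((r : ℝ) : ℂ) ∈ ball (0:ℂ) 1 := by
      rw [mem_ball_zero_iff, Complex.norm_real, Real.norm_of_nonneg r.coe_nonneg]
      exact hr1
    have ht := (h _ hz).summable.tendsto_atTop_zero.norm
    rw [norm_zero] at ht
    refine FormalMultilinearSeries.le_radius_of_tendsto p (l := 0) ?_
    refine ht.congr fun n => ?_
    rw [hp, FormalMultilinearSeries.ofScalars_norm, norm_mul, norm_pow, Complex.norm_real,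
      Real.norm_of_nonneg r.coe_nonneg]
  have hps : HasFPowerSeriesOnBall f p 0 1 := by
    refine ⟨hrad, one_pos, ?_⟩
    intro y hy
    rw [hball] at hy
    rw [zero_add]
    have h1 := h y hy
    have h2 : (fun n : ℕ => p n fun _ : Fin n => y) = fun n => a n * y ^ n := by
      funext n
      rw [hp, FormalMultilinearSeries.ofScalars_apply_eq, smul_eq_mul]
    rw [h2]
    exact h1
  have h3 := hps.differentiableOn
  rwa [hball] at h3

end N_diff_of_hasSum

alias diff_of_hasSum := N_diff_of_hasSum.diff_of_hasSum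

end NMA
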