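import Pool.Agent.Helper694.NMA.Defs
import Pool.Agent.Helper694.NMA.J_Lf_hasSum
import Pool.Agent.Helper694.NMA.J_diff_of_hasSum
import Pool.Agent.Helper694.NMA.J_cf_bound
set_option autoImplicit false

namespace NMA

open NM Complex Metric Set Filter Topology MeasureTheory


namespace N_Lam_factor

theorem Lam_factor (l : ℕ → ℂ) (hl : ∀ r : ℝ, 0 ≤ r → r < 1 → Summable (fun n => ‖l n‖ * r ^ n))
    (f : ℂ → ℂ) (hf : DifferentiableOn ℂ f (ball 0 1)) (n : ℕ) :
    ∃ φ : ℂ → ℂ, DifferentiableOn ℂ φ (ball 0 1) ∧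
      ∀ z ∈ ball (0:ℂ) 1, Lam l (cf f) n z = z ^ n * φ z := by
  have hl' : ∀ r : ℝ, 0 ≤ r → r < 1 → Summable (fun m => ‖(fun m => l (n + m)) m‖ * r ^ m) := by
    intro r h0 h1
    have hr : 0 < (1 + r) / 2 := by linarith
    have h2 := hl ((1 + r) / 2) hr.le (by linarith)
    have h3 : Summable (fun m => ‖l (n + m)‖ * ((1 + r) / 2) ^ (n + m)) := by
      have h4 := (summable_nat_add_iff n).2 h2
      refine h4.congr fun m => ?_
      rw [add_comm m n]
    have h4 := h3.mul_right (((1 + r) / 2) ^ n)⁻¹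
    refine Summable.of_nonneg_of_le (fun m => by positivity) (fun m => ?_) h4
    have h5 : ‖l (n + m)‖ * ((1 + r) / 2) ^ (n + m) * (((1 + r) / 2) ^ n)⁻¹ =
        ‖l (n + m)‖ * ((1 + r) / 2) ^ m := by
      rw [pow_add]
      field_simp
    rw [h5]
    exact mul_le_mul_of_nonneg_left (pow_le_pow_left₀ h0 (by linarith) m) (norm_nonneg _)
  refine ⟨Lf (fun m => l (n + m)) f, diff_of_hasSum (fun m => l (n + m) * cf f m) _
    (fun z hz => Lf_hasSum _ hl' f hf z hz), ?_⟩
  intro z hz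
  unfold Lam Lf
  rw [← tsum_mul_left]
  refine tsum_congr fun m => ?_
  rw [pow_add]
  ring

end N_Lam_factor

alias Lam_factor := N_Lam_factor.Lam_factor

end NMA
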