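import Pool.Agent.Helper694.NMA.Defs
set_option autoImplicit false

namespace NMA

open NM Complex Metric Set Filter Topology MeasureTheory


namespace N_hasSum_cf

theorem hasSum_cf (f : ℂ → ℂ) (hf : DifferentiableOn ℂ f (ball 0 1)) (z : ℂ)
    (hz : z ∈ ball (0:ℂ) 1) : HasSum (fun n => cf f n * z ^ n) (f z) := by
  have h := Complex.hasSum_taylorSeries_on_ball (f := f) (c := 0) (r := (1 : NNReal))
    (by simpa using hf) (z := z) (by simpa using hz)
  have e : (fun n => cf f n * z ^ n) =
      (fun n : ℕ => ((n.factorial : ℂ))⁻¹ • (z - 0) ^ n • iteratedDeriv n f 0) := by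
    funext n
    unfold cf
    simp only [sub_zero, smul_eq_mul]
    ring
  rw [e]
  exact h

end N_hasSum_cf

alias hasSum_cf := N_hasSum_cf.hasSum_cf

end NMA
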