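import Pool.Agent.Helper694.NMA.Defs
import Pool.Agent.Helper694.NMA.J_InN_of_bound
set_option autoImplicit false

namespace NMA

open NM Complex Metric Set Filter Topology MeasureTheory


namespace N_l_growth

theorem summ_u : Summable (fun n : ℕ => 1 / ((n : ℝ) + 1) ^ 2) := by
  have h1 : Summable (fun n : ℕ => 1 / (n : ℝ) ^ 2) := Real.summable_one_div_nat_pow.2 (by norm_num)
  have h2 := (summable_nat_add_iff 1).2 h1
  refine h2.congr fun n => ?_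
  push_cast
  rfl

theorem summ_q (q : ℝ) (hq0 : 0 ≤ q) (hq : q < 1) : Summable (fun n : ℕ => ((n : ℝ) + 1) ^ 2 * q ^ n) := by
  have hn : ‖q‖ < 1 := by rwa [Real.norm_of_nonneg hq0]
  have h2 := summable_pow_mul_geometric_of_norm_lt_one (R := ℝ) 2 hn
  have h1 := summable_pow_mul_geometric_of_norm_lt_one (R := ℝ) 1 hn
  have h0 := summable_pow_mul_geometric_of_norm_lt_one (R := ℝ) 0 hn
  have h3 := (h2.add (h1.mul_left 2)).add h0
  refine h3.congr fun n => ?_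
  ring

theorem l_growth (l : ℕ → ℂ) (hl : IsMul l) (r : ℝ) (hr : 0 ≤ r) (hr1 : r < 1) :
    Summable (fun n => ‖l n‖ * r ^ n) := by
  let a : ℕ → ℂ := fun n => 1 / ((n : ℂ) + 1) ^ 2
  have han : ∀ n, ‖a n‖ = 1 / ((n : ℝ) + 1) ^ 2 := by
    intro n
    show ‖1 / ((n : ℂ) + 1) ^ 2‖ = _
    have h1 : ((n : ℂ) + 1) = (((n : ℝ) + 1 : ℝ) : ℂ) := by push_cast; rfl
    rw [norm_div, norm_one, norm_pow, h1, Complex.norm_real, Real.norm_of_nonneg (by positivity)]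
  have hbd : ∀ (n : ℕ) (z : ℂ), z ∈ ball (0:ℂ) 1 → ‖a n * z ^ n‖ ≤ 1 / ((n : ℝ) + 1) ^ 2 := by
    intro n z hz
    have hz1 : ‖z‖ ≤ 1 := by
      have : ‖z‖ < 1 := by simpa using hz
      exact this.le
    rw [norm_mul, norm_pow, han]
    have h1 : ‖z‖ ^ n ≤ 1 := pow_le_one₀ (norm_nonneg _) hz1
    have h2 : (0 : ℝ) ≤ 1 / ((n : ℝ) + 1) ^ 2 := by positivity
    calc 1 / ((n : ℝ) + 1) ^ 2 * ‖z‖ ^ n ≤ 1 / ((n : ℝ) + 1) ^ 2 * 1 :=
          mul_le_mul_of_nonneg_left h1 h2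
      _ = _ := mul_one _
  let f : ℂ → ℂ := fun z => ∑' n, a n * z ^ n
  have hsum : ∀ z ∈ ball (0:ℂ) 1, HasSum (fun n => a n * z ^ n) (f z) := by
    intro z hz
    exact (Summable.of_norm_bounded summ_u (fun n => hbd n z hz)).hasSum
  have hfd : DifferentiableOn ℂ f (ball 0 1) := by
    refine differentiableOn_tsum_of_summable_norm summ_u (fun n => ?_) isOpen_ball
      (fun n z hz => hbd n z hz)
    fun_prop
  have hfb : ∀ z ∈ ball (0:ℂ) 1, ‖f z‖ ≤ ∑' n : ℕ, 1 / ((n : ℝ) + 1) ^ 2 := by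
    intro z hz
    exact tsum_of_norm_bounded summ_u.hasSum (fun n => hbd n z hz)
  obtain ⟨g, -, hg⟩ := hl a f (InN_of_bound f hfd _ hfb) hsum
  obtain ⟨s, hrs, hs1⟩ := exists_between hr1
  have hs0 : 0 < s := lt_of_le_of_lt hr hrs
  have hsm : (s : ℂ) ∈ ball (0:ℂ) 1 := by simpa [abs_of_pos hs0] using hs1
  have h1 := (hg (s : ℂ) hsm).summable.tendsto_atTop_zero
  obtain ⟨C, hC⟩ : ∃ C : ℝ, ∀ n, ‖l n * a n * (s : ℂ) ^ n‖ ≤ C := by
    have h2 := h1.norm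
    obtain ⟨C, hC⟩ := h2.bddAbove_range
    exact ⟨C, fun n => hC ⟨n, rfl⟩⟩
  have hq0 : 0 ≤ r / s := by positivity
  have hq1 : r / s < 1 := (div_lt_one hs0).2 hrs
  refine Summable.of_nonneg_of_le (fun n => by positivity) (fun n => ?_)
    ((summ_q (r / s) hq0 hq1).mul_left C)
  have h3 : ‖l n‖ * r ^ n = ‖l n * a n * (s : ℂ) ^ n‖ * (((n : ℝ) + 1) ^ 2 * (r / s) ^ n) := by
    rw [norm_mul, norm_mul, norm_pow, han, Complex.norm_real, Real.norm_of_nonneg hs0.le, div_pow]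
    have hsn : s ^ n ≠ 0 := pow_ne_zero _ hs0.ne'
    have hn1 : ((n : ℝ) + 1) ≠ 0 := by positivity
    field_simp
  rw [h3]
  exact mul_le_mul_of_nonneg_right (hC n) (by positivity)

end N_l_growth

alias l_growth := N_l_growth.l_growth

end NMA
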