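import Pool.Agent.Helper694.NMA.Defs
import Pool.Agent.Helper694.NMA.J_l_growth
import Pool.Agent.Helper694.NMA.J_hasSum_cf
import Pool.Agent.Helper694.NMA.J_Lf_hasSum
import Pool.Agent.Helper694.NMA.J_InN_congr
set_option autoImplicit false

namespace NMA

open NM Complex Metric Set Filter Topology MeasureTheory


namespace N_Lf_InN

theorem Lf_InN (l : ℕ → ℂ) (hl : IsMul l) (f : ℂ → ℂ) (hf : InN f) : InN (Lf l f) := by
  obtain ⟨g, hg, hs⟩ := hl (cf f) f hf (fun z hz => hasSum_cf f hf.1 z hz)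
  refine InN_congr g (Lf l f) ?_ hg
  intro z hz
  exact (hs z hz).unique (Lf_hasSum l (fun r hr hr1 => l_growth l hl r hr hr1) f hf.1 z hz)

end N_Lf_InN

alias Lf_InN := N_Lf_InN.Lf_InN

end NMA
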