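import Pool.Agent.Helper694.NMA.Defs
import Pool.Agent.Helper694.NMA.J_cf_bound
import Pool.Agent.Helper694.NMA.J_Lf_hasSum
set_option autoImplicit false

namespace NMA

open NM Complex Metric Set Filter Topology MeasureTheory


namespace N_Lf_bound

theorem Lf_bound (l : ℕ → ℂ) (hl : ∀ r : ℝ, 0 ≤ r → r < 1 → Summable (fun n => ‖l n‖ * r ^ n))
    (f : ℂ → ℂ) (hf : DifferentiableOn ℂ f (ball 0 1)) (r ρ M : ℝ) (hr : 0 < r) (hrρ : r < ρ)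
    (hρ : ρ < 1) (hM : ∀ v : ℂ, ‖v‖ ≤ ρ → ‖f v‖ ≤ M) (z : ℂ) (hz : ‖z‖ ≤ r) :
    ‖Lf l f z‖ ≤ M * ∑' n, ‖l n‖ * (r / ρ) ^ n := by
  have hρ0 : 0 < ρ := hr.trans hrρ
  have hq0 : 0 ≤ r / ρ := by positivity
  have hq1 : r / ρ < 1 := (div_lt_one hρ0).2 hrρ
  have hs := hl (r / ρ) hq0 hq1
  have hM0 : 0 ≤ M := (norm_nonneg _).trans (hM 0 (by rw [norm_zero]; exact hρ0.le))
  have hz' : z ∈ ball (0:ℂ) 1 := by
    rw [mem_ball_zero_iff]; linarith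
  have hsum := Lf_hasSum l hl f hf z hz'
  have hb : ∀ n, ‖l n * cf f n * z ^ n‖ ≤ M * (‖l n‖ * (r / ρ) ^ n) := by
    intro n
    rw [norm_mul, norm_mul, norm_pow]
    have h1 := cf_bound f hf ρ hρ0 hρ M hM n
    have h2 : ‖z‖ ^ n ≤ r ^ n := pow_le_pow_left₀ (norm_nonneg _) hz n
    calc ‖l n‖ * ‖cf f n‖ * ‖z‖ ^ n ≤ ‖l n‖ * (M / ρ ^ n) * r ^ n := by
          gcongr
      _ = M * (‖l n‖ * (r / ρ) ^ n) := by
          rw [div_pow]; ring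
  rw [← hsum.tsum_eq, ← tsum_mul_left]
  exact tsum_of_norm_bounded (hs.mul_left M).hasSum hb


end N_Lf_bound

alias Lf_bound := N_Lf_bound.Lf_bound

end NMA
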