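import Pool.Agent.Helper694.NMA.Defs
import Pool.Agent.Helper694.NMA.J_Lf_hasSum
import Pool.Agent.Helper694.NMA.J_diff_of_hasSum
set_option autoImplicit false

namespace NMA

open NM Complex Metric Set Filter Topology MeasureTheory


namespace N_Lf_diff

theorem Lf_diff (l : ℕ → ℂ) (hl : ∀ r : ℝ, 0 ≤ r → r < 1 → Summable (fun n => ‖l n‖ * r ^ n))
    (f : ℂ → ℂ) (hf : DifferentiableOn ℂ f (ball 0 1)) :
    DifferentiableOn ℂ (Lf l f) (ball 0 1) :=
  diff_of_hasSum (fun n => l n * cf f n) (Lf l f) (fun z hz => Lf_hasSum l hl f hf z hz)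

end N_Lf_diff

alias Lf_diff := N_Lf_diff.Lf_diff

end NMA
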