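import Pool.Agent.Helper694.NMA.Defs
set_option autoImplicit false

namespace NMA

open NM Complex Metric Set Filter Topology MeasureTheory


namespace N_cf_eq

theorem cf_eq (a : ℕ → ℂ) (f : ℂ → ℂ)
    (h : ∀ z ∈ ball (0:ℂ) 1, HasSum (fun n => a n * z ^ n) (f z)) (n : ℕ) : cf f n = a n := by
  have hp : ∀ (m : ℕ) (y : ℂ), FormalMultilinearSeries.ofScalars ℂ a m (fun _ => y) = a m * y ^ m := by
    intro m y
    rw [FormalMultilinearSeries.ofScalars_apply_eq, smul_eq_mul]
  have hb : HasFPowerSeriesOnBall f (FormalMultilinearSeries.ofScalars ℂ a) 0 1 := by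
    refine ⟨?_, by norm_num, ?_⟩
    · apply ENNReal.le_of_forall_nnreal_lt
      intro r hr
      have hr1 : (r : ℝ) < 1 := by exact_mod_cast hr
      have hs := (h (r : ℂ) (by
        rw [mem_ball_zero_iff, Complex.norm_real, Real.norm_of_nonneg (NNReal.coe_nonneg r)]
        exact hr1)).summable
      have ht := hs.tendsto_atTop_zero.norm
      rw [norm_zero] at ht
      apply FormalMultilinearSeries.le_radius_of_tendsto (l := 0)
      refine ht.congr (fun m => ?_)
      rw [FormalMultilinearSeries.ofScalars_norm, norm_mul, norm_pow, Complex.norm_real,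
        Real.norm_of_nonneg (NNReal.coe_nonneg r)]
    · intro y hy
      have hy' : y ∈ ball (0:ℂ) 1 := by
        rw [← Metric.eball_ofReal] at *
        simpa using hy
      simp only [hp, zero_add]
      exact h y hy'
  have hf := hb.factorial_smul 1 n
  rw [hp, one_pow, mul_one, ← iteratedDeriv_eq_iteratedFDeriv] at hf
  unfold cf
  rw [← hf, nsmul_eq_mul, mul_div_cancel_left₀]
  exact_mod_cast n.factorial_ne_zero

end N_cf_eq

alias cf_eq := N_cf_eq.cf_eq

end NMA
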