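import Pool.Agent.Helper694.NMA.Defs
import Pool.Agent.Helper694.NMA.J_cf_eq
import Pool.Agent.Helper694.NMA.J_hasSum_cf
import Pool.Agent.Helper694.NMA.J_Lf_hasSum
set_option autoImplicit false

namespace NMA

open NM Complex Metric Set Filter Topology MeasureTheory


namespace N_Lf_linear

theorem Lf_linear (l : ℕ → ℂ) (hl : ∀ r : ℝ, 0 ≤ r → r < 1 → Summable (fun n => ‖l n‖ * r ^ n))
    (s : Finset ℕ) (c : ℕ → ℂ) (f : ℕ → ℂ → ℂ) (hf : ∀ i, DifferentiableOn ℂ (f i) (ball 0 1))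
    (z : ℂ) (hz : z ∈ ball (0:ℂ) 1) :
    Lf l (fun v => ∑ i ∈ s, c i * f i v) z = ∑ i ∈ s, c i * Lf l (f i) z := by
  have hcf : ∀ n, cf (fun v => ∑ i ∈ s, c i * f i v) n = ∑ i ∈ s, c i * cf (f i) n := by
    intro n
    apply cf_eq (fun n => ∑ i ∈ s, c i * cf (f i) n)
    intro w hw
    have h1 := hasSum_sum (s := s) (fun i _ => (hasSum_cf (f i) (hf i) w hw).mul_left (c i))
    have h2 : (fun n => (∑ i ∈ s, c i * cf (f i) n) * w ^ n) = fun n => ∑ i ∈ s, c i * (cf (f i) n * w ^ n) := by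
      funext n
      rw [Finset.sum_mul]
      apply Finset.sum_congr rfl
      intro i _
      ring
    rw [h2]
    exact h1
  have h1 := hasSum_sum (s := s) (fun i _ => (Lf_hasSum l hl (f i) (hf i) z hz).mul_left (c i))
  have h2 : (fun n => l n * cf (fun v => ∑ i ∈ s, c i * f i v) n * z ^ n) =
      fun n => ∑ i ∈ s, c i * (l n * cf (f i) n * z ^ n) := by
    funext n
    rw [hcf, Finset.mul_sum, Finset.sum_mul]
    apply Finset.sum_congr rfl
    intro i _
    ring
  show ∑' n, l n * cf (fun v => ∑ i ∈ s, c i * f i v) n * z ^ n = _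
  rw [h2]
  exact h1.tsum_eq

end N_Lf_linear

alias Lf_linear := N_Lf_linear.Lf_linear

end NMA
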