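import Pool.Agent.Helper694.NMA.Defs
import Pool.Agent.Helper694.NMA.J_cf_eq
import Pool.Agent.Helper694.NMA.J_hasSum_cf
set_option autoImplicit false

namespace NMA

open NM Complex Metric Set Filter Topology MeasureTheory


namespace N_Lf_pow

theorem Lf_pow (l : ℕ → ℂ) (f : ℂ → ℂ) (hf : DifferentiableOn ℂ f (ball 0 1)) (n : ℕ)
    (z : ℂ) (hz : z ∈ ball (0:ℂ) 1) :
    Lf l (fun v => f v * v ^ n) z = Lam l (cf f) n z := by
  have hinj : Function.Injective (fun m : ℕ => n + m) := fun x y h => Nat.add_left_cancel h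
  have hcf : ∀ k, cf (fun v => f v * v ^ n) k = if n ≤ k then cf f (k - n) else 0 := by
    refine cf_eq (fun k => if n ≤ k then cf f (k - n) else 0) _ ?_
    intro w hw
    have h1 := (hasSum_cf f hf w hw).mul_right (w ^ n)
    refine (Function.Injective.hasSum_iff hinj ?_).1 ?_
    · intro k hk
      have : ¬ n ≤ k := fun h => hk ⟨k - n, by show n + (k - n) = k; omega⟩
      simp [this]
    · have e : ((fun k => (if n ≤ k then cf f (k - n) else 0) * w ^ k) ∘ fun m : ℕ => n + m) =
          fun m => cf f m * w ^ m * w ^ n := by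
        funext m
        show (if n ≤ n + m then cf f (n + m - n) else 0) * w ^ (n + m) = _
        rw [if_pos (Nat.le_add_right _ _), Nat.add_sub_cancel_left, pow_add]
        ring
      rw [e]
      exact h1
  unfold Lf Lam
  rw [← Function.Injective.tsum_eq hinj (f := fun k => l k * cf (fun v => f v * v ^ n) k * z ^ k)]
  · refine tsum_congr fun m => ?_
    show l (n + m) * cf (fun v => f v * v ^ n) (n + m) * z ^ (n + m) = _
    rw [hcf, if_pos (Nat.le_add_right _ _), Nat.add_sub_cancel_left]
  · intro k hk
    by_contra hnk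
    have : ¬ n ≤ k := fun h => hnk ⟨k - n, by show n + (k - n) = k; omega⟩
    apply hk
    show l k * cf (fun v => f v * v ^ n) k * z ^ k = 0
    rw [hcf, if_neg this]
    ring

end N_Lf_pow

alias Lf_pow := N_Lf_pow.Lf_pow

end NMA
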