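import Pool.Agent.Helper694.NMA.Defs
import Pool.Agent.Helper694.NMA.J_cf_eq
import Pool.Agent.Helper694.NMA.J_hasSum_cf
import Pool.Agent.Helper694.NMA.J_cf_bound
import Pool.Agent.Helper694.NMA.J_Lf_hasSum
set_option autoImplicit false

namespace NMA

open NM Complex Metric Set Filter Topology MeasureTheory


namespace N_Lf_tsum

theorem dbl (F : ℕ → ℕ → ℂ) (hF : Summable (fun p : ℕ × ℕ => F p.1 p.2)) (g : ℕ → ℂ)
    (hg : ∀ k, HasSum (fun n => F k n) (g k)) :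
    HasSum (fun n => ∑' k, F k n) (∑' k, g k) := by
  have h1 : HasSum g (∑' p : ℕ × ℕ, F p.1 p.2) :=
    hF.hasSum.prod_fiberwise (f := fun p : ℕ × ℕ => F p.1 p.2) hg
  have h2 : HasSum (fun p : ℕ × ℕ => F p.2 p.1) (∑' p : ℕ × ℕ, F p.1 p.2) :=
    (Equiv.hasSum_iff (Equiv.prodComm ℕ ℕ)).2 hF.hasSum
  rw [h1.tsum_eq]
  refine h2.prod_fiberwise (f := fun p : ℕ × ℕ => F p.2 p.1) ?_
  intro n
  exact (h2.summable.prod_factor n).hasSum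

theorem summ (l : ℕ → ℂ) (hl : ∀ r : ℝ, 0 ≤ r → r < 1 → Summable (fun n => ‖l n‖ * r ^ n))
    (x : ℕ → ℂ → ℂ) (hx : ∀ k, DifferentiableOn ℂ (x k) (ball 0 1))
    (hb : ∀ r : ℝ, 0 < r → r < 1 → ∃ M : ℝ, ∀ k, ∀ z : ℂ, ‖z‖ ≤ r → ‖x k z‖ ≤ M)
    (c : ℕ → ℂ) (hc : Summable (fun k => ‖c k‖)) (z : ℂ) (hz : z ∈ ball (0:ℂ) 1) :
    Summable (fun p : ℕ × ℕ => c p.1 * (l p.2 * cf (x p.1) p.2 * z ^ p.2)) := by
  rw [mem_ball_zero_iff] at hz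
  obtain ⟨ρ, hρ⟩ : ∃ ρ, ρ = (1 + ‖z‖) / 2 := ⟨_, rfl⟩
  have hρ0 : 0 < ρ := by rw [hρ]; linarith [norm_nonneg z]
  have hρ1 : ρ < 1 := by rw [hρ]; linarith
  have hzρ : ‖z‖ < ρ := by rw [hρ]; linarith
  obtain ⟨M, hM⟩ := hb ρ hρ0 hρ1
  have hM0 : 0 ≤ M := (norm_nonneg _).trans (hM 0 0 (by rw [norm_zero]; exact hρ0.le))
  have hr0 : 0 ≤ ‖z‖ / ρ := div_nonneg (norm_nonneg z) hρ0.le
  have hr1 : ‖z‖ / ρ < 1 := (div_lt_one hρ0).2 hzρ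
  have hs : Summable (fun p : ℕ × ℕ => ‖c p.1‖ * (M * (‖l p.2‖ * (‖z‖ / ρ) ^ p.2))) :=
    Summable.mul_of_nonneg hc ((hl _ hr0 hr1).mul_left M) (fun k => norm_nonneg _)
      (fun n => mul_nonneg hM0 (mul_nonneg (norm_nonneg _) (pow_nonneg hr0 n)))
  refine Summable.of_norm_bounded hs ?_
  rintro ⟨k, n⟩
  show ‖c k * (l n * cf (x k) n * z ^ n)‖ ≤ ‖c k‖ * (M * (‖l n‖ * (‖z‖ / ρ) ^ n))
  rw [norm_mul, norm_mul, norm_mul, norm_pow]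
  refine mul_le_mul_of_nonneg_left ?_ (norm_nonneg _)
  have h1 := cf_bound (x k) (hx k) ρ hρ0 hρ1 M (hM k) n
  calc ‖l n‖ * ‖cf (x k) n‖ * ‖z‖ ^ n ≤ ‖l n‖ * (M / ρ ^ n) * ‖z‖ ^ n := by gcongr
    _ = M * (‖l n‖ * (‖z‖ / ρ) ^ n) := by
      rw [div_pow]
      ring

theorem Lf_tsum (l : ℕ → ℂ) (hl : ∀ r : ℝ, 0 ≤ r → r < 1 → Summable (fun n => ‖l n‖ * r ^ n))
    (x : ℕ → ℂ → ℂ) (hx : ∀ k, DifferentiableOn ℂ (x k) (ball 0 1))
    (hb : ∀ r : ℝ, 0 < r → r < 1 → ∃ M : ℝ, ∀ k, ∀ z : ℂ, ‖z‖ ≤ r → ‖x k z‖ ≤ M)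
    (c : ℕ → ℂ) (hc : Summable (fun k => ‖c k‖)) (z : ℂ) (hz : z ∈ ball (0:ℂ) 1) :
    Lf l (fun v => ∑' k, c k * x k v) z = ∑' k, c k * Lf l (x k) z := by
  have hA : ∀ n, cf (fun v => ∑' k, c k * x k v) n = ∑' k, c k * cf (x k) n := by
    refine cf_eq (fun n => ∑' k, c k * cf (x k) n) _ ?_
    intro w hw
    have h1 := summ (fun _ => 1) (fun r h0 h1 => by
      simpa using summable_geometric_of_lt_one h0 h1) x hx hb c hc w hw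
    have h2 := dbl (fun k n => c k * (1 * cf (x k) n * w ^ n)) h1 (fun k => c k * x k w) (by
      intro k
      have h3 := (hasSum_cf (x k) (hx k) w hw).mul_left (c k)
      simpa only [one_mul] using h3)
    have h4 : (fun n => ∑' k, c k * (1 * cf (x k) n * w ^ n)) =
        fun n => (∑' k, c k * cf (x k) n) * w ^ n := by
      funext n
      rw [← tsum_mul_right]
      refine tsum_congr fun k => ?_
      ring
    rw [h4] at h2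
    exact h2
  have h1 := summ l hl x hx hb c hc z hz
  have h2 := dbl (fun k n => c k * (l n * cf (x k) n * z ^ n)) h1 (fun k => c k * Lf l (x k) z) (by
    intro k
    exact (Lf_hasSum l hl (x k) (hx k) z hz).mul_left (c k))
  rw [← h2.tsum_eq]
  unfold Lf
  refine tsum_congr fun n => ?_
  rw [hA n]
  have h3 : ∀ k, c k * (l n * cf (x k) n * z ^ n) = (c k * cf (x k) n) * (l n * z ^ n) :=
    fun k => by ring
  simp_rw [h3]
  rw [tsum_mul_right]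
  ring

end N_Lf_tsum

alias Lf_tsum := N_Lf_tsum.Lf_tsum

end NMA
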