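import Pool.Agent.Helper694.NMA.Defs
import Pool.Agent.Helper694.NMA.J_F_norm
import Pool.Agent.Helper694.NMA.J_H_re_pos
import Pool.Agent.Helper694.NMA.J_H_mean
import Pool.Agent.Helper694.NMA.J_H_diff
set_option autoImplicit false

namespace NMA

open NM Complex Metric Set Filter Topology MeasureTheory


namespace N_T_F

theorem T_F (t : ℝ →₀ ℝ) (ht : ∀ α, 0 ≤ t α) (r : ℝ) (hr : 0 < r) (hr1 : r < 1) :
    T r (F t) = mass t := by
  have hz : ∀ θ : ℝ, ((r : ℂ) * Complex.exp ((θ : ℂ) * Complex.I)) ∈ ball (0:ℂ) 1 := by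
    intro θ
    rw [mem_ball_zero_iff, norm_mul, Complex.norm_exp_ofReal_mul_I, mul_one, Complex.norm_real,
      Real.norm_eq_abs, abs_of_pos hr]
    exact hr1
  have hwz : ∀ α θ : ℝ, (Complex.exp ((α : ℂ) * Complex.I) *
      ((r : ℂ) * Complex.exp ((θ : ℂ) * Complex.I))) ∈ ball (0:ℂ) 1 := by
    intro α θ
    have h := hz θ
    rw [mem_ball_zero_iff] at h ⊢
    rw [norm_mul, Complex.norm_exp_ofReal_mul_I, one_mul]
    exact h
  have hcont : ∀ α : ℝ, Continuous (fun θ : ℝ => (H (Complex.exp ((α : ℂ) * Complex.I) *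
      ((r : ℂ) * Complex.exp ((θ : ℂ) * Complex.I)))).re) := by
    intro α
    have h1 := (H_diff (Complex.exp ((α : ℂ) * Complex.I))
      (Complex.norm_exp_ofReal_mul_I α)).continuousOn
    have h2 : Continuous (fun θ : ℝ => ((r : ℂ) * Complex.exp ((θ : ℂ) * Complex.I))) := by
      fun_prop
    exact Complex.continuous_re.comp (h1.comp_continuous h2 hz)
  have hlog : ∀ θ : ℝ, Real.posLog ‖F t ((r : ℂ) * Complex.exp ((θ : ℂ) * Complex.I))‖ =
      ∑ α ∈ t.support, t α * (H (Complex.exp ((α : ℂ) * Complex.I) *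
        ((r : ℂ) * Complex.exp ((θ : ℂ) * Complex.I)))).re := by
    intro θ
    rw [F_norm, Real.posLog_def]
    show max 0 (Real.log (Real.exp _)) = _
    rw [Real.log_exp]
    refine max_eq_right ?_
    exact Finset.sum_nonneg fun α _ => mul_nonneg (ht α) (H_re_pos _ (hwz α θ)).le
  unfold T mass
  rw [intervalIntegral.integral_congr (g := fun θ => ∑ α ∈ t.support, t α *
    (H (Complex.exp ((α : ℂ) * Complex.I) *
      ((r : ℂ) * Complex.exp ((θ : ℂ) * Complex.I)))).re) (fun θ _ => hlog θ),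
    intervalIntegral.integral_finsetSum, Finset.mul_sum]
  · unfold Finsupp.sum
    refine Finset.sum_congr rfl fun α _ => ?_
    rw [intervalIntegral.integral_const_mul, mul_left_comm,
      H_mean _ (Complex.norm_exp_ofReal_mul_I α) r hr hr1, mul_one]
  · intro α _
    exact ((hcont α).const_mul (t α) |>.intervalIntegrable _ _)

end N_T_F

alias T_F := N_T_F.T_F

end NMA
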