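import Pool.Agent.Helper694.NMA.Defs
set_option autoImplicit false

namespace NMA

open NM Complex Metric Set Filter Topology MeasureTheory


namespace N_T_dist


theorem posLog_sub_le (a b : ℝ) (hb : 0 ≤ b) (hab : b ≤ a) :
    Real.posLog a - Real.posLog b ≤ a - b := by
  have ha : 0 ≤ a := hb.trans hab
  rw [Real.posLog_eq_log_max_one ha, Real.posLog_eq_log_max_one hb]
  have hA : max 1 b ≤ max 1 a := max_le_max le_rfl hab
  have hB : (1 : ℝ) ≤ max 1 b := le_max_left _ _
  have hd : max 1 a - max 1 b ≤ a - b := by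
    rcases le_total 1 b with h | h
    · rw [max_eq_right h, max_eq_right (h.trans hab)]
    · rw [max_eq_left h]
      rcases le_total 1 a with h' | h'
      · rw [max_eq_right h']; linarith
      · rw [max_eq_left h']; linarith
  revert hA hB hd
  generalize max 1 a = A
  generalize max 1 b = B
  intro hA hB hd
  have hB0 : 0 < B := by linarith
  have hA0 : 0 < A := by linarith
  rw [← Real.log_div hA0.ne' hB0.ne']
  have h1 := Real.log_le_sub_one_of_pos (div_pos hA0 hB0)
  have h2 : A / B - 1 ≤ A - B := by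
    rw [div_sub_one hB0.ne', div_le_iff₀ hB0]
    nlinarith
  linarith

theorem posLog_lip (a b : ℝ) (ha : 0 ≤ a) (hb : 0 ≤ b) :
    |Real.posLog a - Real.posLog b| ≤ |a - b| := by
  rcases le_total b a with h | h
  · rw [abs_of_nonneg (sub_nonneg.mpr (Real.posLog_le_posLog hb h)),
      abs_of_nonneg (sub_nonneg.mpr h)]
    exact posLog_sub_le a b hb h
  · rw [abs_sub_comm, abs_sub_comm a b, abs_of_nonneg (sub_nonneg.mpr (Real.posLog_le_posLog ha h)),
      abs_of_nonneg (sub_nonneg.mpr h)]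
    exact posLog_sub_le b a ha h

theorem circ_norm (r : ℝ) (hr : 0 < r) (θ : ℝ) :
    ‖(r : ℂ) * Complex.exp ((θ : ℂ) * Complex.I)‖ = r := by
  rw [norm_mul, Complex.norm_exp_ofReal_mul_I, mul_one, Complex.norm_real, Real.norm_of_nonneg hr.le]

theorem circ_cont (r : ℝ) (hr : 0 < r) (hr1 : r < 1) (f : ℂ → ℂ) (hf : ContinuousOn f (ball 0 1)) :
    Continuous (fun θ : ℝ => Real.posLog ‖f ((r : ℂ) * Complex.exp ((θ : ℂ) * Complex.I))‖) := by
  have h1 : Continuous (fun θ : ℝ => f ((r : ℂ) * Complex.exp ((θ : ℂ) * Complex.I))) := by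
    refine hf.comp_continuous (by fun_prop) ?_
    intro θ
    rw [mem_ball_zero_iff, circ_norm r hr]
    exact hr1
  exact Real.continuous_posLog.comp h1.norm

theorem T_dist (r : ℝ) (hr : 0 < r) (hr1 : r < 1) (f g : ℂ → ℂ) (hf : ContinuousOn f (ball 0 1))
    (hg : ContinuousOn g (ball 0 1)) (δ : ℝ) (h : ∀ z : ℂ, ‖z‖ = r → ‖f z - g z‖ ≤ δ) :
    |T r f - T r g| ≤ δ := by
  have hpi := Real.pi_pos
  have h1 := circ_cont r hr hr1 f hf
  have h2 := circ_cont r hr hr1 g hg
  unfold T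
  rw [← mul_sub, ← intervalIntegral.integral_sub (h1.intervalIntegrable _ _)
    (h2.intervalIntegrable _ _), abs_mul, abs_of_pos (by positivity : 0 < (2 * Real.pi)⁻¹)]
  have h3 : ‖∫ θ in (0:ℝ)..(2 * Real.pi),
      (Real.posLog ‖f ((r : ℂ) * Complex.exp ((θ : ℂ) * Complex.I))‖ -
      Real.posLog ‖g ((r : ℂ) * Complex.exp ((θ : ℂ) * Complex.I))‖)‖ ≤
      δ * |2 * Real.pi - 0| := by
    refine intervalIntegral.norm_integral_le_of_norm_le_const fun θ _ => ?_
    rw [Real.norm_eq_abs]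
    exact (posLog_lip _ _ (norm_nonneg _) (norm_nonneg _)).trans
      ((abs_norm_sub_norm_le _ _).trans (h _ (circ_norm r hr θ)))
  rw [Real.norm_eq_abs, sub_zero, abs_of_pos (by positivity : 0 < 2 * Real.pi)] at h3
  calc _ ≤ (2 * Real.pi)⁻¹ * (δ * (2 * Real.pi)) :=
        mul_le_mul_of_nonneg_left h3 (by positivity)
    _ = δ := by field_simp

end N_T_dist

alias T_dist := N_T_dist.T_dist

end NMA
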