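import Pool.Agent.Helper694.NMA.Defs
import Pool.Agent.Helper694.NMA.J_Lam_factor
set_option autoImplicit false

namespace NMA

open NM Complex Metric Set Filter Topology MeasureTheory


namespace N_U_cont

theorem U_cont (l : ℕ → ℂ) (hl : ∀ r : ℝ, 0 ≤ r → r < 1 → Summable (fun n => ‖l n‖ * r ^ n))
    (f : ℂ → ℂ) (hf : DifferentiableOn ℂ f (ball 0 1)) (N : ℕ) :
    ContinuousOn (U l (cf f) N) (ball 0 1) := by
  have h1 : ContinuousOn (fun z => (Finset.range (N + 1)).sup' Finset.nonempty_range_add_one
      (fun n => wt n * ‖Lam l (cf f) n z‖)) (ball 0 1) := by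
    refine ContinuousOn.finset_sup'_apply Finset.nonempty_range_add_one (fun n _ => ?_)
    obtain ⟨φ, hφ, hφ2⟩ := Lam_factor l hl f hf n
    have h2 : ContinuousOn (fun z => wt n * ‖z ^ n * φ z‖) (ball (0:ℂ) 1) := by
      have := hφ.continuousOn
      fun_prop
    refine h2.congr fun z hz => ?_
    simp only [hφ2 z hz]
  exact Real.continuous_posLog.comp_continuousOn h1

end N_U_cont

alias U_cont := N_U_cont.U_cont

end NMA
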