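import Pool.Agent.Helper694.NMA.Defs
set_option autoImplicit false

namespace NMA

open NM Complex Metric Set Filter Topology MeasureTheory


namespace N_mass_add

theorem mass_add (s t : ℝ →₀ ℝ) : mass (s + t) = mass s + mass t := by
  unfold mass
  exact Finsupp.sum_add_index' (fun _ => rfl) (fun _ _ _ => rfl)

end N_mass_add

alias mass_add := N_mass_add.mass_add

end NMA
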