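import Pool.Agent.Helper694.NMA.Defs
import Pool.Agent.Helper694.NMA.J_F_diff
import Pool.Agent.Helper694.NMA.J_F_add
import Pool.Agent.Helper694.NMA.J_F_one_le
import Pool.Agent.Helper694.NMA.J_T_F
import Pool.Agent.Helper694.NMA.J_mass_add
import Pool.Agent.Helper694.NMA.J_T_mono
import Pool.Agent.Helper694.NMA.J_T_smul_le
set_option autoImplicit false

namespace NMA

open NM Complex Metric Set Filter Topology MeasureTheory


namespace N_XInN_partial

theorem mass_sum (t : ℕ → ℝ →₀ ℝ) (s : Finset ℕ) :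
    mass (∑ k ∈ s, t k) = ∑ k ∈ s, mass (t k) := by
  classical
  induction s using Finset.induction_on with
  | empty => simp [mass]
  | insert a s ha ih => rw [Finset.sum_insert ha, Finset.sum_insert ha, mass_add, ih]

theorem sum_nonneg' (t : ℕ → ℝ →₀ ℝ) (ht : ∀ k α, 0 ≤ t k α) (s : Finset ℕ) (α : ℝ) :
    0 ≤ (∑ k ∈ s, t k) α := by
  rw [Finsupp.finset_sum_apply]
  exact Finset.sum_nonneg fun k _ => ht k α

theorem single_nonneg (α : ℝ) : 0 ≤ (Finsupp.single (0:ℝ) (1:ℝ)) α := by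
  classical
  rw [Finsupp.single_apply]
  split_ifs <;> norm_num

theorem XInN_partial (t : ℕ → ℝ →₀ ℝ) (ht : ∀ k α, 0 ≤ t k α) (h : ℕ → ℂ → ℂ)
    (hh : ∀ k, DifferentiableOn ℂ (h k) (ball 0 1)) (hb : ∀ k, ∀ z ∈ ball (0:ℂ) 1, ‖h k z‖ ≤ 1)
    (c : ℕ → ℂ) (n : ℕ) (r : ℝ) (hr : 0 < r) (hr1 : r < 1) :
    T r (fun z => ∑ k ∈ Finset.range n, c k * (F (Finsupp.single 0 1 + t k) z * h k z)) ≤
      Real.posLog (∑ k ∈ Finset.range n, ‖c k‖) + 1 + ∑ k ∈ Finset.range n, mass (t k) := by
  classical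
  set S : ℝ →₀ ℝ := ∑ k ∈ Finset.range n, t k with hS
  set G : ℂ → ℂ := F (Finsupp.single 0 1 + S) with hG
  set C : ℝ := ∑ k ∈ Finset.range n, ‖c k‖ with hC
  have hC0 : 0 ≤ C := Finset.sum_nonneg fun k _ => norm_nonneg (c k)
  have hGc : ContinuousOn G (ball 0 1) := (F_diff _).continuousOn
  have hterm : ∀ k ∈ Finset.range n, ∀ z ∈ ball (0:ℂ) 1,
      ‖F (Finsupp.single 0 1 + t k) z‖ ≤ ‖G z‖ := by
    intro k hk z hz
    have e1 : Finsupp.single (0:ℝ) (1:ℝ) + S =
        (Finsupp.single 0 1 + t k) + ∑ j ∈ (Finset.range n).erase k, t j := by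
      rw [hS, ← Finset.add_sum_erase _ _ hk, add_assoc]
    rw [hG, e1, F_add (Finsupp.single 0 1 + t k), norm_mul]
    have h1 := F_one_le (∑ j ∈ (Finset.range n).erase k, t j)
      (fun α => sum_nonneg' t ht _ α) z hz
    exact le_mul_of_one_le_right (norm_nonneg (F (Finsupp.single 0 1 + t k) z)) h1
  have hmono : T r (fun z => ∑ k ∈ Finset.range n, c k *
      (F (Finsupp.single 0 1 + t k) z * h k z)) ≤ T r (fun z => (C : ℂ) * G z) := by
    refine T_mono r hr hr1 _ _ ?_ (continuousOn_const.mul hGc) ?_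
    · exact continuousOn_finset_sum _ fun k _ => continuousOn_const.mul
        ((F_diff _).continuousOn.mul (hh k).continuousOn)
    · intro z hz
      calc ‖∑ k ∈ Finset.range n, c k * (F (Finsupp.single 0 1 + t k) z * h k z)‖
          ≤ ∑ k ∈ Finset.range n, ‖c k‖ * ‖G z‖ := by
            refine norm_sum_le_of_le _ fun k hk => ?_
            rw [norm_mul, norm_mul]
            apply mul_le_mul_of_nonneg_left _ (norm_nonneg _)
            calc ‖F (Finsupp.single 0 1 + t k) z‖ * ‖h k z‖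
                ≤ ‖F (Finsupp.single 0 1 + t k) z‖ * 1 :=
                  mul_le_mul_of_nonneg_left (hb k z hz) (norm_nonneg _)
              _ ≤ ‖G z‖ := by rw [mul_one]; exact hterm k hk z hz
        _ = ‖(C : ℂ) * G z‖ := by
            rw [← Finset.sum_mul, norm_mul, Complex.norm_real, Real.norm_eq_abs,
              abs_of_nonneg hC0]
  have h2 := T_smul_le r hr hr1 (C : ℂ) G hGc
  have h3 : T r G = 1 + ∑ k ∈ Finset.range n, mass (t k) := by
    rw [hG, T_F _ _ r hr hr1, mass_add, hS, mass_sum]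
    · congr 1
      simp [mass]
    · intro α
      exact add_nonneg (single_nonneg α) (sum_nonneg' t ht _ α)
  rw [Complex.norm_real, Real.norm_eq_abs, abs_of_nonneg hC0, h3] at h2
  linarith

end N_XInN_partial

alias XInN_partial := N_XInN_partial.XInN_partial

end NMA
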