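import Pool.Agent.Helper694.NMA.Defs
import Pool.Agent.Helper694.NMA.J_XInN_partial
import Pool.Agent.Helper694.NMA.J_F_diff
import Pool.Agent.Helper694.NMA.J_F_upper
import Pool.Agent.Helper694.NMA.J_mass_add
import Pool.Agent.Helper694.NMA.J_T_dist
set_option autoImplicit false

namespace NMA

open NM Complex Metric Set Filter Topology MeasureTheory


namespace N_XInN

theorem mass_nonneg (t : ℝ →₀ ℝ) (ht : ∀ α, 0 ≤ t α) : 0 ≤ mass t :=
  Finset.sum_nonneg fun α _ => ht α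

theorem mass_e0 : mass (Finsupp.single 0 1) = 1 := by
  unfold mass
  rw [Finsupp.sum_single_index rfl]

theorem frac_mono (x ρ : ℝ) (hx : 0 ≤ x) (hxρ : x ≤ ρ) (hρ : ρ < 1) :
    (1 + x) / (1 - x) ≤ (1 + ρ) / (1 - ρ) :=
  div_le_div₀ (by linarith) (by linarith) (by linarith) (by linarith)

theorem term_le (t : ℕ → ℝ →₀ ℝ) (ht : ∀ k α, 0 ≤ t k α) (hm : Summable (fun k => mass (t k)))
    (h : ℕ → ℂ → ℂ) (hb : ∀ k, ∀ z ∈ ball (0:ℂ) 1, ‖h k z‖ ≤ 1)
    (c : ℕ → ℂ) (ρ : ℝ) (hρ : ρ < 1) (k : ℕ) (z : ℂ) (hz : ‖z‖ ≤ ρ) :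
    ‖c k * (F (Finsupp.single 0 1 + t k) z * h k z)‖ ≤
      ‖c k‖ * Real.exp ((1 + ∑' k, mass (t k)) * ((1 + ρ) / (1 - ρ))) := by
  have hz1 : z ∈ ball (0:ℂ) 1 := by
    rw [mem_ball_zero_iff]
    linarith
  have hρ0 : 0 ≤ ρ := (norm_nonneg z).trans hz
  have h1 := F_upper (Finsupp.single 0 1 + t k) (by
    intro α
    rw [Finsupp.add_apply, Finsupp.single_apply]
    have := ht k α
    split_ifs <;> linarith) z hz1
  rw [mass_add, mass_e0] at h1
  have h2 : mass (t k) ≤ ∑' k, mass (t k) :=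
    hm.le_tsum k fun j _ => mass_nonneg (t j) (ht j)
  have h3 := frac_mono ‖z‖ ρ (norm_nonneg z) hz hρ
  have h4 : 0 ≤ (1 + ‖z‖) / (1 - ‖z‖) := by
    apply div_nonneg
    · have := norm_nonneg z
      linarith
    · linarith
  have h5 := mass_nonneg (t k) (ht k)
  have h6 : ‖F (Finsupp.single 0 1 + t k) z‖ ≤
      Real.exp ((1 + ∑' k, mass (t k)) * ((1 + ρ) / (1 - ρ))) := by
    refine h1.trans (Real.exp_le_exp.2 ?_)
    exact mul_le_mul (by linarith) h3 h4 (by linarith)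
  rw [norm_mul, norm_mul]
  refine mul_le_mul_of_nonneg_left ?_ (norm_nonneg _)
  calc ‖F (Finsupp.single 0 1 + t k) z‖ * ‖h k z‖ ≤
      Real.exp ((1 + ∑' k, mass (t k)) * ((1 + ρ) / (1 - ρ))) * 1 :=
        mul_le_mul h6 (hb k z hz1) (norm_nonneg _) (Real.exp_nonneg _)
    _ = _ := mul_one _

theorem term_diff (t : ℕ → ℝ →₀ ℝ) (h : ℕ → ℂ → ℂ)
    (hh : ∀ k, DifferentiableOn ℂ (h k) (ball 0 1)) (c : ℕ → ℂ) (k : ℕ) :
    DifferentiableOn ℂ (fun z => c k * (F (Finsupp.single 0 1 + t k) z * h k z)) (ball 0 1) :=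
  ((F_diff (Finsupp.single 0 1 + t k)).mul (hh k)).const_mul (c k)

theorem XInN (t : ℕ → ℝ →₀ ℝ) (ht : ∀ k α, 0 ≤ t k α) (hm : Summable (fun k => mass (t k)))
    (h : ℕ → ℂ → ℂ)
    (hh : ∀ k, DifferentiableOn ℂ (h k) (ball 0 1)) (hb : ∀ k, ∀ z ∈ ball (0:ℂ) 1, ‖h k z‖ ≤ 1)
    (c : ℕ → ℂ) (hc : Summable (fun k => ‖c k‖)) :
    InN (fun z => ∑' k, c k * (F (Finsupp.single 0 1 + t k) z * h k z)) := by
  have hdiff : DifferentiableOn ℂ (fun z => ∑' k, c k * (F (Finsupp.single 0 1 + t k) z * h k z))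
      (ball 0 1) := by
    intro z₀ hz₀
    rw [mem_ball_zero_iff] at hz₀
    obtain ⟨ρ, h1, h2⟩ := exists_between hz₀
    have h3 : DifferentiableOn ℂ
        (fun z => ∑' k, c k * (F (Finsupp.single 0 1 + t k) z * h k z)) (ball 0 ρ) := by
      refine differentiableOn_tsum_of_summable_norm
        (F := fun k z => c k * (F (Finsupp.single 0 1 + t k) z * h k z))
        (hc.mul_right (Real.exp ((1 + ∑' k, mass (t k)) * ((1 + ρ) / (1 - ρ))))) ?_ isOpen_ball ?_
      · intro k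
        exact (term_diff t h hh c k).mono (ball_subset_ball h2.le)
      · intro k z hz
        rw [mem_ball_zero_iff] at hz
        exact term_le t ht hm h hb c ρ h2 k z hz.le
    exact (h3.differentiableAt (isOpen_ball.mem_nhds (mem_ball_zero_iff.2 h1))).differentiableWithinAt
  refine ⟨hdiff, Real.posLog (∑' k, ‖c k‖) + 1 + ∑' k, mass (t k), ?_⟩
  intro r hr hr1
  obtain ⟨M, hM⟩ : ∃ M : ℝ, M = Real.exp ((1 + ∑' k, mass (t k)) * ((1 + r) / (1 - r))) :=
    ⟨_, rfl⟩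
  have hterm : ∀ k z, ‖z‖ = r → ‖c k * (F (Finsupp.single 0 1 + t k) z * h k z)‖ ≤ ‖c k‖ * M := by
    intro k z hz
    rw [hM]
    exact term_le t ht hm h hb c r hr1 k z hz.le
  have hcM : Summable (fun k => ‖c k‖ * M) := hc.mul_right M
  have hδ : Tendsto (fun n => ∑' k, ‖c (k + n)‖ * M) atTop (𝓝 0) :=
    tendsto_sum_nat_add (fun k => ‖c k‖ * M)
  have hstep : ∀ n, T r (fun z => ∑' k, c k * (F (Finsupp.single 0 1 + t k) z * h k z)) ≤
      (Real.posLog (∑' k, ‖c k‖) + 1 + ∑' k, mass (t k)) + ∑' k, ‖c (k + n)‖ * M := by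
    intro n
    have h1 := XInN_partial t ht h hh hb c n r hr hr1
    have h2 : Real.posLog (∑ k ∈ Finset.range n, ‖c k‖) ≤ Real.posLog (∑' k, ‖c k‖) :=
      Real.posLog_le_posLog (Finset.sum_nonneg fun k _ => norm_nonneg _)
        (hc.sum_le_tsum _ fun k _ => norm_nonneg _)
    have h3 : ∑ k ∈ Finset.range n, mass (t k) ≤ ∑' k, mass (t k) :=
      hm.sum_le_tsum _ fun k _ => mass_nonneg (t k) (ht k)
    have h4 := T_dist r hr hr1 (fun z => ∑' k, c k * (F (Finsupp.single 0 1 + t k) z * h k z))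
      (fun z => ∑ k ∈ Finset.range n, c k * (F (Finsupp.single 0 1 + t k) z * h k z))
      hdiff.continuousOn
      (DifferentiableOn.fun_sum fun k _ => term_diff t h hh c k).continuousOn
      (∑' k, ‖c (k + n)‖ * M) (by
        intro z hz
        have hs : Summable (fun k => c k * (F (Finsupp.single 0 1 + t k) z * h k z)) :=
          Summable.of_norm_bounded hcM fun k => hterm k z hz
        rw [← hs.sum_add_tsum_nat_add n, add_sub_cancel_left]
        exact tsum_of_norm_bounded ((summable_nat_add_iff n).2 hcM).hasSum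
          fun k => hterm (k + n) z hz)
    have h5 := (abs_le.1 h4).2
    linarith
  have hlim := hδ.const_add (Real.posLog (∑' k, ‖c k‖) + 1 + ∑' k, mass (t k))
  rw [add_zero] at hlim
  exact ge_of_tendsto' hlim hstep

end N_XInN

alias XInN := N_XInN.XInN

end NMA
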