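import Pool.Agent.Helper694.NMA.Defs
import Pool.Agent.Helper694.NMA.J_T_nonneg
import Pool.Agent.Helper694.NMA.J_T_add_le
import Pool.Agent.Helper694.NMA.J_T_smul_le
import Pool.Agent.Helper694.NMA.J_T_dist
import Pool.Agent.Helper694.NMA.J_T_congr
set_option autoImplicit false

namespace NMA

open NM Complex Metric Set Filter Topology MeasureTheory


namespace N_baireT

noncomputable abbrev X1 := lp (fun _ : ℕ => ℂ) 1

theorem summ1 (c : X1) : Summable (fun k => ‖c k‖) := by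
  have h := (lp.memℓp c).summable (by norm_num)
  simpa using h

theorem nrm1 (c : X1) : HasSum (fun k => ‖c k‖) ‖c‖ := by
  have h := lp.hasSum_norm (p := 1) (by norm_num) c
  simpa using h

theorem summ2 (y : ℕ → ℂ → ℂ) (c : ℕ → ℂ) (hc : Summable (fun k => ‖c k‖)) (M : ℝ) (z : ℂ)
    (hM : ∀ k, ‖y k z‖ ≤ M) : Summable (fun k => c k * y k z) := by
  refine Summable.of_norm_bounded (g := fun k => ‖c k‖ * M) (hc.mul_right M) ?_
  intro k
  rw [norm_mul]
  exact mul_le_mul_of_nonneg_left (hM k) (norm_nonneg _)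

theorem cts1 (y : ℕ → ℂ → ℂ) (hy : ∀ k, ContinuousOn (y k) (ball 0 1))
    (hb : ∀ r : ℝ, 0 < r → r < 1 → ∃ M : ℝ, ∀ k, ∀ z : ℂ, ‖z‖ ≤ r → ‖y k z‖ ≤ M)
    (c : ℕ → ℂ) (hc : Summable (fun k => ‖c k‖)) :
    ContinuousOn (fun z => ∑' k, c k * y k z) (ball 0 1) := by
  intro z hz
  rw [mem_ball_zero_iff] at hz
  obtain ⟨r, hr⟩ : ∃ r : ℝ, r = (‖z‖ + 1) / 2 := ⟨_, rfl⟩
  have hzn := norm_nonneg z
  have hr0 : 0 < r := by rw [hr]; linarith
  have hr1 : r < 1 := by rw [hr]; linarith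
  have hzr : ‖z‖ < r := by rw [hr]; linarith
  obtain ⟨M, hM⟩ := hb r hr0 hr1
  have h1 : ContinuousOn (fun z => ∑' k, c k * y k z) (ball 0 r) := by
    refine continuousOn_tsum (u := fun k => ‖c k‖ * M) ?_ (hc.mul_right M) ?_
    · intro k
      exact continuousOn_const.mul ((hy k).mono (ball_subset_ball hr1.le))
    · intro k w hw
      rw [norm_mul]
      rw [mem_ball_zero_iff] at hw
      exact mul_le_mul_of_nonneg_left (hM k w hw.le) (norm_nonneg _)
  exact (h1.continuousAt (isOpen_ball.mem_nhds (mem_ball_zero_iff.2 hzr))).continuousWithinAt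

theorem baireT (y : ℕ → ℂ → ℂ) (hy : ∀ k, ContinuousOn (y k) (ball 0 1))
    (hb : ∀ r : ℝ, 0 < r → r < 1 → ∃ M : ℝ, ∀ k, ∀ z : ℂ, ‖z‖ ≤ r → ‖y k z‖ ≤ M)
    (h : ∀ c : ℕ → ℂ, Summable (fun k => ‖c k‖) →
      ∃ K : ℝ, ∀ r : ℝ, 0 < r → r < 1 → T r (fun z => ∑' k, c k * y k z) ≤ K) :
    ∃ K' : ℝ, ∀ k, ∀ r : ℝ, 0 < r → r < 1 → T r (y k) ≤ K' := by
  have hS : ∀ (c : X1), ∀ z ∈ ball (0 : ℂ) 1, Summable (fun k => c k * y k z) := by
    intro c z hz
    rw [mem_ball_zero_iff] at hz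
    obtain ⟨M, hM⟩ := hb ((‖z‖ + 1) / 2) (by have := norm_nonneg z; linarith) (by linarith)
    exact summ2 y c (summ1 c) M z (fun k => hM k z (by linarith))
  have hct : ∀ c : X1, ContinuousOn (fun z => ∑' k, c k * y k z) (ball 0 1) :=
    fun c => cts1 y hy hb c (summ1 c)
  have hlip : ∀ r : ℝ, 0 < r → r < 1 → Continuous (fun c : X1 => T r (fun z => ∑' k, c k * y k z)) := by
    intro r hr0 hr1
    obtain ⟨M, hM⟩ := hb r hr0 hr1
    have hM0 : 0 ≤ M := (norm_nonneg _).trans (hM 0 0 (by simpa using hr0.le))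
    have hL : LipschitzWith ⟨M, hM0⟩ (fun c : X1 => T r (fun z => ∑' k, c k * y k z)) := by
      apply LipschitzWith.of_dist_le_mul
      intro c c'
      rw [Real.dist_eq, dist_eq_norm]
      show _ ≤ M * ‖c - c'‖
      apply T_dist r hr0 hr1 _ _ (hct c) (hct c')
      intro z hz
      have hzb : z ∈ ball (0 : ℂ) 1 := by rw [mem_ball_zero_iff, hz]; exact hr1
      rw [← (hS c z hzb).tsum_sub (hS c' z hzb)]
      have h1 : ∀ k, c k * y k z - c' k * y k z = (c - c') k * y k z := by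
        intro k
        rw [lp.coeFn_sub, Pi.sub_apply]
        ring
      rw [tsum_congr h1]
      have h2 : HasSum (fun k => M * ‖(c - c') k‖) (M * ‖c - c'‖) := (nrm1 (c - c')).mul_left M
      refine tsum_of_norm_bounded h2 ?_
      intro k
      rw [norm_mul, mul_comm]
      exact mul_le_mul_of_nonneg_right (hM k z hz.le) (norm_nonneg _)
    exact hL.continuous
  obtain ⟨E, hE⟩ : ∃ E : ℕ → Set X1, E = fun (K : ℕ) => {c : X1 | ∀ r : ℝ, 0 < r → r < 1 →
      T r (fun z => ∑' k, c k * y k z) ≤ (K : ℝ)} := ⟨_, rfl⟩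
  have hEc : ∀ K, IsClosed (E K) := by
    intro K
    have : E K = ⋂ r : ℝ, ⋂ (_ : 0 < r), ⋂ (_ : r < 1),
        {c : X1 | T r (fun z => ∑' k, c k * y k z) ≤ (K : ℝ)} := by
      rw [hE]
      ext c
      simp only [Set.mem_iInter]
      rfl
    rw [this]
    refine isClosed_iInter fun r => isClosed_iInter fun h0 => isClosed_iInter fun h1 => ?_
    exact isClosed_le (hlip r h0 h1) continuous_const
  have hEU : ⋃ K, E K = univ := by
    rw [Set.eq_univ_iff_forall]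
    intro c
    obtain ⟨K, hK⟩ := h c (summ1 c)
    obtain ⟨n, hn⟩ := exists_nat_ge K
    rw [Set.mem_iUnion]
    refine ⟨n, ?_⟩
    rw [hE]
    intro r hr0 hr1
    exact (hK r hr0 hr1).trans hn
  obtain ⟨K, c0, hc0⟩ := nonempty_interior_of_iUnion_of_closed hEc hEU
  rw [mem_interior_iff_mem_nhds, Metric.mem_nhds_iff] at hc0
  obtain ⟨ε, hε, hεE⟩ := hc0
  refine ⟨Real.posLog ‖((ε / 2 : ℝ) : ℂ)⁻¹‖ + (2 * K + Real.log 2), ?_⟩
  intro k r hr0 hr1
  obtain ⟨c1, hc1⟩ : ∃ c1 : X1, c1 = c0 + lp.single 1 k ((ε / 2 : ℝ) : ℂ) := ⟨_, rfl⟩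
  have hc1E : c1 ∈ E K := by
    apply hεE
    rw [mem_ball, dist_eq_norm, hc1, add_sub_cancel_left, lp.norm_single (by norm_num),
      Complex.norm_real, Real.norm_eq_abs, abs_of_pos (by linarith)]
    linarith
  have hc0E : c0 ∈ E K := hεE (mem_ball_self hε)
  rw [hE] at hc1E hc0E
  have h1 := hc1E r hr0 hr1
  have h0 := hc0E r hr0 hr1
  have hε2 : ((ε / 2 : ℝ) : ℂ) ≠ 0 := by
    rw [Ne, Complex.ofReal_eq_zero]
    linarith
  have hkey : ∀ z ∈ ball (0 : ℂ) 1, ((ε / 2 : ℝ) : ℂ) * y k z =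
      (∑' k, c1 k * y k z) + (-1) * (∑' k, c0 k * y k z) := by
    intro z hz
    have e1 : (∑' k, c1 k * y k z) - (∑' k, c0 k * y k z) = ((ε / 2 : ℝ) : ℂ) * y k z := by
      rw [← (hS c1 z hz).tsum_sub (hS c0 z hz), tsum_eq_single k]
      · rw [hc1, lp.coeFn_add, Pi.add_apply, lp.single_apply_self]
        ring
      · intro k' hk'
        rw [hc1, lp.coeFn_add, Pi.add_apply, lp.single_apply_ne _ _ _ hk']
        ring
    rw [← e1]
    ring
  have hA : T r (fun z => ((ε / 2 : ℝ) : ℂ) * y k z) ≤ 2 * K + Real.log 2 := by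
    rw [T_congr r hr0 hr1 _ _ hkey]
    refine (T_add_le r hr0 hr1 (fun z => ∑' k, c1 k * y k z) (fun z => (-1) * ∑' k, c0 k * y k z)
      (hct c1) (continuousOn_const.mul (hct c0))).trans ?_
    have h2 := T_smul_le r hr0 hr1 (-1) _ (hct c0)
    rw [norm_neg, norm_one, Real.posLog_one] at h2
    linarith
  have hB : T r (y k) = T r (fun z => ((ε / 2 : ℝ) : ℂ)⁻¹ * (((ε / 2 : ℝ) : ℂ) * y k z)) := by
    apply T_congr r hr0 hr1
    intro z hz
    show y k z = ((ε / 2 : ℝ) : ℂ)⁻¹ * (((ε / 2 : ℝ) : ℂ) * y k z)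
    rw [inv_mul_cancel_left₀ hε2]
  rw [hB]
  refine (T_smul_le r hr0 hr1 _ (fun z => ((ε / 2 : ℝ) : ℂ) * y k z)
    (continuousOn_const.mul (hy k))).trans ?_
  linarith

end N_baireT

alias baireT := N_baireT.baireT

end NMA
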