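import Pool.Agent.Helper694.NMA.Defs
set_option autoImplicit false

namespace NMA

open NM Complex Metric Set Filter Topology MeasureTheory


namespace N_circle_approx

theorem span_poly (R : ℝ) (hR : 0 < R) (h : C(AddCircle (2 * Real.pi), ℂ))
    (hh : h ∈ Submodule.span ℂ (Set.range (@fourier (2 * Real.pi)))) :
    ∀ c : ℂ, ∃ p : Polynomial ℂ, ∀ θ : AddCircle (2 * Real.pi),
      (c * h θ).re = (p.eval ((R : ℂ) * (AddCircle.toCircle θ : ℂ))).re := by
  have hR0 : (R : ℂ) ≠ 0 := by exact_mod_cast hR.ne'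
  have hpos : ∀ (n : ℕ) (c : ℂ), ∃ p : Polynomial ℂ, ∀ θ : AddCircle (2 * Real.pi),
      (c * fourier (n : ℤ) θ).re = (p.eval ((R : ℂ) * (AddCircle.toCircle θ : ℂ))).re := by
    intro n c
    refine ⟨Polynomial.C (c / (R : ℂ) ^ n) * Polynomial.X ^ n, fun θ => ?_⟩
    rw [Polynomial.eval_mul, Polynomial.eval_C, Polynomial.eval_pow, Polynomial.eval_X,
      fourier_apply, AddCircle.toCircle_zsmul]
    congr 1
    rw [mul_pow]
    have hRn : (R : ℂ) ^ n ≠ 0 := pow_ne_zero _ hR0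
    rw [zpow_natCast, Circle.coe_pow, ← mul_assoc, div_mul_cancel₀ _ hRn]
  induction hh using Submodule.span_induction with
  | mem x hx =>
    obtain ⟨n, rfl⟩ := hx
    intro c
    rcases le_total 0 n with hn | hn
    · obtain ⟨m, rfl⟩ := Int.eq_ofNat_of_zero_le hn
      exact hpos m c
    · obtain ⟨m, hm⟩ := Int.eq_ofNat_of_zero_le (neg_nonneg.2 hn)
      obtain ⟨p, hp⟩ := hpos m ((starRingEnd ℂ) c)
      refine ⟨p, fun θ => ?_⟩
      rw [← hp θ]
      have h1 : n = -(m : ℤ) := by omega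
      rw [h1, fourier_neg]
      have h2 : c * (starRingEnd ℂ) (fourier (m : ℤ) θ) =
          (starRingEnd ℂ) ((starRingEnd ℂ) c * fourier (m : ℤ) θ) := by
        rw [map_mul, Complex.conj_conj]
      rw [h2, Complex.conj_re]
  | zero =>
    intro c
    exact ⟨0, fun θ => by simp⟩
  | add x y _ _ hx hy =>
    intro c
    obtain ⟨p, hp⟩ := hx c
    obtain ⟨q, hq⟩ := hy c
    refine ⟨p + q, fun θ => ?_⟩
    rw [Polynomial.eval_add, Complex.add_re, ← hp θ, ← hq θ, ContinuousMap.add_apply, mul_add,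
      Complex.add_re]
  | smul a x _ hx =>
    intro c
    obtain ⟨p, hp⟩ := hx (c * a)
    refine ⟨p, fun θ => ?_⟩
    rw [← hp θ, ContinuousMap.smul_apply, smul_eq_mul, mul_assoc]

theorem circle_approx (R : ℝ) (hR : 0 < R) (u : ℂ → ℝ) (hu : ContinuousOn u (sphere (0:ℂ) R)) (η : ℝ)
    (hη : 0 < η) :
    ∃ p : Polynomial ℂ, ∀ ζ ∈ sphere (0:ℂ) R, |u ζ - (p.eval ζ).re| ≤ η := by
  haveI : Fact (0 < 2 * Real.pi) := ⟨Real.two_pi_pos⟩
  have hmem : ∀ θ : AddCircle (2 * Real.pi),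
      (R : ℂ) * (AddCircle.toCircle θ : ℂ) ∈ sphere (0:ℂ) R := by
    intro θ
    rw [mem_sphere, dist_zero_right, norm_mul, Circle.norm_coe, mul_one, Complex.norm_real,
      Real.norm_of_nonneg hR.le]
  have hcont : Continuous (fun θ : AddCircle (2 * Real.pi) =>
      (R : ℂ) * (AddCircle.toCircle θ : ℂ)) :=
    continuous_const.mul (continuous_subtype_val.comp AddCircle.continuous_toCircle)
  obtain ⟨g, hg⟩ : ∃ g : C(AddCircle (2 * Real.pi), ℂ), ∀ θ, g θ =
      (u ((R : ℂ) * (AddCircle.toCircle θ : ℂ)) : ℂ) :=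
    ⟨⟨fun θ => (u ((R : ℂ) * (AddCircle.toCircle θ : ℂ)) : ℂ),
      Complex.continuous_ofReal.comp (hu.comp_continuous hcont hmem)⟩, fun θ => rfl⟩
  have hgc : g ∈ closure ((Submodule.span ℂ (Set.range (@fourier (2 * Real.pi))) :
      Submodule ℂ C(AddCircle (2 * Real.pi), ℂ)) : Set C(AddCircle (2 * Real.pi), ℂ)) := by
    have h1 := @span_fourier_closure_eq_top (2 * Real.pi) _
    have h2 : g ∈ (Submodule.span ℂ (Set.range (@fourier (2 * Real.pi)))).topologicalClosure := by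
      rw [h1]; exact Submodule.mem_top
    exact h2
  obtain ⟨h, hh, hgh⟩ := Metric.mem_closure_iff.1 hgc η hη
  obtain ⟨p, hp⟩ := span_poly R hR h hh 1
  refine ⟨p, fun ζ hζ => ?_⟩
  rw [mem_sphere, dist_zero_right] at hζ
  obtain ⟨θ, hθ⟩ : ∃ θ : AddCircle (2 * Real.pi), (R : ℂ) * (AddCircle.toCircle θ : ℂ) = ζ := by
    refine ⟨(Complex.arg ζ : ℝ), ?_⟩
    rw [AddCircle.toCircle_apply_mk, Circle.coe_exp]
    have h1 : (2 * Real.pi / (2 * Real.pi) * Complex.arg ζ : ℝ) = Complex.arg ζ := by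
      rw [div_self (by positivity), one_mul]
    rw [h1]
    have h2 := Complex.norm_mul_exp_arg_mul_I ζ
    rw [hζ] at h2
    exact h2
  have h3 := hp θ
  rw [hθ, one_mul] at h3
  have h4 := hg θ
  rw [hθ] at h4
  have h5 : u ζ = (g θ).re := by rw [h4, Complex.ofReal_re]
  rw [h5, ← h3, ← Complex.sub_re]
  calc |(g θ - h θ).re| ≤ ‖g θ - h θ‖ := Complex.abs_re_le_norm _
    _ = dist (g θ) (h θ) := (dist_eq_norm _ _).symm
    _ ≤ dist g h := ContinuousMap.dist_apply_le_dist θ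
    _ ≤ η := hgh.le

end N_circle_approx

alias circle_approx := N_circle_approx.circle_approx

end NMA
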