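import Pool.Agent.Helper694.NMA.Defs
set_option autoImplicit false

namespace NMA

open NM Complex Metric Set Filter Topology MeasureTheory


namespace N_poisson_poly

theorem poisson_poly (R : ℝ) (hR : 0 < R) (z : ℂ) (hz : ‖z‖ < R) (p : Polynomial ℂ) :
    (2 * Real.pi)⁻¹ * ∫ θ in (0:ℝ)..(2 * Real.pi),
      (R ^ 2 - ‖z‖ ^ 2) / ‖(R : ℂ) * Complex.exp ((θ : ℂ) * Complex.I) - z‖ ^ 2 *
        (p.eval ((R : ℂ) * Complex.exp ((θ : ℂ) * Complex.I))).re = (p.eval z).re := by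
  have hd : Differentiable ℂ (fun w : ℂ => p.eval w) := p.differentiable
  have hf : DiffContOnCl ℂ (fun w : ℂ => p.eval w) (ball 0 R) := hd.diffContOnCl
  have hz' : z ∈ ball (0:ℂ) R := by simpa using hz
  have h1 := hf.circleAverage_poissonKernel_smul' hz'
  rw [Real.circleAverage_def] at h1
  have hcm : ∀ θ : ℝ, circleMap 0 R θ = (R : ℂ) * Complex.exp ((θ : ℂ) * Complex.I) := by
    intro θ; simp [circleMap]
  have hnorm : ∀ θ : ℝ, ‖circleMap 0 R θ‖ = R := by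
    intro θ; rw [hcm]; simp [abs_of_pos hR]
  have hne : ∀ θ : ℝ, ‖circleMap 0 R θ - z‖ ^ 2 ≠ 0 := by
    intro θ h0
    have h2 : circleMap 0 R θ - z = 0 := by
      rw [← norm_eq_zero]; exact pow_eq_zero_iff two_ne_zero |>.1 h0
    have h3 : ‖circleMap 0 R θ‖ = ‖z‖ := by rw [sub_eq_zero.1 h2]
    rw [hnorm] at h3; linarith
  have hcont : Continuous (fun θ : ℝ => ((R ^ 2 - ‖z‖ ^ 2) / ‖circleMap 0 R θ - z‖ ^ 2) •
      p.eval (circleMap 0 R θ)) := by
    refine Continuous.smul (f := fun θ : ℝ => (R ^ 2 - ‖z‖ ^ 2) / ‖circleMap 0 R θ - z‖ ^ 2) ?_ ?_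
    · refine Continuous.div continuous_const ?_ hne
      exact (((continuous_circleMap 0 R).sub continuous_const).norm).pow 2
    · exact hd.continuous.comp (continuous_circleMap 0 R)
  have h4 : (∫ θ in (0:ℝ)..(2 * Real.pi), ((R ^ 2 - ‖z‖ ^ 2) / ‖circleMap 0 R θ - z‖ ^ 2) •
      p.eval (circleMap 0 R θ)).re = ∫ θ in (0:ℝ)..(2 * Real.pi),
      (((R ^ 2 - ‖z‖ ^ 2) / ‖circleMap 0 R θ - z‖ ^ 2) • p.eval (circleMap 0 R θ)).re := by
    have := Complex.reCLM.intervalIntegral_comp_comm (hcont.intervalIntegrable (μ := volume) 0 (2 * Real.pi))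
    exact this.symm
  have h5 : ((2 * Real.pi)⁻¹ • ∫ θ in (0:ℝ)..(2 * Real.pi), ((R ^ 2 - ‖z‖ ^ 2) / ‖circleMap 0 R θ - z‖ ^ 2) •
      p.eval (circleMap 0 R θ)) = p.eval z := by
    rw [← h1]
    congr 1
    apply intervalIntegral.integral_congr
    intro θ _
    simp only [sub_zero, hnorm]
  rw [← h5, Complex.smul_re, smul_eq_mul, h4]
  congr 1
  apply intervalIntegral.integral_congr
  intro θ _
  simp only [hcm, Complex.smul_re, smul_eq_mul]

end N_poisson_poly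

alias poisson_poly := N_poisson_poly.poisson_poly

end NMA
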