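import Pool.Agent.Helper694.NMA.Defs
import Pool.Agent.Helper694.NMA.J_circle_approx
import Pool.Agent.Helper694.NMA.J_poisson_poly
set_option autoImplicit false

namespace NMA

open NM Complex Metric Set Filter Topology MeasureTheory


namespace N_poisson_ineq

theorem le_exp_posLog (x : ℝ) (hx : 0 ≤ x) : x ≤ Real.exp (Real.posLog x) := by
  rcases eq_or_lt_of_le hx with h | h
  · rw [← h]
    exact (Real.exp_pos _).le
  · calc
      x = Real.exp (Real.log x) := (Real.exp_log h).symm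
      _ ≤ _ := Real.exp_le_exp.2 (by rw [Real.posLog_apply]; exact le_max_right _ _)

theorem poisson_ineq (f : ℂ → ℂ) (hf : DifferentiableOn ℂ f (ball 0 1)) (R : ℝ) (hR : 0 < R)
    (hR1 : R < 1) (z : ℂ) (hz : ‖z‖ < R) :
    ‖f z‖ ≤ Real.exp ((2 * Real.pi)⁻¹ * ∫ θ in (0:ℝ)..(2 * Real.pi),
      (R ^ 2 - ‖z‖ ^ 2) / ‖(R : ℂ) * Complex.exp ((θ : ℂ) * Complex.I) - z‖ ^ 2 *
        Real.posLog ‖f ((R : ℂ) * Complex.exp ((θ : ℂ) * Complex.I))‖) := by
  obtain ⟨e, he⟩ : ∃ e : ℝ → ℂ, e = fun θ : ℝ => (R : ℂ) * Complex.exp ((θ : ℂ) * Complex.I) :=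
    ⟨_, rfl⟩
  have he' : ∀ θ : ℝ, (R : ℂ) * Complex.exp ((θ : ℂ) * Complex.I) = e θ := fun θ => by rw [he]
  have hec : Continuous e := by
    rw [he]
    fun_prop
  have hnorm : ∀ θ, ‖e θ‖ = R := by
    intro θ
    rw [he]
    change ‖(R : ℂ) * Complex.exp ((θ : ℂ) * Complex.I)‖ = R
    rw [norm_mul, Complex.norm_exp_ofReal_mul_I, mul_one, Complex.norm_real, Real.norm_eq_abs,
      abs_of_pos hR]
  have hsph : ∀ θ, e θ ∈ sphere (0:ℂ) R := fun θ => by
    rw [mem_sphere_zero_iff_norm]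
    exact hnorm θ
  simp only [he']
  obtain ⟨P, hP⟩ : ∃ P : ℝ → ℝ, P = fun θ => (R ^ 2 - ‖z‖ ^ 2) / ‖e θ - z‖ ^ 2 := ⟨_, rfl⟩
  have hP' : ∀ θ, (R ^ 2 - ‖z‖ ^ 2) / ‖e θ - z‖ ^ 2 = P θ := fun θ => by rw [hP]
  have hne : ∀ θ, 0 < ‖e θ - z‖ := by
    intro θ
    have := norm_sub_norm_le (e θ) z
    rw [hnorm] at this
    linarith
  have hnum : 0 < R ^ 2 - ‖z‖ ^ 2 := by
    have := norm_nonneg z
    nlinarith
  have hPc : Continuous P := by
    rw [hP]
    refine Continuous.div continuous_const ((hec.sub continuous_const).norm.pow 2) fun θ => ?_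
    exact (pow_pos (hne θ) 2).ne'
  have hP0 : ∀ θ, 0 ≤ P θ := by
    intro θ
    rw [hP]
    exact div_nonneg hnum.le (sq_nonneg _)
  simp only [hP']
  have hsub : sphere (0:ℂ) R ⊆ ball (0:ℂ) 1 := by
    intro x hx
    rw [mem_sphere_zero_iff_norm] at hx
    rw [mem_ball_zero_iff, hx]
    exact hR1
  obtain ⟨u, hu⟩ : ∃ u : ℂ → ℝ, u = fun ζ => Real.posLog ‖f ζ‖ := ⟨_, rfl⟩
  have hu' : ∀ ζ, Real.posLog ‖f ζ‖ = u ζ := fun ζ => by rw [hu]
  have huc : ContinuousOn u (sphere (0:ℂ) R) := by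
    rw [hu]
    exact Real.continuous_posLog.comp_continuousOn (hf.continuousOn.mono hsub).norm
  simp only [hu']
  have huec : Continuous fun θ => u (e θ) := huc.comp_continuous hec hsph
  obtain ⟨I, hI⟩ : ∃ I : ℝ, I = (2 * Real.pi)⁻¹ * ∫ θ in (0:ℝ)..(2 * Real.pi), P θ * u (e θ) :=
    ⟨_, rfl⟩
  rw [← hI]
  have hpi : 0 < 2 * Real.pi := by positivity
  have hone : (2 * Real.pi)⁻¹ * ∫ θ in (0:ℝ)..(2 * Real.pi), P θ = 1 := by
    have h1 := poisson_poly R hR z hz 1
    simp only [he', hP', Polynomial.eval_one, Complex.one_re, mul_one] at h1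
    exact h1
  -- the main estimate
  have hmain : ∀ η : ℝ, 0 < η → ‖f z‖ ≤ Real.exp (I + 2 * η) := by
    intro η hη
    obtain ⟨p, hp⟩ := circle_approx R hR (fun ζ => u ζ + η) (huc.add continuousOn_const) η hη
    have hp1 : ∀ ζ ∈ sphere (0:ℂ) R, u ζ ≤ (p.eval ζ).re ∧ (p.eval ζ).re ≤ u ζ + 2 * η := by
      intro ζ hζ
      have := abs_le.1 (hp ζ hζ)
      constructor <;> linarith [this.1, this.2]
    have hcb : closedBall (0:ℂ) R ⊆ ball (0:ℂ) 1 := closedBall_subset_ball hR1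
    have hdiff : DifferentiableOn ℂ (fun ζ => f ζ * Complex.exp (-(p.eval ζ))) (ball 0 1) :=
      hf.mul (p.differentiable.neg.cexp.differentiableOn)
    have hmax : ‖f z * Complex.exp (-(p.eval z))‖ ≤ 1 := by
      refine Complex.norm_le_of_forall_mem_frontier_norm_le (U := ball (0:ℂ) R) isBounded_ball
        (hdiff.diffContOnCl_ball hcb) (C := 1) ?_ (subset_closure (by simpa using hz))
      intro ζ hζ
      rw [frontier_ball _ hR.ne'] at hζ
      rw [norm_mul, Complex.norm_exp, Complex.neg_re]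
      have h1 : ‖f ζ‖ ≤ Real.exp (p.eval ζ).re := by
        refine (le_exp_posLog _ (norm_nonneg _)).trans (Real.exp_le_exp.2 ?_)
        rw [hu']
        exact (hp1 ζ hζ).1
      calc
        _ ≤ Real.exp (p.eval ζ).re * Real.exp (-(p.eval ζ).re) :=
          mul_le_mul_of_nonneg_right h1 (Real.exp_pos _).le
        _ = 1 := by rw [← Real.exp_add, add_neg_cancel, Real.exp_zero]
    rw [norm_mul, Complex.norm_exp, Complex.neg_re] at hmax
    have h2 : ‖f z‖ ≤ Real.exp (p.eval z).re := by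
      calc
        ‖f z‖ = ‖f z‖ * Real.exp (-(p.eval z).re) * Real.exp (p.eval z).re := by
          rw [mul_assoc, ← Real.exp_add, neg_add_cancel, Real.exp_zero, mul_one]
        _ ≤ 1 * Real.exp (p.eval z).re := mul_le_mul_of_nonneg_right hmax (Real.exp_pos _).le
        _ = _ := one_mul _
    refine h2.trans (Real.exp_le_exp.2 ?_)
    have h3 := poisson_poly R hR z hz p
    simp only [he', hP'] at h3
    rw [← h3]
    have hpc : Continuous fun θ => (p.eval (e θ)).re :=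
      Complex.continuous_re.comp (p.continuous.comp hec)
    have h4 : ∫ θ in (0:ℝ)..(2 * Real.pi), P θ * (p.eval (e θ)).re ≤
        ∫ θ in (0:ℝ)..(2 * Real.pi), (P θ * u (e θ) + P θ * (2 * η)) := by
      refine intervalIntegral.integral_mono_on hpi.le
        ((hPc.mul hpc).intervalIntegrable _ _)
        (((hPc.mul huec).add (hPc.mul continuous_const)).intervalIntegrable _ _) ?_
      intro θ _
      rw [← mul_add]
      exact mul_le_mul_of_nonneg_left (hp1 _ (hsph θ)).2 (hP0 θ)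
    have i1 : IntervalIntegrable (fun θ => P θ * u (e θ)) volume 0 (2 * Real.pi) :=
      (hPc.mul huec).intervalIntegrable _ _
    have i2 : IntervalIntegrable (fun θ => P θ * (2 * η)) volume 0 (2 * Real.pi) :=
      (hPc.mul continuous_const).intervalIntegrable _ _
    rw [intervalIntegral.integral_add i1 i2, intervalIntegral.integral_mul_const] at h4
    calc
      _ ≤ (2 * Real.pi)⁻¹ * ((∫ θ in (0:ℝ)..(2 * Real.pi), P θ * u (e θ)) +
          (∫ θ in (0:ℝ)..(2 * Real.pi), P θ) * (2 * η)) :=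
        mul_le_mul_of_nonneg_left h4 (by positivity)
      _ = I + ((2 * Real.pi)⁻¹ * ∫ θ in (0:ℝ)..(2 * Real.pi), P θ) * (2 * η) := by
        rw [hI]
        ring
      _ = _ := by rw [hone, one_mul]
  rcases eq_or_lt_of_le (norm_nonneg (f z)) with h0 | h0
  · rw [← h0]
    exact (Real.exp_pos _).le
  · rw [← Real.log_le_iff_le_exp h0]
    refine le_of_forall_pos_le_add fun ε hε => ?_
    have := hmain (ε / 2) (by positivity)
    rw [← Real.log_le_iff_le_exp h0] at this
    linarith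

end N_poisson_ineq

alias poisson_ineq := N_poisson_ineq.poisson_ineq

end NMA
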