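import Pool.Agent.Helper694.NMA.Defs
import Pool.Agent.Helper694.NMA.J_T_nonneg
import Pool.Agent.Helper694.NMA.J_poisson_ineq
set_option autoImplicit false

namespace NMA

open NM Complex Metric Set Filter Topology MeasureTheory


namespace N_growth

theorem growth (f : ℂ → ℂ) (hf : InN f) :
    ∃ K : ℝ, 0 ≤ K ∧ ∀ z ∈ ball (0:ℂ) 1, ‖f z‖ ≤ Real.exp (K / (1 - ‖z‖)) := by
  obtain ⟨hd, K, hK⟩ := hf
  have hK0 : 0 ≤ K := le_trans (T_nonneg (1/2) f) (hK (1/2) (by norm_num) (by norm_num))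
  refine ⟨4 * K, by positivity, ?_⟩
  intro z hz
  have hz1 : ‖z‖ < 1 := by simpa using hz
  have hz0 : 0 ≤ ‖z‖ := norm_nonneg z
  set R : ℝ := (1 + ‖z‖) / 2 with hRdef
  have hR0 : 0 < R := by rw [hRdef]; linarith
  have hR1 : R < 1 := by rw [hRdef]; linarith
  have hzR : ‖z‖ < R := by rw [hRdef]; linarith
  refine (poisson_ineq f hd R hR0 hR1 z hzR).trans ?_
  apply Real.exp_le_exp.mpr
  have hpi := Real.pi_pos
  have hcont : Continuous (fun θ : ℝ => Real.posLog ‖f ((R : ℂ) * Complex.exp ((θ : ℂ) * Complex.I))‖) := by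
    have h1 : Continuous (fun θ : ℝ => f ((R : ℂ) * Complex.exp ((θ : ℂ) * Complex.I))) := by
      apply hd.continuousOn.comp_continuous (by fun_prop)
      intro θ
      simp only [mem_ball, dist_zero_right, norm_mul, Complex.norm_real, Real.norm_eq_abs,
        Complex.norm_exp_ofReal_mul_I, mul_one]
      rw [abs_of_pos hR0]; exact hR1
    exact Real.continuous_posLog.comp h1.norm
  have hdiff : 0 < R - ‖z‖ := by linarith
  have hker : ∀ θ : ℝ, (R ^ 2 - ‖z‖ ^ 2) / ‖(R : ℂ) * Complex.exp ((θ : ℂ) * Complex.I) - z‖ ^ 2 ≤ 4 / (1 - ‖z‖) := by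
    intro θ
    have hn : R - ‖z‖ ≤ ‖(R : ℂ) * Complex.exp ((θ : ℂ) * Complex.I) - z‖ := by
      have := norm_sub_norm_le ((R : ℂ) * Complex.exp ((θ : ℂ) * Complex.I)) z
      simp only [norm_mul, Complex.norm_real, Real.norm_eq_abs,
        Complex.norm_exp_ofReal_mul_I, mul_one] at this
      rw [abs_of_pos hR0] at this; exact this
    have hsq : (R - ‖z‖) ^ 2 ≤ ‖(R : ℂ) * Complex.exp ((θ : ℂ) * Complex.I) - z‖ ^ 2 :=
      pow_le_pow_left₀ hdiff.le hn 2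
    calc (R ^ 2 - ‖z‖ ^ 2) / ‖(R : ℂ) * Complex.exp ((θ : ℂ) * Complex.I) - z‖ ^ 2
        ≤ (R ^ 2 - ‖z‖ ^ 2) / (R - ‖z‖) ^ 2 := by
          apply div_le_div_of_nonneg_left _ (by positivity) hsq
          nlinarith
      _ ≤ 4 / (1 - ‖z‖) := by
          rw [div_le_div_iff₀ (by positivity) (by linarith)]
          have e : R - ‖z‖ = (1 - ‖z‖) / 2 := by rw [hRdef]; ring
          have e2 : R ^ 2 - ‖z‖ ^ 2 = (R - ‖z‖) * (R + ‖z‖) := by ring
          rw [e2, e]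
          have : R + ‖z‖ ≤ 2 := by linarith
          nlinarith [sq_nonneg (1 - ‖z‖)]
  have hcker : Continuous (fun θ : ℝ => (R ^ 2 - ‖z‖ ^ 2) / ‖(R : ℂ) * Complex.exp ((θ : ℂ) * Complex.I) - z‖ ^ 2) := by
    apply Continuous.div (by fun_prop) (by fun_prop)
    intro θ
    have hn : R - ‖z‖ ≤ ‖(R : ℂ) * Complex.exp ((θ : ℂ) * Complex.I) - z‖ := by
      have := norm_sub_norm_le ((R : ℂ) * Complex.exp ((θ : ℂ) * Complex.I)) z
      simp only [norm_mul, Complex.norm_real, Real.norm_eq_abs,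
        Complex.norm_exp_ofReal_mul_I, mul_one] at this
      rw [abs_of_pos hR0] at this; exact this
    have : 0 < ‖(R : ℂ) * Complex.exp ((θ : ℂ) * Complex.I) - z‖ := lt_of_lt_of_le hdiff hn
    positivity
  have hT := hK R hR0 hR1
  unfold T at hT
  have hint : ∫ θ in (0:ℝ)..(2 * Real.pi),
      (R ^ 2 - ‖z‖ ^ 2) / ‖(R : ℂ) * Complex.exp ((θ : ℂ) * Complex.I) - z‖ ^ 2 *
        Real.posLog ‖f ((R : ℂ) * Complex.exp ((θ : ℂ) * Complex.I))‖ ≤
      ∫ θ in (0:ℝ)..(2 * Real.pi), 4 / (1 - ‖z‖) *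
        Real.posLog ‖f ((R : ℂ) * Complex.exp ((θ : ℂ) * Complex.I))‖ := by
    apply intervalIntegral.integral_mono_on (by positivity)
    · exact (hcker.mul hcont).intervalIntegrable _ _
    · exact (continuous_const.mul hcont).intervalIntegrable _ _
    · intro θ _
      exact mul_le_mul_of_nonneg_right (hker θ) Real.posLog_nonneg
  rw [intervalIntegral.integral_const_mul] at hint
  have h1z : 0 < 1 - ‖z‖ := by linarith
  calc (2 * Real.pi)⁻¹ * ∫ θ in (0:ℝ)..(2 * Real.pi),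
      (R ^ 2 - ‖z‖ ^ 2) / ‖(R : ℂ) * Complex.exp ((θ : ℂ) * Complex.I) - z‖ ^ 2 *
        Real.posLog ‖f ((R : ℂ) * Complex.exp ((θ : ℂ) * Complex.I))‖
      ≤ (2 * Real.pi)⁻¹ * (4 / (1 - ‖z‖) * ∫ θ in (0:ℝ)..(2 * Real.pi),
        Real.posLog ‖f ((R : ℂ) * Complex.exp ((θ : ℂ) * Complex.I))‖) :=
        mul_le_mul_of_nonneg_left hint (by positivity)
    _ = 4 / (1 - ‖z‖) * ((2 * Real.pi)⁻¹ * ∫ θ in (0:ℝ)..(2 * Real.pi),
        Real.posLog ‖f ((R : ℂ) * Complex.exp ((θ : ℂ) * Complex.I))‖) := by ring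
    _ ≤ 4 / (1 - ‖z‖) * K := mul_le_mul_of_nonneg_left hT (by positivity)
    _ = 4 * K / (1 - ‖z‖) := by ring

end N_growth

alias growth := N_growth.growth

end NMA
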