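import Pool.Agent.Helper694.NMA.Defs
import Pool.Agent.Helper694.NMA.J_growth
set_option autoImplicit false

namespace NMA

open NM Complex Metric Set Filter Topology MeasureTheory


namespace N_coef_growth

theorem a_eq (f : ℂ → ℂ) (a : ℕ → ℂ)
    (ha : ∀ z ∈ ball (0:ℂ) 1, HasSum (fun n => a n * z ^ n) (f z)) (n : ℕ) :
    iteratedDeriv n f 0 = (n.factorial : ℂ) * a n := by
  have h1 : HasFPowerSeriesAt f (FormalMultilinearSeries.ofScalars ℂ a) 0 := by
    rw [hasFPowerSeriesAt_iff]
    filter_upwards [Metric.ball_mem_nhds (0:ℂ) one_pos] with z hz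
    have := ha z hz
    simpa [FormalMultilinearSeries.coeff_ofScalars, mul_comm] using this
  obtain ⟨r, hr⟩ := h1
  have h2 := hr.factorial_smul (1:ℂ) n
  rw [iteratedDeriv_eq_iteratedFDeriv, ← h2]
  have h3 : (FormalMultilinearSeries.ofScalars ℂ a n fun _ => (1:ℂ)) = a n := by
    have : (FormalMultilinearSeries.ofScalars ℂ a).coeff n = a n :=
      FormalMultilinearSeries.coeff_ofScalars
    rw [← this]; rfl
  rw [h3, nsmul_eq_mul]

theorem coef_growth (f : ℂ → ℂ) (hf : InN f) (a : ℕ → ℂ)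
    (ha : ∀ z ∈ ball (0:ℂ) 1, HasSum (fun n => a n * z ^ n) (f z)) :
    ∃ C c : ℝ, 0 ≤ C ∧ 0 ≤ c ∧ ∀ n : ℕ, ‖a n‖ ≤ C * Real.exp (c * Real.sqrt n) := by
  obtain ⟨K, hK, hg⟩ := growth f hf
  refine ⟨Real.exp (2 * K), 2 * K + 1, (Real.exp_pos _).le, by positivity, fun n => ?_⟩
  set s : ℝ := Real.sqrt ((n:ℝ) + 1) with hs
  have hs1 : 1 ≤ s := by
    rw [hs]; exact Real.one_le_sqrt.2 (by linarith [n.cast_nonneg (α := ℝ)])
  have hs0 : 0 < s := by linarith
  have hss : s * s = n + 1 := Real.mul_self_sqrt (by positivity)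
  set q : ℝ := Real.sqrt (n:ℝ) with hq
  have hq0 : 0 ≤ q := Real.sqrt_nonneg _
  have hqq : q * q = n := Real.mul_self_sqrt (by positivity)
  have hsq : s ≤ q + 1 := by nlinarith
  have hqs : q ≤ s := Real.sqrt_le_sqrt (by linarith)
  set R : ℝ := 1 - 1 / (2 * s) with hR
  have hR2 : 1 / (2 * s) ≤ 1 / 2 := by
    apply one_div_le_one_div_of_le <;> linarith
  have hRpos : 0 < 1 / (2 * s) := by positivity
  have hRh : 1 / 2 ≤ R := by rw [hR]; linarith
  have hR1 : R < 1 := by rw [hR]; linarith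
  have hR0 : 0 < R := by linarith
  have hcl : closedBall (0:ℂ) R ⊆ ball 0 1 := closedBall_subset_ball hR1
  have hd : DiffContOnCl ℂ f (ball 0 R) := by
    apply DifferentiableOn.diffContOnCl
    rw [closure_ball _ hR0.ne']
    exact hf.1.mono hcl
  have h1 := Complex.norm_iteratedDeriv_le_of_forall_mem_sphere_norm_le (c := 0)
    (C := Real.exp (K / (1 - R))) n hR0 hd (by
      intro z hz
      have hz' : ‖z‖ = R := by simpa using hz
      have := hg z (by simpa [hz'] using hR1)
      rwa [hz'] at this)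
  rw [a_eq f a ha n, norm_mul, Complex.norm_natCast] at h1
  have hfac : (0:ℝ) < n.factorial := by exact_mod_cast n.factorial_pos
  have h2 : ‖a n‖ ≤ Real.exp (K / (1 - R)) / R ^ n := by
    rw [mul_div_assoc] at h1
    exact le_of_mul_le_mul_left h1 hfac
  have h3 : K / (1 - R) = 2 * K * s := by
    rw [hR]; field_simp; ring
  have h4 : 1 / R ≤ Real.exp (1 / s) := by
    have h5 : 1 / R ≤ 1 + 1 / s := by
      rw [div_le_iff₀ hR0, hR]
      have e : (1 + 1 / s) * (1 - 1 / (2 * s)) = 1 + (1 / (2 * s)) * (1 - 1 / s) := by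
        field_simp; ring
      rw [e]
      have : 1 / s ≤ 1 := by rw [div_le_one hs0]; exact hs1
      nlinarith
    have := Real.add_one_le_exp (1 / s)
    linarith
  have h5 : 1 / R ^ n ≤ Real.exp q := by
    have : 1 / R ^ n = (1 / R) ^ n := by rw [one_div_pow]
    rw [this]
    refine (pow_le_pow_left₀ (by positivity) h4 n).trans ?_
    rw [← Real.exp_nat_mul]
    apply Real.exp_le_exp.2
    rw [mul_one_div, div_le_iff₀ hs0, ← hqq]
    exact mul_le_mul_of_nonneg_left hqs hq0
  calc ‖a n‖ ≤ Real.exp (K / (1 - R)) / R ^ n := h2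
    _ = Real.exp (2 * K * s) * (1 / R ^ n) := by rw [h3]; ring
    _ ≤ Real.exp (2 * K * (q + 1)) * Real.exp q := by
        apply mul_le_mul _ h5 (by positivity) (by positivity)
        exact Real.exp_le_exp.2 (mul_le_mul_of_nonneg_left hsq (by positivity))
    _ = Real.exp (2 * K) * Real.exp ((2 * K + 1) * q) := by
        rw [← Real.exp_add, ← Real.exp_add]; ring_nf

end N_coef_growth

alias coef_growth := N_coef_growth.coef_growth

end NMA
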