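import Pool.Agent.Helper694.NMA.Defs
set_option autoImplicit false

namespace NMA

open NM Complex Metric Set Filter Topology MeasureTheory


namespace N_kernel_unif

theorem kernel_unif (z : ℂ) (hz : z ∈ ball (0:ℂ) 1) (R : ℕ → ℝ) (hR : ∀ k, 0 < R k ∧ R k < 1)
    (hR1 : Tendsto R atTop (𝓝 1)) (δ : ℝ) (hδ : 0 < δ) :
    ∀ᶠ k in atTop, ∀ θ : ℝ,
      |((R k) ^ 2 - ‖z‖ ^ 2) / ‖((R k : ℝ) : ℂ) * Complex.exp ((θ : ℂ) * Complex.I) - z‖ ^ 2 -
        (1 - ‖z‖ ^ 2) / ‖Complex.exp ((θ : ℂ) * Complex.I) - z‖ ^ 2| ≤ δ := by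
  have hz1 : ‖z‖ < 1 := by simpa using hz
  obtain ⟨R₀, hR₀1, hR₀2⟩ := exists_between hz1
  set K : Set (ℝ × ℂ) := Icc R₀ 1 ×ˢ sphere (0:ℂ) 1 with hK
  have hKc : IsCompact K := isCompact_Icc.prod (isCompact_sphere _ _)
  have hne : ∀ p ∈ K, ‖((p.1 : ℝ) : ℂ) * p.2 - z‖ ^ 2 ≠ 0 := by
    rintro ⟨r, w⟩ ⟨hr, hw⟩
    have hw1 : ‖w‖ = 1 := by simpa using hw
    have hr0 : 0 < r := lt_of_lt_of_le (lt_of_le_of_lt (norm_nonneg z) hR₀1) hr.1
    have h1 : ‖z‖ < ‖((r : ℝ) : ℂ) * w‖ := by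
      rw [norm_mul, hw1, mul_one, Complex.norm_real, Real.norm_eq_abs, abs_of_pos hr0]
      exact lt_of_lt_of_le hR₀1 hr.1
    have h2 : 0 < ‖((r : ℝ) : ℂ) * w - z‖ :=
      lt_of_lt_of_le (sub_pos.2 h1) (norm_sub_norm_le _ _)
    positivity
  have hcont : ContinuousOn
      (fun p : ℝ × ℂ => (p.1 ^ 2 - ‖z‖ ^ 2) / ‖((p.1 : ℝ) : ℂ) * p.2 - z‖ ^ 2) K := by
    refine ContinuousOn.div ?_ ?_ hne
    · exact (Continuous.continuousOn (by fun_prop))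
    · refine Continuous.continuousOn ?_
      have : Continuous fun p : ℝ × ℂ => ((p.1 : ℝ) : ℂ) * p.2 - z :=
        ((Complex.continuous_ofReal.comp continuous_fst).mul continuous_snd).sub continuous_const
      exact this.norm.pow 2
  have huc := hKc.uniformContinuousOn_of_continuous hcont
  rw [Metric.uniformContinuousOn_iff] at huc
  obtain ⟨ε, hε, hu⟩ := huc δ hδ
  have h1 : ∀ᶠ k in atTop, R₀ < R k := hR1.eventually (lt_mem_nhds hR₀2)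
  have h2 : ∀ᶠ k in atTop, dist (R k) 1 < ε := by
    exact hR1.eventually (Metric.ball_mem_nhds _ hε)
  filter_upwards [h1, h2] with k hk1 hk2 θ
  have hw : Complex.exp ((θ : ℂ) * Complex.I) ∈ sphere (0:ℂ) 1 := by
    rw [mem_sphere_zero_iff_norm, Complex.norm_exp_ofReal_mul_I]
  have ha : (R k, Complex.exp ((θ : ℂ) * Complex.I)) ∈ K := ⟨⟨hk1.le, (hR k).2.le⟩, hw⟩
  have hb : ((1 : ℝ), Complex.exp ((θ : ℂ) * Complex.I)) ∈ K := ⟨⟨hR₀2.le, le_refl _⟩, hw⟩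
  have hd : dist (R k, Complex.exp ((θ : ℂ) * Complex.I))
      ((1 : ℝ), Complex.exp ((θ : ℂ) * Complex.I)) < ε := by
    rw [Prod.dist_eq]
    simp only [dist_self]
    exact max_lt hk2 hε
  have h3 := (hu _ ha _ hb hd).le
  rw [Real.dist_eq] at h3
  simpa using h3

end N_kernel_unif

alias kernel_unif := N_kernel_unif.kernel_unif

end NMA
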