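import Pool.Agent.Helper694.NMA.Defs
import Pool.Agent.Helper694.NMA.J_F_diff
import Pool.Agent.Helper694.NMA.J_F_one_le
import Pool.Agent.Helper694.NMA.J_cf_eq
import Pool.Agent.Helper694.NMA.J_T_congr
set_option autoImplicit false

namespace NMA

open NM Complex Metric Set Filter Topology MeasureTheory


namespace N_l_bounded

theorem Lf_pow (l : ℕ → ℂ) (n : ℕ) (z : ℂ) (hz : z ∈ ball (0:ℂ) 1) :
    Lf l (fun v => v ^ n) z = l n * z ^ n := by
  have hcf : ∀ m, cf (fun v : ℂ => v ^ n) m = if m = n then 1 else 0 := by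
    intro m
    apply cf_eq (fun m => if m = n then (1 : ℂ) else 0) (fun v => v ^ n)
    intro w _
    have h1 : HasSum (fun m => (if m = n then (1 : ℂ) else 0) * w ^ m)
        ((if n = n then (1 : ℂ) else 0) * w ^ n) := by
      apply hasSum_single n
      intro m hm
      rw [if_neg hm, zero_mul]
    rw [if_pos rfl, one_mul] at h1
    exact h1
  unfold Lf
  rw [tsum_eq_single n]
  · rw [hcf, if_pos rfl, mul_one]
  · intro m hm
    rw [hcf, if_neg hm, mul_zero, zero_mul]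

theorem l_bounded (l : ℕ → ℂ) (K1 : ℝ)
    (hK : ∀ h : ℂ → ℂ, DifferentiableOn ℂ h (ball 0 1) → (∀ z ∈ ball (0:ℂ) 1, ‖h z‖ ≤ 1) →
        ∀ r : ℝ, 0 < r → r < 1 →
          T r (Lf l (fun v => F (Finsupp.single 0 1 + 0) v * h v)) ≤ K1) :
    ∃ L0 : ℝ, 1 ≤ L0 ∧ ∀ n, ‖l n‖ ≤ L0 := by
  refine ⟨max (Real.exp K1) 1, le_max_right _ _, fun n => le_trans ?_ (le_max_left _ _)⟩
  set t : ℝ →₀ ℝ := Finsupp.single 0 1 + 0 with ht
  have htn : ∀ α, 0 ≤ t α := by
    intro α
    rw [ht, add_zero, Finsupp.single_apply]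
    split_ifs <;> norm_num
  have hF0 : ∀ v, F t v ≠ 0 := fun v => Complex.exp_ne_zero _
  have h1 := hK (fun v => v ^ n / F t v)
    ((differentiableOn_pow n).div (F_diff t) fun v _ => hF0 v) (by
      intro z hz
      rw [norm_div, norm_pow]
      have e1 := F_one_le t htn z hz
      have e2 : ‖z‖ < 1 := mem_ball_zero_iff.1 hz
      rw [div_le_one (by linarith)]
      exact (pow_le_one₀ (norm_nonneg _) e2.le).trans e1)
  have hfun : (fun v => F t v * (v ^ n / F t v)) = fun v : ℂ => v ^ n := by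
    funext v
    rw [mul_div_cancel₀ _ (hF0 v)]
  rw [hfun] at h1
  have h2 : ∀ r : ℝ, 0 < r → r < 1 → ‖l n‖ * r ^ n ≤ Real.exp K1 := by
    intro r hr hr1
    have h3 := h1 r hr hr1
    rw [T_congr r hr hr1 _ (fun z => l n * z ^ n) (fun z hz => Lf_pow l n z hz)] at h3
    have h4 : T r (fun z => l n * z ^ n) = Real.posLog (‖l n‖ * r ^ n) := by
      unfold T
      have h5 : ∀ θ : ℝ, ‖l n * ((r : ℂ) * Complex.exp ((θ : ℂ) * Complex.I)) ^ n‖ =
          ‖l n‖ * r ^ n := by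
        intro θ
        rw [norm_mul, norm_pow, norm_mul, Complex.norm_exp_ofReal_mul_I, mul_one,
          Complex.norm_real, Real.norm_of_nonneg hr.le]
      simp only [h5]
      rw [intervalIntegral.integral_const, smul_eq_mul, sub_zero, ← mul_assoc,
        inv_mul_cancel₀ (by positivity), one_mul]
    rw [h4] at h3
    rcases eq_or_lt_of_le (show 0 ≤ ‖l n‖ * r ^ n by positivity) with h6 | h6
    · rw [← h6]
      exact (Real.exp_pos _).le
    · have h7 : Real.log (‖l n‖ * r ^ n) ≤ K1 := (le_max_right _ _).trans h3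
      exact (Real.log_le_iff_le_exp h6).1 h7
  have h8 : Tendsto (fun r : ℝ => ‖l n‖ * r ^ n) (𝓝[<] 1) (𝓝 (‖l n‖ * 1 ^ n)) :=
    ((continuous_const.mul (continuous_pow n)).tendsto (1 : ℝ)).mono_left nhdsWithin_le_nhds
  rw [one_pow, mul_one] at h8
  apply le_of_tendsto h8
  have h9 : Ioo (0 : ℝ) 1 ∈ 𝓝[<] (1 : ℝ) := Ioo_mem_nhdsLT zero_lt_one
  filter_upwards [h9] with r hr
  exact h2 r hr.1 hr.2

end N_l_bounded

alias l_bounded := N_l_bounded.l_bounded

end NMA
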