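import Pool.Agent.Helper694.NMA.Defs
import Pool.Agent.Helper694.NMA.J_Lam_factor
import Pool.Agent.Helper694.NMA.J_U_cont
import Pool.Agent.Helper694.NMA.J_poisson_ineq
set_option autoImplicit false

namespace NMA

open NM Complex Metric Set Filter Topology MeasureTheory


namespace N_maxpoisson

theorem maxpoisson (l : ℕ → ℂ) (hl : ∀ r : ℝ, 0 ≤ r → r < 1 → Summable (fun n => ‖l n‖ * r ^ n))
    (f : ℂ → ℂ) (hf : DifferentiableOn ℂ f (ball 0 1)) (N n : ℕ) (hn : n ≤ N) (R : ℝ) (hR : 0 < R)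
    (hR1 : R < 1) (z : ℂ) (hz : ‖z‖ < R) :
    wt n * ‖Lam l (cf f) n z‖ ≤ ‖z‖ ^ n * (R ^ n)⁻¹ *
      Real.exp ((2 * Real.pi)⁻¹ * ∫ θ in (0:ℝ)..(2 * Real.pi),
        (R ^ 2 - ‖z‖ ^ 2) / ‖(R : ℂ) * Complex.exp ((θ : ℂ) * Complex.I) - z‖ ^ 2 *
          U l (cf f) N ((R : ℂ) * Complex.exp ((θ : ℂ) * Complex.I))) := by
  obtain ⟨φ, hφ, hL⟩ := Lam_factor l hl f hf n
  have hwt : 0 ≤ wt n := by
    unfold wt
    positivity
  have hcirc : Continuous (fun θ : ℝ => (R : ℂ) * Complex.exp ((θ : ℂ) * Complex.I)) := by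
    fun_prop
  have hnorm : ∀ θ : ℝ, ‖(R : ℂ) * Complex.exp ((θ : ℂ) * Complex.I)‖ = R := by
    intro θ
    rw [norm_mul, Complex.norm_exp_ofReal_mul_I, mul_one, Complex.norm_real, Real.norm_eq_abs,
      abs_of_pos hR]
  have hball : ∀ θ : ℝ, (R : ℂ) * Complex.exp ((θ : ℂ) * Complex.I) ∈ ball (0:ℂ) 1 := by
    intro θ
    rw [mem_ball_zero_iff, hnorm]
    exact hR1
  have hzb : z ∈ ball (0:ℂ) 1 := by
    rw [mem_ball_zero_iff]
    linarith
  have hψ : DifferentiableOn ℂ (fun ζ => ((wt n * R ^ n : ℝ) : ℂ) * φ ζ) (ball 0 1) :=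
    hφ.const_mul _
  have h1 := poisson_ineq (fun ζ => ((wt n * R ^ n : ℝ) : ℂ) * φ ζ) hψ R hR hR1 z hz
  have hnn : ∀ ζ, ‖((wt n * R ^ n : ℝ) : ℂ) * φ ζ‖ = wt n * R ^ n * ‖φ ζ‖ := by
    intro ζ
    rw [norm_mul, Complex.norm_real, Real.norm_eq_abs, abs_of_nonneg (by positivity)]
  have hker : ∀ θ : ℝ, 0 ≤ (R ^ 2 - ‖z‖ ^ 2) /
      ‖(R : ℂ) * Complex.exp ((θ : ℂ) * Complex.I) - z‖ ^ 2 := by
    intro θ
    apply div_nonneg _ (by positivity)
    have := norm_nonneg z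
    nlinarith
  have hden : ∀ θ : ℝ, ‖(R : ℂ) * Complex.exp ((θ : ℂ) * Complex.I) - z‖ ^ 2 ≠ 0 := by
    intro θ
    apply pow_ne_zero
    rw [norm_ne_zero_iff, sub_ne_zero]
    intro h
    have := hnorm θ
    rw [h] at this
    linarith
  have hkc : Continuous (fun θ : ℝ => (R ^ 2 - ‖z‖ ^ 2) /
      ‖(R : ℂ) * Complex.exp ((θ : ℂ) * Complex.I) - z‖ ^ 2) :=
    continuous_const.div ((hcirc.sub continuous_const).norm.pow 2) hden
  have hUc : Continuous (fun θ : ℝ => U l (cf f) N ((R : ℂ) * Complex.exp ((θ : ℂ) * Complex.I))) :=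
    (U_cont l hl f hf N).comp_continuous hcirc hball
  have hpl : ∀ θ : ℝ, Real.posLog ‖((wt n * R ^ n : ℝ) : ℂ) *
      φ ((R : ℂ) * Complex.exp ((θ : ℂ) * Complex.I))‖ ≤
      U l (cf f) N ((R : ℂ) * Complex.exp ((θ : ℂ) * Complex.I)) := by
    intro θ
    unfold U
    apply Real.posLog_le_posLog (norm_nonneg _)
    have e : ‖((wt n * R ^ n : ℝ) : ℂ) * φ ((R : ℂ) * Complex.exp ((θ : ℂ) * Complex.I))‖ =
        wt n * ‖Lam l (cf f) n ((R : ℂ) * Complex.exp ((θ : ℂ) * Complex.I))‖ := by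
      rw [hnn, hL _ (hball θ), norm_mul, norm_pow, hnorm]
      ring
    rw [e]
    exact Finset.le_sup' (fun n => wt n * ‖Lam l (cf f) n
      ((R : ℂ) * Complex.exp ((θ : ℂ) * Complex.I))‖) (Finset.mem_range.2 (by omega))
  have hint : (∫ θ in (0:ℝ)..(2 * Real.pi),
      (R ^ 2 - ‖z‖ ^ 2) / ‖(R : ℂ) * Complex.exp ((θ : ℂ) * Complex.I) - z‖ ^ 2 *
        Real.posLog ‖((wt n * R ^ n : ℝ) : ℂ) *
          φ ((R : ℂ) * Complex.exp ((θ : ℂ) * Complex.I))‖) ≤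
      ∫ θ in (0:ℝ)..(2 * Real.pi),
        (R ^ 2 - ‖z‖ ^ 2) / ‖(R : ℂ) * Complex.exp ((θ : ℂ) * Complex.I) - z‖ ^ 2 *
          U l (cf f) N ((R : ℂ) * Complex.exp ((θ : ℂ) * Complex.I)) := by
    rw [intervalIntegral.integral_of_le (by positivity), intervalIntegral.integral_of_le
      (by positivity)]
    apply MeasureTheory.integral_mono_of_nonneg
    · exact Filter.Eventually.of_forall (fun θ => mul_nonneg (hker θ) Real.posLog_nonneg)
    · have := (hkc.mul hUc).intervalIntegrable (μ := volume) 0 (2 * Real.pi)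
      rw [intervalIntegrable_iff_integrableOn_Ioc_of_le (by positivity)] at this
      exact this
    · exact Filter.Eventually.of_forall (fun θ => mul_le_mul_of_nonneg_left (hpl θ) (hker θ))
  have h2 := h1.trans (Real.exp_le_exp.2 (mul_le_mul_of_nonneg_left hint (by positivity)))
  rw [hnn] at h2
  rw [hL z hzb, norm_mul, norm_pow]
  have hRn : R ^ n ≠ 0 := by positivity
  calc wt n * (‖z‖ ^ n * ‖φ z‖) = ‖z‖ ^ n * (R ^ n)⁻¹ * (wt n * R ^ n * ‖φ z‖) := by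
        field_simp
    _ ≤ _ := mul_le_mul_of_nonneg_left h2 (by positivity)

end N_maxpoisson

alias maxpoisson := N_maxpoisson.maxpoisson

end NMA
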