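import Pool.Agent.Helper694.NMA.Defs
set_option autoImplicit false

namespace NMA

open NM Complex Metric Set Filter Topology MeasureTheory


namespace N_signs

lemma posLog_le_add (a b c : ℂ) (h : a - b = 2 * c ∨ a - b = -(2 * c)) :
    Real.posLog ‖c‖ ≤ Real.posLog ‖a‖ + Real.posLog ‖b‖ := by
  have h1 : 2 * ‖c‖ ≤ ‖a‖ + ‖b‖ := by
    have h2 : ‖a - b‖ = 2 * ‖c‖ := by
      rcases h with h | h
      · rw [h]; simp
      · rw [h]; simp
    rw [← h2]
    exact norm_sub_le a b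
  have ha := Real.posLog_nonneg (x := ‖a‖)
  have hb := Real.posLog_nonneg (x := ‖b‖)
  rcases le_total ‖a‖ ‖b‖ with hab | hab
  · have : Real.posLog ‖c‖ ≤ Real.posLog ‖b‖ :=
      Real.monotoneOn_posLog (norm_nonneg c) (norm_nonneg b) (by linarith)
    linarith
  · have : Real.posLog ‖c‖ ≤ Real.posLog ‖a‖ :=
      Real.monotoneOn_posLog (norm_nonneg c) (norm_nonneg a) (by linarith)
    linarith

def flip {N : ℕ} (m : Fin (N + 1)) (ε : Fin (N + 1) → Bool) : Fin (N + 1) → Bool :=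
  Function.update ε m (!(ε m))

lemma flip_invol {N : ℕ} (m : Fin (N + 1)) : Function.Involutive (flip m) := by
  intro ε
  funext k
  by_cases hk : k = m
  · subst hk; simp [flip]
  · simp [flip, hk]

theorem signs (N : ℕ) (x : ℕ → ℂ) :
    (1 / 2) * Real.posLog ((Finset.range (N + 1)).sup' Finset.nonempty_range_add_one
      (fun n => ‖x n‖)) ≤
    ((2:ℝ) ^ (N + 1))⁻¹ * ∑ ε : Fin (N + 1) → Bool,
      Real.posLog ‖∑ n : Fin (N + 1), (if ε n then (1:ℂ) else -1) * x n‖ := by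
  obtain ⟨n0, hn0, hmax⟩ := Finset.exists_mem_eq_sup' (Finset.nonempty_range_add_one (n := N))
    (fun n => ‖x n‖)
  rw [hmax]
  have hlt : n0 < N + 1 := Finset.mem_range.mp hn0
  set m : Fin (N + 1) := ⟨n0, hlt⟩ with hm
  set f : (Fin (N + 1) → Bool) → ℝ := fun ε =>
    Real.posLog ‖∑ n : Fin (N + 1), (if ε n then (1:ℂ) else -1) * x n‖ with hf
  have key : ∀ ε, Real.posLog ‖x n0‖ ≤ f ε + f (flip m ε) := by
    intro ε
    apply posLog_le_add
    rw [← Finset.sum_sub_distrib]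
    have h0 : ∀ n : Fin (N + 1), n ≠ m →
        (if ε n then (1:ℂ) else -1) * x n - (if flip m ε n then (1:ℂ) else -1) * x n = 0 := by
      intro n hn
      simp [flip, hn]
    rw [Finset.sum_eq_single m (fun n _ hn => h0 n hn) (fun h => absurd (Finset.mem_univ m) h)]
    have hxm : x (m : ℕ) = x n0 := rfl
    rw [hxm]
    cases hε : ε m
    · right
      simp [flip, hε]
      ring
    · left
      simp [flip, hε]
      ring
  have hsum : ∑ ε, f (flip m ε) = ∑ ε, f ε :=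
    Equiv.sum_comp (Function.Involutive.toPerm (flip m) (flip_invol m)) f
  have hcard : ∑ _ε : Fin (N + 1) → Bool, Real.posLog ‖x n0‖ = 2 ^ (N + 1) * Real.posLog ‖x n0‖ := by
    simp
  have hge : 2 ^ (N + 1) * Real.posLog ‖x n0‖ ≤ 2 * ∑ ε, f ε := by
    rw [← hcard, two_mul]
    calc ∑ _ε : Fin (N + 1) → Bool, Real.posLog ‖x n0‖ ≤ ∑ ε, (f ε + f (flip m ε)) :=
          Finset.sum_le_sum (fun ε _ => key ε)
      _ = ∑ ε, f ε + ∑ ε, f ε := by rw [Finset.sum_add_distrib, hsum]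
  have hpos : (0:ℝ) < 2 ^ (N + 1) := by positivity
  have : 1 / 2 * Real.posLog ‖x n0‖ = (2 ^ (N + 1))⁻¹ * (1 / 2 * (2 ^ (N + 1) * Real.posLog ‖x n0‖)) := by
    field_simp
  rw [this]
  apply mul_le_mul_of_nonneg_left _ (by positivity)
  linarith

end N_signs

alias signs := N_signs.signs

end NMA
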