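import Pool.Agent.Helper694.NMA.Defs
set_option autoImplicit false

namespace NMA

open NM Complex Metric Set Filter Topology MeasureTheory


namespace N_wt_sum

theorem aux (N : ℕ) : ∑ n ∈ Finset.range (N + 1), wt n ≤ 1 - 1 / (2 * ((N : ℝ) + 1)) := by
  induction N with
  | zero => simp [wt]; norm_num
  | succ N ih =>
    rw [Finset.sum_range_succ]
    have h : wt (N + 1) ≤ 1 / (2 * ((N : ℝ) + 1)) - 1 / (2 * (((N + 1 : ℕ) : ℝ) + 1)) := by
      unfold wt
      push_cast
      have h0 : (0:ℝ) ≤ N := Nat.cast_nonneg N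
      rw [div_sub_div _ _ (by positivity) (by positivity),
        div_le_div_iff₀ (by positivity) (by positivity)]
      nlinarith
    linarith

theorem wt_sum (N : ℕ) : ∑ n ∈ Finset.range N, wt n ≤ 1 := by
  cases N with
  | zero => simp
  | succ N =>
    have h1 := aux N
    have h2 : (0:ℝ) ≤ 1 / (2 * ((N : ℝ) + 1)) := by positivity
    linarith

end N_wt_sum

alias wt_sum := N_wt_sum.wt_sum

end NMA
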