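import Pool.Agent.Helper694.NMA.Defs
import Pool.Agent.Helper694.NMA.J_wt_sum
import Pool.Agent.Helper694.NMA.J_signs
import Pool.Agent.Helper694.NMA.J_Lf_linear
import Pool.Agent.Helper694.NMA.J_Lf_pow
import Pool.Agent.Helper694.NMA.J_Lf_diff
import Pool.Agent.Helper694.NMA.J_U_cont
set_option autoImplicit false

namespace NMA

open NM Complex Metric Set Filter Topology MeasureTheory


namespace N_signsum

/-- sign coefficient -/
noncomputable def sg (N : ℕ) (ε : Fin (N + 1) → Bool) (i : ℕ) : ℂ :=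
  (if h : i < N + 1 then (if ε ⟨i, h⟩ then (1:ℂ) else -1) else 0)

/-- the sign polynomial -/
noncomputable def hp (N : ℕ) (ε : Fin (N + 1) → Bool) (v : ℂ) : ℂ :=
  ∑ i ∈ Finset.range (N + 1), sg N ε i * (wt i : ℂ) * v ^ i

lemma sg_norm (N : ℕ) (ε : Fin (N + 1) → Bool) (i : ℕ) : ‖sg N ε i‖ ≤ 1 := by
  unfold sg
  split_ifs <;> simp

lemma wt_nonneg (n : ℕ) : 0 ≤ wt n := by
  unfold wt
  positivity

lemma hp_norm (N : ℕ) (ε : Fin (N + 1) → Bool) (z : ℂ) (hz : z ∈ ball (0:ℂ) 1) :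
    ‖hp N ε z‖ ≤ 1 := by
  have hz1 : ‖z‖ ≤ 1 := by
    rw [mem_ball_zero_iff] at hz
    exact hz.le
  unfold hp
  refine (norm_sum_le _ _).trans (le_trans (Finset.sum_le_sum (g := fun i => wt i) ?_)
    (wt_sum (N + 1)))
  intro i _
  rw [norm_mul, norm_mul, norm_pow, Complex.norm_real, Real.norm_of_nonneg (wt_nonneg i)]
  have h1 := sg_norm N ε i
  have h2 : ‖z‖ ^ i ≤ 1 := pow_le_one₀ (norm_nonneg _) hz1
  have h3 := wt_nonneg i
  calc ‖sg N ε i‖ * wt i * ‖z‖ ^ i ≤ 1 * wt i * 1 := by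
        apply mul_le_mul _ h2 (by positivity) (by linarith)
        exact mul_le_mul_of_nonneg_right h1 h3
    _ = wt i := by ring

lemma hp_diff (N : ℕ) (ε : Fin (N + 1) → Bool) : DifferentiableOn ℂ (hp N ε) (ball 0 1) := by
  have : Differentiable ℂ (hp N ε) := by
    show Differentiable ℂ fun v => ∑ i ∈ Finset.range (N + 1), sg N ε i * (wt i : ℂ) * v ^ i
    fun_prop
  exact this.differentiableOn

lemma Lf_hp (l : ℕ → ℂ) (hl : ∀ r : ℝ, 0 ≤ r → r < 1 → Summable (fun n => ‖l n‖ * r ^ n))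
    (f : ℂ → ℂ) (hf : DifferentiableOn ℂ f (ball 0 1)) (N : ℕ) (ε : Fin (N + 1) → Bool)
    (z : ℂ) (hz : z ∈ ball (0:ℂ) 1) :
    Lf l (fun v => f v * hp N ε v) z =
      ∑ n : Fin (N + 1), (if ε n then (1:ℂ) else -1) * ((wt n : ℂ) * Lam l (cf f) n z) := by
  have h1 : (fun v => f v * hp N ε v) =
      fun v => ∑ i ∈ Finset.range (N + 1), (sg N ε i * (wt i : ℂ)) * (f v * v ^ i) := by
    funext v
    unfold hp
    rw [Finset.mul_sum]
    refine Finset.sum_congr rfl fun i _ => ?_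
    ring
  rw [h1, Lf_linear l hl (Finset.range (N + 1)) (fun i => sg N ε i * (wt i : ℂ))
    (fun i v => f v * v ^ i)
    (fun i => hf.mul ((differentiable_id.pow i).differentiableOn)) z hz, Finset.sum_range]
  refine Finset.sum_congr rfl fun n _ => ?_
  rw [Lf_pow l f hf n z hz]
  have h2 : sg N ε (n : ℕ) = (if ε n then (1:ℂ) else -1) := by
    unfold sg
    rw [dif_pos n.2]
  rw [h2]
  ring

lemma pointwise (l : ℕ → ℂ)
    (hl : ∀ r : ℝ, 0 ≤ r → r < 1 → Summable (fun n => ‖l n‖ * r ^ n))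
    (f : ℂ → ℂ) (hf : DifferentiableOn ℂ f (ball 0 1)) (N : ℕ)
    (z : ℂ) (hz : z ∈ ball (0:ℂ) 1) :
    (1 / 2) * U l (cf f) N z ≤ ((2:ℝ) ^ (N + 1))⁻¹ * ∑ ε : Fin (N + 1) → Bool,
      Real.posLog ‖Lf l (fun v => f v * hp N ε v) z‖ := by
  have h := signs N (fun n => (wt n : ℂ) * Lam l (cf f) n z)
  have h1 : (fun n : ℕ => ‖(wt n : ℂ) * Lam l (cf f) n z‖) =
      fun n => wt n * ‖Lam l (cf f) n z‖ := by
    funext n
    rw [norm_mul, Complex.norm_real, Real.norm_of_nonneg (wt_nonneg n)]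
  simp only [h1] at h
  unfold U
  refine h.trans (le_of_eq ?_)
  congr 1
  refine Finset.sum_congr rfl fun ε _ => ?_
  rw [Lf_hp l hl f hf N ε z hz]

theorem signsum (l : ℕ → ℂ) (hl : ∀ r : ℝ, 0 ≤ r → r < 1 → Summable (fun n => ‖l n‖ * r ^ n))
    (f : ℂ → ℂ) (hf : DifferentiableOn ℂ f (ball 0 1)) (K1 : ℝ)
    (hK : ∀ h : ℂ → ℂ, DifferentiableOn ℂ h (ball 0 1) → (∀ z ∈ ball (0:ℂ) 1, ‖h z‖ ≤ 1) →
        ∀ r : ℝ, 0 < r → r < 1 → T r (Lf l (fun v => f v * h v)) ≤ K1) (N : ℕ) (r : ℝ)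
    (hr : 0 < r) (hr1 : r < 1) :
    (2 * Real.pi)⁻¹ * ∫ θ in (0:ℝ)..(2 * Real.pi),
      U l (cf f) N ((r : ℂ) * Complex.exp ((θ : ℂ) * Complex.I)) ≤ 2 * K1 := by
  have hball : ∀ θ : ℝ, (r : ℂ) * Complex.exp ((θ : ℂ) * Complex.I) ∈ ball (0:ℂ) 1 := by
    intro θ
    rw [mem_ball_zero_iff, norm_mul, Complex.norm_exp_ofReal_mul_I, mul_one, Complex.norm_real,
      Real.norm_of_nonneg hr.le]
    exact hr1
  have hcirc : Continuous fun θ : ℝ => (r : ℂ) * Complex.exp ((θ : ℂ) * Complex.I) := by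
    fun_prop
  have hUc : Continuous fun θ : ℝ =>
      U l (cf f) N ((r : ℂ) * Complex.exp ((θ : ℂ) * Complex.I)) :=
    (U_cont l hl f hf N).comp_continuous hcirc hball
  have hdiff : ∀ ε : Fin (N + 1) → Bool,
      DifferentiableOn ℂ (fun v => f v * hp N ε v) (ball 0 1) := fun ε => hf.mul (hp_diff N ε)
  have hLc : ∀ ε : Fin (N + 1) → Bool, Continuous fun θ : ℝ =>
      Real.posLog ‖Lf l (fun v => f v * hp N ε v)
        ((r : ℂ) * Complex.exp ((θ : ℂ) * Complex.I))‖ := by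
    intro ε
    have h1 : Continuous fun θ : ℝ => Lf l (fun v => f v * hp N ε v)
        ((r : ℂ) * Complex.exp ((θ : ℂ) * Complex.I)) :=
      (Lf_diff l hl _ (hdiff ε)).continuousOn.comp_continuous hcirc hball
    exact Real.continuous_posLog.comp h1.norm
  have hpi : 0 < 2 * Real.pi := Real.two_pi_pos
  have hK' : ∀ ε : Fin (N + 1) → Bool, (2 * Real.pi)⁻¹ * ∫ θ in (0:ℝ)..(2 * Real.pi),
      Real.posLog ‖Lf l (fun v => f v * hp N ε v)
        ((r : ℂ) * Complex.exp ((θ : ℂ) * Complex.I))‖ ≤ K1 := fun ε =>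
    hK (hp N ε) (hp_diff N ε) (hp_norm N ε) r hr hr1
  have hint : ∫ θ in (0:ℝ)..(2 * Real.pi),
      (1 / 2) * U l (cf f) N ((r : ℂ) * Complex.exp ((θ : ℂ) * Complex.I)) ≤
      ∫ θ in (0:ℝ)..(2 * Real.pi), ((2:ℝ) ^ (N + 1))⁻¹ * ∑ ε : Fin (N + 1) → Bool,
        Real.posLog ‖Lf l (fun v => f v * hp N ε v)
          ((r : ℂ) * Complex.exp ((θ : ℂ) * Complex.I))‖ := by
    apply intervalIntegral.integral_mono_on hpi.le
    · exact (continuous_const.mul hUc).intervalIntegrable _ _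
    · exact (continuous_const.mul (continuous_finset_sum _ fun ε _ => hLc ε)).intervalIntegrable _ _
    · intro θ _
      exact pointwise l hl f hf N _ (hball θ)
  rw [intervalIntegral.integral_const_mul, intervalIntegral.integral_const_mul,
    intervalIntegral.integral_finset_sum (fun ε _ => (hLc ε).intervalIntegrable _ _)] at hint
  have hsum : (2 * Real.pi)⁻¹ * (((2:ℝ) ^ (N + 1))⁻¹ * ∑ ε : Fin (N + 1) → Bool,
      ∫ θ in (0:ℝ)..(2 * Real.pi), Real.posLog ‖Lf l (fun v => f v * hp N ε v)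
        ((r : ℂ) * Complex.exp ((θ : ℂ) * Complex.I))‖) ≤ K1 := by
    have h1 : (2 * Real.pi)⁻¹ * (((2:ℝ) ^ (N + 1))⁻¹ * ∑ ε : Fin (N + 1) → Bool,
      ∫ θ in (0:ℝ)..(2 * Real.pi), Real.posLog ‖Lf l (fun v => f v * hp N ε v)
        ((r : ℂ) * Complex.exp ((θ : ℂ) * Complex.I))‖) =
        ((2:ℝ) ^ (N + 1))⁻¹ * ∑ ε : Fin (N + 1) → Bool, ((2 * Real.pi)⁻¹ *
      ∫ θ in (0:ℝ)..(2 * Real.pi), Real.posLog ‖Lf l (fun v => f v * hp N ε v)
        ((r : ℂ) * Complex.exp ((θ : ℂ) * Complex.I))‖) := by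
      rw [← Finset.mul_sum]
      ring
    rw [h1]
    have h2 : ∑ ε : Fin (N + 1) → Bool, ((2 * Real.pi)⁻¹ *
      ∫ θ in (0:ℝ)..(2 * Real.pi), Real.posLog ‖Lf l (fun v => f v * hp N ε v)
        ((r : ℂ) * Complex.exp ((θ : ℂ) * Complex.I))‖) ≤ ∑ ε : Fin (N + 1) → Bool, K1 :=
      Finset.sum_le_sum fun ε _ => hK' ε
    have h3 : ∑ ε : Fin (N + 1) → Bool, K1 = (2:ℝ) ^ (N + 1) * K1 := by
      rw [Finset.sum_const, nsmul_eq_mul, Finset.card_univ, Fintype.card_fun, Fintype.card_bool,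
        Fintype.card_fin]
      push_cast
      ring
    have hpow : (0:ℝ) < 2 ^ (N + 1) := by positivity
    calc _ ≤ ((2:ℝ) ^ (N + 1))⁻¹ * ((2:ℝ) ^ (N + 1) * K1) := by
          rw [← h3]
          exact mul_le_mul_of_nonneg_left h2 (inv_nonneg.2 hpow.le)
      _ = K1 := by rw [← mul_assoc, inv_mul_cancel₀ hpow.ne', one_mul]
  have hfin : (2 * Real.pi)⁻¹ * ((1 / 2) * ∫ θ in (0:ℝ)..(2 * Real.pi),
      U l (cf f) N ((r : ℂ) * Complex.exp ((θ : ℂ) * Complex.I))) ≤ K1 :=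
    le_trans (mul_le_mul_of_nonneg_left hint (inv_nonneg.2 hpi.le)) hsum
  have heq : (2 * Real.pi)⁻¹ * ((1 / 2) * ∫ θ in (0:ℝ)..(2 * Real.pi),
      U l (cf f) N ((r : ℂ) * Complex.exp ((θ : ℂ) * Complex.I))) =
      (1 / 2) * ((2 * Real.pi)⁻¹ * ∫ θ in (0:ℝ)..(2 * Real.pi),
      U l (cf f) N ((r : ℂ) * Complex.exp ((θ : ℂ) * Complex.I))) := by ring
  rw [heq] at hfin
  linarith

end N_signsum

alias signsum := N_signsum.signsum

end NMA
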