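import Pool.Agent.Helper694.NMA.Defs
set_option autoImplicit false

namespace NMA

open NM Complex Metric Set Filter Topology MeasureTheory


namespace N_weakstar0

noncomputable def ee (θ : ℝ) : sphere (0:ℂ) 1 :=
  ⟨Complex.exp ((θ : ℂ) * Complex.I), by
    rw [mem_sphere_zero_iff_norm]
    exact Complex.norm_exp_ofReal_mul_I θ⟩

theorem ee_cont : Continuous ee := by
  unfold ee
  fun_prop

/-- the functionals -/
noncomputable def LL (u : ℝ → ℝ) (G : sphere (0:ℂ) 1 → ℝ) : ℝ :=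
  (2 * Real.pi)⁻¹ * ∫ θ in (0:ℝ)..(2 * Real.pi), G (ee θ) * u θ

theorem LL_add (u : ℝ → ℝ) (hu : Continuous u) (G G' : sphere (0:ℂ) 1 → ℝ) (hG : Continuous G)
    (hG' : Continuous G') : LL u (fun x => G x + G' x) = LL u G + LL u G' := by
  unfold LL
  have h1 : Continuous fun θ => G (ee θ) * u θ := (hG.comp ee_cont).mul hu
  have h2 : Continuous fun θ => G' (ee θ) * u θ := (hG'.comp ee_cont).mul hu
  rw [← mul_add, ← intervalIntegral.integral_add (h1.intervalIntegrable _ _) (h2.intervalIntegrable _ _)]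
  simp only [add_mul]

theorem LL_smul (u : ℝ → ℝ) (c : ℝ) (G : sphere (0:ℂ) 1 → ℝ) :
    LL u (fun x => c * G x) = c * LL u G := by
  unfold LL
  simp only [mul_assoc c, intervalIntegral.integral_const_mul]
  ring

theorem LL_nonneg (u : ℝ → ℝ) (h0 : ∀ θ, 0 ≤ u θ) (G : sphere (0:ℂ) 1 → ℝ) (hG : ∀ x, 0 ≤ G x) :
    0 ≤ LL u G := by
  unfold LL
  apply mul_nonneg (by positivity)
  apply intervalIntegral.integral_nonneg (by positivity)
  intro θ _
  exact mul_nonneg (hG _) (h0 _)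

theorem LL_mono (u : ℝ → ℝ) (hu : Continuous u) (h0 : ∀ θ, 0 ≤ u θ) (G G' : sphere (0:ℂ) 1 → ℝ)
    (hG : Continuous G) (hG' : Continuous G') (h : ∀ x, G x ≤ G' x) : LL u G ≤ LL u G' := by
  unfold LL
  apply mul_le_mul_of_nonneg_left _ (by positivity)
  apply intervalIntegral.integral_mono_on (by positivity)
  · exact ((hG.comp ee_cont).mul hu).intervalIntegrable _ _
  · exact ((hG'.comp ee_cont).mul hu).intervalIntegrable _ _
  · intro θ _
    exact mul_le_mul_of_nonneg_right (h _) (h0 _)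

open CompactlySupported in
theorem weakstar0 (u : ℕ → ℝ → ℝ) (hu : ∀ k, Continuous (u k)) (h0 : ∀ k θ, 0 ≤ u k θ) (M : ℝ)
    (hM : ∀ k, (2 * Real.pi)⁻¹ * ∫ θ in (0:ℝ)..(2 * Real.pi), u k θ ≤ M) :
    ∃ (σ : Measure (sphere (0:ℂ) 1)) (φ : Ultrafilter ℕ), (φ : Filter ℕ) ≤ atTop ∧
      IsFiniteMeasure σ ∧ σ.real univ ≤ M ∧
      ∀ g : ℂ → ℝ, ContinuousOn g (sphere (0:ℂ) 1) →
        Tendsto (fun k => (2 * Real.pi)⁻¹ * ∫ θ in (0:ℝ)..(2 * Real.pi),
          g (Complex.exp ((θ : ℂ) * Complex.I)) * u k θ) φ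
          (𝓝 (∫ ω : sphere (0:ℂ) 1, g (ω : ℂ) ∂σ)) := by
  have hM0 : 0 ≤ M := by
    refine le_trans ?_ (hM 0)
    exact mul_nonneg (by positivity) (intervalIntegral.integral_nonneg (by positivity) fun θ _ => h0 0 θ)
  have hone : ∀ k, LL (u k) (fun _ => 1) ≤ M := by
    intro k
    unfold LL
    simp only [one_mul]
    exact hM k
  have hbd : ∀ G : sphere (0:ℂ) 1 → ℝ, Continuous G → ∃ B, ∀ k, LL (u k) G ∈ Icc (-B) B := by
    intro G hG
    obtain ⟨C, hC⟩ := (isCompact_univ (X := sphere (0:ℂ) 1)).exists_bound_of_continuousOn hG.continuousOn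
    have hC' : ∀ x, |G x| ≤ |C| := fun x => (hC x (mem_univ x)).trans (le_abs_self C)
    refine ⟨|C| * M, fun k => ⟨?_, ?_⟩⟩
    · have h1 := LL_mono (u k) (hu k) (h0 k) (fun _ => (-|C|) * 1) G (by fun_prop) hG
        (fun x => by have := (abs_le.1 (hC' x)).1; linarith)
      rw [LL_smul] at h1
      have h2 := mul_le_mul_of_nonneg_left (hone k) (abs_nonneg C)
      linarith
    · have h1 := LL_mono (u k) (hu k) (h0 k) G (fun _ => |C| * 1) hG (by fun_prop)
        (fun x => by have := (abs_le.1 (hC' x)).2; linarith)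
      rw [LL_smul] at h1
      have h2 := mul_le_mul_of_nonneg_left (hone k) (abs_nonneg C)
      linarith
  let φ : Ultrafilter ℕ := hyperfilter ℕ
  have hφ : (φ : Filter ℕ) ≤ atTop := by
    rw [← Nat.cofinite_eq_atTop]
    exact hyperfilter_le_cofinite
  have hlim : ∀ G : C(sphere (0:ℂ) 1, ℝ), ∃ x, Tendsto (fun k => LL (u k) G) φ (𝓝 x) := by
    intro G
    obtain ⟨B, hB⟩ := hbd G G.continuous
    obtain ⟨x, -, hx⟩ := (isCompact_Icc (a := -B) (b := B)).ultrafilter_le_nhds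
      (φ.map (fun k => LL (u k) G)) (by
        rw [le_principal_iff]
        exact Filter.mem_map.2 (Filter.univ_mem' hB))
    exact ⟨x, hx⟩
  choose Λ0 hΛ0 using hlim
  let Λ1 : C(sphere (0:ℂ) 1, ℝ) →ₗ[ℝ] ℝ :=
    { toFun := Λ0
      map_add' := by
        intro G G'
        refine tendsto_nhds_unique (hΛ0 (G + G')) ?_
        have h := (hΛ0 G).add (hΛ0 G')
        refine h.congr fun k => ?_
        exact (LL_add (u k) (hu k) G G' G.continuous G'.continuous).symm
      map_smul' := by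
        intro c G
        refine tendsto_nhds_unique (hΛ0 (c • G)) ?_
        have h := (hΛ0 G).const_mul c
        refine h.congr fun k => ?_
        exact (LL_smul (u k) c G).symm }
  have hΛ1pos : ∀ G : C(sphere (0:ℂ) 1, ℝ), 0 ≤ G → 0 ≤ Λ1 G := by
    intro G hG
    refine ge_of_tendsto (hΛ0 G) (Eventually.of_forall fun k => ?_)
    exact LL_nonneg (u k) (h0 k) G hG
  let Λ2 : C_c(sphere (0:ℂ) 1, ℝ) →ₗ[ℝ] ℝ :=
    { toFun := fun f => Λ1 f.toContinuousMap
      map_add' := fun f g => Λ1.map_add f.toContinuousMap g.toContinuousMap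
      map_smul' := fun c f => Λ1.map_smul c f.toContinuousMap }
  let Λ : C_c(sphere (0:ℂ) 1, ℝ) →ₚ[ℝ] ℝ := PositiveLinearMap.mk₀ Λ2
    (fun f hf => hΛ1pos f.toContinuousMap (fun x => hf x))
  let σ : Measure (sphere (0:ℂ) 1) := RealRMK.rieszMeasure Λ
  have hint : ∀ G : C(sphere (0:ℂ) 1, ℝ), ∫ x, G x ∂σ = Λ0 G := by
    intro G
    have h := RealRMK.integral_rieszMeasure Λ (CompactlySupportedContinuousMap.continuousMapEquiv G)
    exact h
  have hfin : IsFiniteMeasure σ := inferInstance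
  refine ⟨σ, φ, hφ, hfin, ?_, ?_⟩
  · have h1 := hint 1
    have h2 : ∫ x, (1 : C(sphere (0:ℂ) 1, ℝ)) x ∂σ = σ.real univ := by simp
    rw [← h2, h1]
    exact le_of_tendsto (hΛ0 1) (Eventually.of_forall fun k => hone k)
  · intro g hg
    have h1 := hΛ0 ⟨(sphere (0:ℂ) 1).restrict g, continuousOn_iff_continuous_restrict.1 hg⟩
    rw [← hint] at h1
    exact h1

end N_weakstar0

alias weakstar0 := N_weakstar0.weakstar0

end NMA
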