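import Pool.Agent.Helper694.NMA.Defs
import Pool.Agent.Helper694.NMA.J_weakstar0
import Pool.Agent.Helper694.NMA.J_kernel_unif
set_option autoImplicit false

namespace NMA

open NM Complex Metric Set Filter Topology MeasureTheory


namespace N_weakstar

theorem weakstar (u : ℕ → ℝ → ℝ) (hu : ∀ k, Continuous (u k)) (h0 : ∀ k θ, 0 ≤ u k θ) (M : ℝ)
    (hM : ∀ k, (2 * Real.pi)⁻¹ * ∫ θ in (0:ℝ)..(2 * Real.pi), u k θ ≤ M)
    (R : ℕ → ℝ) (hR : ∀ k, 0 < R k ∧ R k < 1) (hR1 : Tendsto R atTop (𝓝 1)) :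
    ∃ σ : Measure (sphere (0:ℂ) 1), IsFiniteMeasure σ ∧ σ.real univ ≤ M ∧
      ∀ z ∈ ball (0:ℂ) 1, MapClusterPt (V σ z) atTop (fun k => (2 * Real.pi)⁻¹ *
        ∫ θ in (0:ℝ)..(2 * Real.pi), ((R k) ^ 2 - ‖z‖ ^ 2) /
          ‖((R k : ℝ) : ℂ) * Complex.exp ((θ : ℂ) * Complex.I) - z‖ ^ 2 * u k θ) := by
  obtain ⟨σ, φ, hφ, hσ, hσM, hconv⟩ := weakstar0 u hu h0 M hM
  refine ⟨σ, hσ, hσM, fun z hz => ?_⟩
  have hz1 : ‖z‖ < 1 := by simpa using hz
  have hpi : (0:ℝ) < 2 * Real.pi := Real.two_pi_pos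
  set g : ℂ → ℝ := fun ω => (1 - ‖z‖ ^ 2) / ‖ω - z‖ ^ 2 with hg
  have hgc : ContinuousOn g (sphere (0:ℂ) 1) := by
    apply ContinuousOn.div continuousOn_const (by fun_prop)
    intro ω hω
    have h1 : ‖ω‖ = 1 := by simpa using hω
    have h2 : ω ≠ z := by rintro rfl; linarith
    exact pow_ne_zero _ (norm_ne_zero_iff.2 (sub_ne_zero.2 h2))
  have hB := hconv g hgc
  have hM0 : 0 ≤ M := by
    refine le_trans ?_ (hM 0)
    exact mul_nonneg (inv_nonneg.2 hpi.le)
      (intervalIntegral.integral_nonneg hpi.le (fun θ _ => h0 0 θ))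
  set A : ℕ → ℝ := fun k => (2 * Real.pi)⁻¹ *
        ∫ θ in (0:ℝ)..(2 * Real.pi), ((R k) ^ 2 - ‖z‖ ^ 2) /
          ‖((R k : ℝ) : ℂ) * Complex.exp ((θ : ℂ) * Complex.I) - z‖ ^ 2 * u k θ with hA
  set B : ℕ → ℝ := fun k => (2 * Real.pi)⁻¹ * ∫ θ in (0:ℝ)..(2 * Real.pi),
          g (Complex.exp ((θ : ℂ) * Complex.I)) * u k θ with hBdef
  have hAB : Tendsto (fun k => A k - B k) atTop (𝓝 0) := by
    rw [Metric.tendsto_nhds]
    intro ε hε
    filter_upwards [kernel_unif z hz R hR hR1 (ε / (M + 1)) (by positivity),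
      hR1.eventually (lt_mem_nhds hz1)] with k hk hk2
    have c1 : Continuous (fun θ : ℝ => ((R k) ^ 2 - ‖z‖ ^ 2) /
          ‖((R k : ℝ) : ℂ) * Complex.exp ((θ : ℂ) * Complex.I) - z‖ ^ 2 * u k θ) := by
      refine Continuous.mul (Continuous.div continuous_const (by fun_prop) ?_) (hu k)
      intro θ
      have h2 : ((R k : ℝ) : ℂ) * Complex.exp ((θ : ℂ) * Complex.I) ≠ z := by
        intro h
        have h3 := congrArg norm h
        rw [norm_mul, Complex.norm_exp_ofReal_mul_I, mul_one, Complex.norm_real, Real.norm_eq_abs,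
          abs_of_pos (hR k).1] at h3
        linarith
      exact pow_ne_zero _ (norm_ne_zero_iff.2 (sub_ne_zero.2 h2))
    have c2 : Continuous (fun θ : ℝ => g (Complex.exp ((θ : ℂ) * Complex.I)) * u k θ) := by
      refine Continuous.mul (Continuous.div continuous_const (by fun_prop) ?_) (hu k)
      intro θ
      have h2 : Complex.exp ((θ : ℂ) * Complex.I) ≠ z := by
        intro h
        have h3 := congrArg norm h
        rw [Complex.norm_exp_ofReal_mul_I] at h3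
        linarith
      exact pow_ne_zero _ (norm_ne_zero_iff.2 (sub_ne_zero.2 h2))
    have hdiff : A k - B k = (2 * Real.pi)⁻¹ * ∫ θ in (0:ℝ)..(2 * Real.pi),
        (((R k) ^ 2 - ‖z‖ ^ 2) /
          ‖((R k : ℝ) : ℂ) * Complex.exp ((θ : ℂ) * Complex.I) - z‖ ^ 2 * u k θ -
          g (Complex.exp ((θ : ℂ) * Complex.I)) * u k θ) := by
      rw [intervalIntegral.integral_sub (c1.intervalIntegrable _ _) (c2.intervalIntegrable _ _),
        mul_sub]
    have hle : |∫ θ in (0:ℝ)..(2 * Real.pi),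
        (((R k) ^ 2 - ‖z‖ ^ 2) /
          ‖((R k : ℝ) : ℂ) * Complex.exp ((θ : ℂ) * Complex.I) - z‖ ^ 2 * u k θ -
          g (Complex.exp ((θ : ℂ) * Complex.I)) * u k θ)| ≤
        ∫ θ in (0:ℝ)..(2 * Real.pi), ε / (M + 1) * u k θ := by
      refine (intervalIntegral.abs_integral_le_integral_abs hpi.le).trans ?_
      apply intervalIntegral.integral_mono hpi.le ((c1.sub c2).abs.intervalIntegrable _ _)
        ((continuous_const.mul (hu k)).intervalIntegrable _ _)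
      intro θ
      show |((R k) ^ 2 - ‖z‖ ^ 2) /
          ‖((R k : ℝ) : ℂ) * Complex.exp ((θ : ℂ) * Complex.I) - z‖ ^ 2 * u k θ -
          g (Complex.exp ((θ : ℂ) * Complex.I)) * u k θ| ≤ ε / (M + 1) * u k θ
      rw [← sub_mul, abs_mul, abs_of_nonneg (h0 k θ)]
      exact mul_le_mul_of_nonneg_right (hk θ) (h0 k θ)
    rw [intervalIntegral.integral_const_mul] at hle
    rw [Real.dist_eq, sub_zero, hdiff, abs_mul, abs_of_pos (inv_pos.2 hpi)]
    calc (2 * Real.pi)⁻¹ * _ ≤ (2 * Real.pi)⁻¹ *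
          (ε / (M + 1) * ∫ θ in (0:ℝ)..(2 * Real.pi), u k θ) :=
          mul_le_mul_of_nonneg_left hle (inv_nonneg.2 hpi.le)
      _ = ε / (M + 1) * ((2 * Real.pi)⁻¹ * ∫ θ in (0:ℝ)..(2 * Real.pi), u k θ) := by ring
      _ ≤ ε / (M + 1) * M := mul_le_mul_of_nonneg_left (hM k) (by positivity)
      _ < ε := by
          rw [div_mul_eq_mul_div, div_lt_iff₀ (by positivity)]
          nlinarith
  have hlim : Tendsto A φ (𝓝 (V σ z)) := by
    have h1 := (hAB.mono_left hφ).add hB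
    rw [zero_add] at h1
    refine h1.congr (fun k => ?_)
    show A k - B k + B k = A k
    ring
  exact (hlim.mapClusterPt).mono hφ

end N_weakstar

alias weakstar := N_weakstar.weakstar

end NMA
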