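import Pool.Agent.Helper694.NMA.Defs
import Pool.Agent.Helper694.NMA.J_l_growth
import Pool.Agent.Helper694.NMA.J_F_diff
import Pool.Agent.Helper694.NMA.J_U_cont
import Pool.Agent.Helper694.NMA.J_signsum
import Pool.Agent.Helper694.NMA.J_maxpoisson
import Pool.Agent.Helper694.NMA.J_weakstar
set_option autoImplicit false

namespace NMA

open NM Complex Metric Set Filter Topology MeasureTheory


namespace N_maj_one


theorem R_prop (k : ℕ) : 0 < 1 - 1 / ((k:ℝ) + 2) ∧ 1 - 1 / ((k:ℝ) + 2) < 1 := by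
  have h1 : (0:ℝ) < (k:ℝ) + 2 := by positivity
  have h2 : 1 / ((k:ℝ) + 2) < 1 := by
    rw [div_lt_one h1]
    linarith [(Nat.cast_nonneg k : (0:ℝ) ≤ k)]
  have h3 : 0 < 1 / ((k:ℝ) + 2) := by positivity
  constructor <;> linarith

theorem R_lim : Tendsto (fun k : ℕ => 1 - 1 / ((k:ℝ) + 2)) atTop (𝓝 1) := by
  have h1 : Tendsto (fun k : ℕ => (k:ℝ) + 2) atTop atTop :=
    tendsto_atTop_add_const_right _ _ tendsto_natCast_atTop_atTop
  have h2 : Tendsto (fun k : ℕ => 1 / ((k:ℝ) + 2)) atTop (𝓝 0) := by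
    simp only [one_div]
    exact tendsto_inv_atTop_zero.comp h1
  have h3 := (tendsto_const_nhds (x := (1:ℝ))).sub h2
  rw [sub_zero] at h3
  exact h3

theorem maj_one (l : ℕ → ℂ) (hl : IsMul l) (K1 : ℝ) (ν : ℝ →₀ ℝ)
    (hK : ∀ h : ℂ → ℂ, DifferentiableOn ℂ h (ball 0 1) → (∀ z ∈ ball (0:ℂ) 1, ‖h z‖ ≤ 1) →
        ∀ r : ℝ, 0 < r → r < 1 →
          T r (Lf l (fun v => F (Finsupp.single 0 1 + ν) v * h v)) ≤ K1) :
    ∃ σ : Measure (sphere (0:ℂ) 1), IsFiniteMeasure σ ∧ σ.real univ ≤ 2 * |K1| + 1 ∧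
      ∀ z ∈ ball (0:ℂ) 1, Good l (Finsupp.single 0 1 + ν) z (2 * Real.exp (V σ z)) := by
  have hl' := l_growth l hl
  set f : ℂ → ℂ := F (Finsupp.single 0 1 + ν) with hf
  have hfd : DifferentiableOn ℂ f (ball 0 1) := F_diff _
  set R : ℕ → ℝ := fun k => 1 - 1 / ((k:ℝ) + 2) with hR
  have hRp : ∀ k, 0 < R k ∧ R k < 1 := fun k => R_prop k
  have hRl : Tendsto R atTop (𝓝 1) := R_lim
  have hcont : ∀ k, Continuous (fun θ : ℝ =>
      U l (cf f) k (((R k : ℝ) : ℂ) * Complex.exp ((θ : ℂ) * Complex.I))) := by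
    intro k
    rw [← continuousOn_univ]
    refine (U_cont l hl' f hfd k).comp (Continuous.continuousOn (by fun_prop)) ?_
    intro θ _
    rw [mem_ball_zero_iff, norm_mul, Complex.norm_exp_ofReal_mul_I, mul_one, Complex.norm_real,
      Real.norm_eq_abs, abs_of_pos (hRp k).1]
    exact (hRp k).2
  obtain ⟨σ, hσ1, hσ2, hσ3⟩ := weakstar
    (fun k θ => U l (cf f) k (((R k : ℝ) : ℂ) * Complex.exp ((θ : ℂ) * Complex.I))) hcont
    (fun k θ => Real.posLog_nonneg) (2 * |K1| + 1)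
    (fun k => by
      have h1 := signsum l hl' f hfd K1 hK k (R k) (hRp k).1 (hRp k).2
      have h2 := le_abs_self K1
      linarith) R hRp hRl
  refine ⟨σ, hσ1, hσ2, fun z hz n => ?_⟩
  obtain ⟨ψ, hψ, hlim⟩ := TopologicalSpace.FirstCountableTopology.tendsto_subseq (hσ3 z hz)
  rw [mem_ball_zero_iff] at hz
  have hA : wt n * ‖Lam l (cf f) n z‖ ≤ ‖z‖ ^ n * (1 ^ n)⁻¹ * Real.exp (V σ z) := by
    have hl2 : Tendsto (fun j => ‖z‖ ^ n * ((R (ψ j)) ^ n)⁻¹ * Real.exp (((fun k => (2 * Real.pi)⁻¹ *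
        ∫ θ in (0:ℝ)..(2 * Real.pi), ((R k) ^ 2 - ‖z‖ ^ 2) /
          ‖((R k : ℝ) : ℂ) * Complex.exp ((θ : ℂ) * Complex.I) - z‖ ^ 2 *
          U l (cf f) k (((R k : ℝ) : ℂ) * Complex.exp ((θ : ℂ) * Complex.I))) ∘ ψ) j)) atTop
        (𝓝 (‖z‖ ^ n * (1 ^ n)⁻¹ * Real.exp (V σ z))) := by
      refine Tendsto.mul (Tendsto.mul tendsto_const_nhds ?_) ?_
      · refine Tendsto.inv₀ ?_ (by norm_num)
        exact (hRl.comp hψ.tendsto_atTop).pow n
      · exact (Real.continuous_exp.tendsto _).comp hlim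
    refine ge_of_tendsto hl2 ?_
    have h3 : ∀ᶠ j in atTop, ‖z‖ < R (ψ j) :=
      (hRl.comp hψ.tendsto_atTop).eventually (lt_mem_nhds hz)
    filter_upwards [h3, eventually_ge_atTop n] with j hj hjn
    exact maxpoisson l hl' f hfd (ψ j) n (hjn.trans (hψ.id_le j)) (R (ψ j)) (hRp _).1 (hRp _).2 z hj
  rw [one_pow, inv_one, mul_one] at hA
  have hn : (0:ℝ) < (n:ℝ) + 1 := by positivity
  unfold wt at hA
  have h4 : ‖Lam l (cf f) n z‖ = (2 * ((n:ℝ) + 1) ^ 2) *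
      (1 / (2 * ((n : ℝ) + 1) ^ 2) * ‖Lam l (cf f) n z‖) := by
    field_simp
  rw [h4]
  calc _ ≤ (2 * ((n:ℝ) + 1) ^ 2) * (‖z‖ ^ n * Real.exp (V σ z)) :=
        mul_le_mul_of_nonneg_left hA (by positivity)
    _ = _ := by ring

end N_maj_one

alias maj_one := N_maj_one.maj_one

end NMA
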