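import Pool.Agent.Helper694.NMA.Defs
import Pool.Agent.Helper694.NMA.J_l_growth
import Pool.Agent.Helper694.NMA.J_Lf_diff
import Pool.Agent.Helper694.NMA.J_Lf_bound
import Pool.Agent.Helper694.NMA.J_Lf_InN
import Pool.Agent.Helper694.NMA.J_F_diff
import Pool.Agent.Helper694.NMA.J_F_upper
import Pool.Agent.Helper694.NMA.J_mass_add
import Pool.Agent.Helper694.NMA.J_XInN
import Pool.Agent.Helper694.NMA.J_Lf_tsum
import Pool.Agent.Helper694.NMA.J_baireT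
import Pool.Agent.Helper694.NMA.J_T_congr
set_option autoImplicit false

namespace NMA

open NM Complex Metric Set Filter Topology MeasureTheory


namespace N_unifbdd

theorem mass_single : mass (Finsupp.single (0:ℝ) (1:ℝ)) = 1 := by
  unfold mass
  rw [Finsupp.sum_single_index rfl]

theorem mass_nonneg (t : ℝ →₀ ℝ) (ht : ∀ α, 0 ≤ t α) : 0 ≤ mass t := by
  unfold mass Finsupp.sum
  exact Finset.sum_nonneg fun α _ => ht α

theorem nn (t : ℝ →₀ ℝ) (ht : ∀ α, 0 ≤ t α) (α : ℝ) : 0 ≤ (Finsupp.single (0:ℝ) (1:ℝ) + t) α := by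
  rw [Finsupp.add_apply, Finsupp.single_apply]
  have := ht α
  split <;> linarith

theorem xbd (t : ℝ →₀ ℝ) (ht : ∀ α, 0 ≤ t α) (hm : mass t ≤ 1) (h : ℂ → ℂ)
    (hb : ∀ z ∈ ball (0:ℂ) 1, ‖h z‖ ≤ 1) (r : ℝ) (hr1 : r < 1) (z : ℂ) (hz : ‖z‖ ≤ r) :
    ‖F (Finsupp.single 0 1 + t) z * h z‖ ≤ Real.exp (2 * ((1 + r) / (1 - r))) := by
  have hz1 : ‖z‖ < 1 := lt_of_le_of_lt hz hr1
  have hzb : z ∈ ball (0:ℂ) 1 := by simpa using hz1
  have h1 := F_upper _ (nn t ht) z hzb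
  have hn : 0 ≤ ‖z‖ := norm_nonneg z
  have h2 : mass (Finsupp.single (0:ℝ) (1:ℝ) + t) ≤ 2 := by
    rw [mass_add, mass_single]
    linarith
  have h3 : (1 + ‖z‖) / (1 - ‖z‖) ≤ (1 + r) / (1 - r) := by
    apply div_le_div₀
    · linarith
    · linarith
    · linarith
    · linarith
  have h4 : mass (Finsupp.single (0:ℝ) (1:ℝ) + t) * ((1 + ‖z‖) / (1 - ‖z‖)) ≤
      2 * ((1 + r) / (1 - r)) := by
    apply mul_le_mul h2 h3 _ (by norm_num)
    apply div_nonneg <;> linarith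
  calc ‖F (Finsupp.single 0 1 + t) z * h z‖ = ‖F (Finsupp.single 0 1 + t) z‖ * ‖h z‖ := norm_mul _ _
    _ ≤ ‖F (Finsupp.single 0 1 + t) z‖ * 1 := by
        apply mul_le_mul_of_nonneg_left (hb z hzb) (norm_nonneg _)
    _ = ‖F (Finsupp.single 0 1 + t) z‖ := mul_one _
    _ ≤ _ := h1.trans (Real.exp_le_exp.2 h4)

theorem unifbdd (l : ℕ → ℂ) (hl : IsMul l) :
    ∃ eu K1 : ℝ, 0 < eu ∧ ∀ t : ℝ →₀ ℝ, (∀ α, 0 ≤ t α) → mass t ≤ eu →
      ∀ h : ℂ → ℂ, DifferentiableOn ℂ h (ball 0 1) → (∀ z ∈ ball (0:ℂ) 1, ‖h z‖ ≤ 1) →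
        ∀ r : ℝ, 0 < r → r < 1 →
          T r (Lf l (fun v => F (Finsupp.single 0 1 + t) v * h v)) ≤ K1 := by
  by_contra hcon
  push Not at hcon
  have hc : ∀ k : ℕ, ∃ t : ℝ →₀ ℝ, (∀ α, 0 ≤ t α) ∧ mass t ≤ (1/2:ℝ)^k ∧
      ∃ h : ℂ → ℂ, DifferentiableOn ℂ h (ball 0 1) ∧ (∀ z ∈ ball (0:ℂ) 1, ‖h z‖ ≤ 1) ∧
        ∃ r : ℝ, 0 < r ∧ r < 1 ∧
          (k:ℝ) < T r (Lf l (fun v => F (Finsupp.single 0 1 + t) v * h v)) := by
    intro k
    exact hcon ((1/2:ℝ)^k) (k:ℝ) (by positivity)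
  choose t ht hm h hh hb r hr0 hr1 hT using hc
  have hm1 : ∀ k, mass (t k) ≤ 1 := fun k => (hm k).trans (pow_le_one₀ (by norm_num) (by norm_num))
  have hls := l_growth l hl
  have hls' : ∀ r : ℝ, 0 ≤ r → r < 1 → Summable (fun n => ‖l n‖ * r ^ n) := fun r a b => hls r a b
  have hxd : ∀ k, DifferentiableOn ℂ (fun v => F (Finsupp.single 0 1 + t k) v * h k v) (ball 0 1) :=
    fun k => (F_diff _).mul (hh k)
  have hyc : ∀ k, ContinuousOn (Lf l (fun v => F (Finsupp.single 0 1 + t k) v * h k v))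
      (ball 0 1) := fun k => (Lf_diff l hls' _ (hxd k)).continuousOn
  have hyb : ∀ r : ℝ, 0 < r → r < 1 → ∃ M : ℝ, ∀ k, ∀ z : ℂ, ‖z‖ ≤ r →
      ‖Lf l (fun v => F (Finsupp.single 0 1 + t k) v * h k v) z‖ ≤ M := by
    intro r hr hr1
    refine ⟨Real.exp (2 * ((1 + (1+r)/2) / (1 - (1+r)/2))) * ∑' n, ‖l n‖ * (r / ((1+r)/2)) ^ n,
      fun k z hz => ?_⟩
    apply Lf_bound l hls' _ (hxd k) r ((1+r)/2) _ hr (by linarith) (by linarith) _ z hz
    intro v hv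
    exact xbd (t k) (ht k) (hm1 k) (h k) (hb k) ((1+r)/2) (by linarith) v hv
  have hsum : Summable (fun k => mass (t k)) :=
    Summable.of_nonneg_of_le (fun k => mass_nonneg _ (ht k)) hm
      (summable_geometric_of_lt_one (by norm_num) (by norm_num))
  obtain ⟨K', hK'⟩ := baireT (fun k => Lf l (fun v => F (Finsupp.single 0 1 + t k) v * h k v))
    hyc hyb (by
      intro c hcs
      have hX := XInN t ht hsum h hh hb c hcs
      obtain ⟨-, K, hK⟩ := Lf_InN l hl _ hX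
      refine ⟨K, fun r hr hr1 => ?_⟩
      have e := T_congr r hr hr1
        (fun z => ∑' k, c k * Lf l (fun v => F (Finsupp.single 0 1 + t k) v * h k v) z)
        (Lf l (fun z => ∑' k, c k * (F (Finsupp.single 0 1 + t k) z * h k z))) (by
          intro z hz
          exact (Lf_tsum l hls' (fun k v => F (Finsupp.single 0 1 + t k) v * h k v) hxd
            (fun r _ hr1 => ⟨Real.exp (2 * ((1 + r) / (1 - r))), fun k z hz =>
              xbd (t k) (ht k) (hm1 k) (h k) (hb k) r hr1 z hz⟩) c hcs z hz).symm)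
      show T r (fun z => ∑' k, c k * Lf l (fun v => F (Finsupp.single 0 1 + t k) v * h k v) z) ≤ K
      rw [e]
      exact hK r hr hr1)
  obtain ⟨k, hk⟩ := exists_nat_gt K'
  have h1 := hK' k (r k) (hr0 k) (hr1 k)
  have h2 := hT k
  exact absurd (lt_of_lt_of_le (hk.trans h2) h1) (lt_irrefl _)

end N_unifbdd

alias unifbdd := N_unifbdd.unifbdd

end NMA
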