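import Pool.Agent.Helper694.NMA.Defs
import Pool.Agent.Helper694.NMA.J_unifbdd
import Pool.Agent.Helper694.NMA.J_l_bounded
import Pool.Agent.Helper694.NMA.J_maj_one
set_option autoImplicit false

namespace NMA

open NM Complex Metric Set Filter Topology MeasureTheory


namespace N_majorant

theorem majorant (l : ℕ → ℂ) (hl : IsMul l) :
    (∃ L0 : ℝ, 1 ≤ L0 ∧ ∀ n, ‖l n‖ ≤ L0) ∧ ∃ eu K : ℝ, 0 < eu ∧ 0 < K ∧ Maj l eu K := by
  obtain ⟨eu, K1, heu, hK⟩ := unifbdd l hl
  refine ⟨l_bounded l K1 (hK 0 (fun α => le_rfl) ?_), eu, 2 * |K1| + 1, heu, by positivity, ?_⟩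
  · have : mass 0 = 0 := by
      unfold mass
      rw [Finsupp.sum_zero_index]
    rw [this]
    exact heu.le
  · intro ν hν hνeu
    exact maj_one l hl K1 ν (hK ν hν hνeu)

end N_majorant

alias majorant := N_majorant.majorant

end NMA
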