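import Pool.Agent.Helper694.NMA.Defs
set_option autoImplicit false

namespace NMA

open NM Complex Metric Set Filter Topology MeasureTheory


namespace N_regroup

theorem regroup (q : ℕ) (hq : 0 < q) (b : ℕ → ℂ) (z : ℂ) (s : ℕ → ℂ)
    (h : ∀ r < q, HasSum (fun m => b (q * m + r) * (z ^ q) ^ m) (s r)) :
    HasSum (fun n => b n * z ^ n) (∑ r ∈ Finset.range q, z ^ r * s r) := by
  
  have key : ∀ r ∈ Finset.range q, HasSum (fun n => if n % q = r then b n * z ^ n else 0) (z ^ r * s r) := by
    intro r hr
    have hr' := Finset.mem_range.1 hr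
    have hinj : Function.Injective (fun m : ℕ => q * m + r) := by
      intro m m' hm
      have : q * m = q * m' := Nat.add_right_cancel hm
      exact Nat.eq_of_mul_eq_mul_left hq this
    rw [← hinj.hasSum_iff]
    · have h1 := (h r hr').mul_left (z ^ r)
      refine h1.congr_fun ?_ |> fun h => h
      intro m
      simp only [Function.comp]
      rw [if_pos]
      · rw [pow_add, pow_mul]; ring
      · rw [Nat.mul_add_mod, Nat.mod_eq_of_lt hr']
    · intro n hn
      rw [if_neg]
      intro hnr
      apply hn
      exact ⟨n / q, by simp only; rw [← hnr]; exact Nat.div_add_mod n q⟩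
  have h2 := hasSum_sum key
  refine h2.congr_fun ?_ |> fun h => h
  intro n
  rw [Finset.sum_ite_eq]
  rw [if_pos (Finset.mem_range.2 (Nat.mod_lt _ hq))]


end N_regroup

alias regroup := N_regroup.regroup

end NMA
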