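import Pool.Agent.Helper694.NMA.Defs
set_option autoImplicit false

namespace NMA

open NM Complex Metric Set Filter Topology MeasureTheory


namespace N_section_series

theorem aux_summ (a : ℕ → ℂ) (f : ℂ → ℂ)
    (hs : ∀ z ∈ ball (0:ℂ) 1, HasSum (fun n => a n * z ^ n) (f z)) (q r : ℕ) (hr : r < q)
    (c : ℝ) (hc0 : 0 < c) (hc1 : c < 1) : Summable (fun m => ‖a (q * m + r)‖ * c ^ m) := by
  have hq : q ≠ 0 := by omega
  set w : ℝ := c ^ ((q : ℝ)⁻¹) with hw
  have hw0 : 0 < w := Real.rpow_pos_of_pos hc0 _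
  have hwq : w ^ q = c := Real.rpow_inv_natCast_pow hc0.le hq
  have hw1 : w < 1 := by
    by_contra h
    push Not at h
    have := one_le_pow₀ (n := q) h
    linarith
  have hwb : (w : ℂ) ∈ ball (0 : ℂ) 1 := by
    rw [mem_ball_zero_iff, Complex.norm_real, Real.norm_of_nonneg hw0.le]
    exact hw1
  have h1 : Summable (fun n => ‖a n * (w : ℂ) ^ n‖) := (hs _ hwb).summable.norm
  have hinj : Function.Injective (fun m : ℕ => q * m + r) := by
    intro m m' h
    have h' : q * m + r = q * m' + r := h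
    have : q * m = q * m' := by omega
    exact Nat.eq_of_mul_eq_mul_left (by omega) this
  have h2 := h1.comp_injective hinj
  have h3 : (fun m => ‖a (q * m + r)‖ * c ^ m) =
      fun m => (w ^ r)⁻¹ * ((fun n => ‖a n * (w : ℂ) ^ n‖) ∘ fun m : ℕ => q * m + r) m := by
    funext m
    simp only [Function.comp]
    rw [norm_mul, norm_pow, Complex.norm_real, Real.norm_of_nonneg hw0.le, pow_add, pow_mul, hwq]
    have : w ^ r ≠ 0 := (pow_pos hw0 r).ne'
    field_simp
  rw [h3]
  exact h2.mul_left _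

theorem aux_hasSum (a : ℕ → ℂ) (f : ℂ → ℂ)
    (hs : ∀ z ∈ ball (0:ℂ) 1, HasSum (fun n => a n * z ^ n) (f z)) (q r : ℕ) (hr : r < q)
    (z : ℂ) (hz : z ∈ ball (0:ℂ) 1) :
    Summable (fun m => a (q * m + r) * z ^ m) := by
  rw [mem_ball_zero_iff] at hz
  have hc1 : max ‖z‖ (1 / 2) < 1 := max_lt hz (by norm_num)
  have hc0 : 0 < max ‖z‖ (1 / 2) := lt_max_of_lt_right (by norm_num)
  refine Summable.of_norm_bounded (aux_summ a f hs q r hr _ hc0 hc1) (fun m => ?_)
  rw [norm_mul, norm_pow]
  have : ‖z‖ ^ m ≤ (max ‖z‖ (1 / 2)) ^ m := pow_le_pow_left₀ (norm_nonneg _) (le_max_left _ _) m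
  exact mul_le_mul_of_nonneg_left this (norm_nonneg _)

theorem aux_root (q r n : ℕ) (hr : r < q) :
    ∑ j ∈ Finset.range q, ((q : ℂ)⁻¹ *
          (Complex.exp (2 * Real.pi * Complex.I / q) ^ (j * r))⁻¹) *
          (Complex.exp (2 * Real.pi * Complex.I / q) ^ j) ^ n = if n % q = r then 1 else 0 := by
  have hq : q ≠ 0 := by omega
  have hω : IsPrimitiveRoot (Complex.exp (2 * Real.pi * Complex.I / q)) q :=
    Complex.isPrimitiveRoot_exp q hq
  set ω := Complex.exp (2 * Real.pi * Complex.I / q) with hωdef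
  have hω0 : ω ≠ 0 := Complex.exp_ne_zero _
  have hqC : (q : ℂ) ≠ 0 := by exact_mod_cast hq
  have h1 : ∀ j, ((q : ℂ)⁻¹ * (ω ^ (j * r))⁻¹) * (ω ^ j) ^ n = (q : ℂ)⁻¹ * (ω ^ n / ω ^ r) ^ j := by
    intro j
    rw [div_pow, ← pow_mul, ← pow_mul, ← pow_mul, mul_comm j n, mul_comm j r]
    field_simp
  simp_rw [h1]
  rw [← Finset.mul_sum]
  have hmod : ω ^ n = ω ^ r ↔ n % q = r := by
    have h2 : ω ^ n = ω ^ (n % q) := by
      conv_lhs => rw [← Nat.div_add_mod n q, pow_add, pow_mul, hω.pow_eq_one, one_pow, one_mul]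
    rw [h2]
    constructor
    · intro h
      exact hω.pow_inj (Nat.mod_lt _ (by omega)) hr h
    · intro h
      rw [h]
  by_cases h : n % q = r
  · rw [if_pos h, hmod.2 h, div_self (pow_ne_zero _ hω0)]
    simp [hqC]
  · rw [if_neg h]
    have hne : ω ^ n / ω ^ r ≠ 1 := by
      intro h'
      rw [div_eq_one_iff_eq (pow_ne_zero _ hω0)] at h'
      exact h (hmod.1 h')
    have hpow : (ω ^ n / ω ^ r) ^ q = 1 := by
      rw [div_pow, ← pow_mul, ← pow_mul, mul_comm n q, mul_comm r q, pow_mul, pow_mul,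
        hω.pow_eq_one, one_pow, one_pow, div_one]
    rw [geom_sum_eq hne, hpow, sub_self, zero_div, mul_zero]

theorem section_series (a : ℕ → ℂ) (f : ℂ → ℂ)
    (hs : ∀ z ∈ ball (0:ℂ) 1, HasSum (fun n => a n * z ^ n) (f z)) (q r : ℕ) (hr : r < q) :
    ∃ g : ℂ → ℂ, DifferentiableOn ℂ g (ball 0 1) ∧
      (∀ z ∈ ball (0:ℂ) 1, HasSum (fun m => a (q * m + r) * z ^ m) (g z)) ∧
      ∀ z ∈ ball (0:ℂ) 1, z ^ r * g (z ^ q) =
        ∑ j ∈ Finset.range q, ((q : ℂ)⁻¹ *
          (Complex.exp (2 * Real.pi * Complex.I / q) ^ (j * r))⁻¹) *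
          f (Complex.exp (2 * Real.pi * Complex.I / q) ^ j * z) := by
  have hq : q ≠ 0 := by omega
  refine ⟨fun z => ∑' m, a (q * m + r) * z ^ m, ?_, ?_, ?_⟩
  · intro z hz
    have hz' := hz
    rw [mem_ball_zero_iff] at hz'
    obtain ⟨c, hc1, hc2⟩ := exists_between hz'
    have hc0 : 0 < c := lt_of_le_of_lt (norm_nonneg _) hc1
    have hd : DifferentiableOn ℂ (fun z => ∑' m, a (q * m + r) * z ^ m) (ball 0 c) := by
      refine differentiableOn_tsum_of_summable_norm (aux_summ a f hs q r hr c hc0 hc2)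
        (fun m => ?_) isOpen_ball (fun m w hw => ?_)
      · exact ((differentiable_id.pow m).const_mul _).differentiableOn
      · rw [mem_ball_zero_iff] at hw
        rw [norm_mul, norm_pow]
        exact mul_le_mul_of_nonneg_left (pow_le_pow_left₀ (norm_nonneg _) hw.le m) (norm_nonneg _)
    exact (hd.differentiableAt (isOpen_ball.mem_nhds (mem_ball_zero_iff.2 hc1))).differentiableWithinAt
  · intro z hz
    exact (aux_hasSum a f hs q r hr z hz).hasSum
  · intro z hz
    set ω := Complex.exp (2 * Real.pi * Complex.I / q) with hωdef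
    have hzn : ‖z‖ < 1 := by rwa [mem_ball_zero_iff] at hz
    have hωn : ‖ω‖ = 1 := by
      have : (2 * Real.pi * Complex.I / q : ℂ) = ((2 * Real.pi / q : ℝ) : ℂ) * Complex.I := by
        push_cast; ring
      rw [hωdef, this, Complex.norm_exp_ofReal_mul_I]
    have hzq : z ^ q ∈ ball (0 : ℂ) 1 := by
      rw [mem_ball_zero_iff, norm_pow]
      exact pow_lt_one₀ (norm_nonneg _) hzn hq
    -- left side
    have hL : HasSum (fun n => if n % q = r then a n * z ^ n else 0)
        (z ^ r * ∑' m, a (q * m + r) * (z ^ q) ^ m) := by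
      have h1 := ((aux_hasSum a f hs q r hr _ hzq).hasSum).mul_left (z ^ r)
      have hinj : Function.Injective (fun m : ℕ => q * m + r) := by
        intro m m' h
        have h' : q * m + r = q * m' + r := h
        have : q * m = q * m' := by omega
        exact Nat.eq_of_mul_eq_mul_left (by omega) this
      rw [← hinj.hasSum_iff]
      · have e : ((fun n => if n % q = r then a n * z ^ n else 0) ∘ fun m : ℕ => q * m + r) =
            fun m => z ^ r * (a (q * m + r) * (z ^ q) ^ m) := by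
          funext m
          have : (q * m + r) % q = r := by
            rw [Nat.mul_add_mod, Nat.mod_eq_of_lt hr]
          simp only [Function.comp, this, if_true]
          rw [pow_add, pow_mul]; ring
        rw [e]
        exact h1
      · intro n hn
        rw [if_neg]
        intro h
        apply hn
        refine ⟨n / q, ?_⟩
        have := Nat.div_add_mod n q
        simp only
        omega
    have hR : HasSum (fun n => ∑ j ∈ Finset.range q, ((q : ℂ)⁻¹ * (ω ^ (j * r))⁻¹) *
          (a n * (ω ^ j * z) ^ n))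
        (∑ j ∈ Finset.range q, ((q : ℂ)⁻¹ * (ω ^ (j * r))⁻¹) * f (ω ^ j * z)) := by
      refine hasSum_sum (fun j _ => ?_)
      refine (hs _ ?_).mul_left _
      rw [mem_ball_zero_iff, norm_mul, norm_pow, hωn, one_pow, one_mul]
      exact hzn
    have hE : (fun n => ∑ j ∈ Finset.range q, ((q : ℂ)⁻¹ * (ω ^ (j * r))⁻¹) *
          (a n * (ω ^ j * z) ^ n)) = fun n => if n % q = r then a n * z ^ n else 0 := by
      funext n
      have h1 := aux_root q r n hr
      rw [← hωdef] at h1
      have h2 : ∀ j ∈ Finset.range q, ((q : ℂ)⁻¹ * (ω ^ (j * r))⁻¹) * (a n * (ω ^ j * z) ^ n) =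
          (((q : ℂ)⁻¹ * (ω ^ (j * r))⁻¹) * (ω ^ j) ^ n) * (a n * z ^ n) := by
        intro j _
        rw [mul_pow]; ring
      rw [Finset.sum_congr rfl h2, ← Finset.sum_mul, h1]
      split_ifs <;> simp
    rw [hE] at hR
    exact hL.unique hR

end N_section_series

alias section_series := N_section_series.section_series

end NMA
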