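import Pool.Agent.Helper694.NMA.Defs
import Pool.Agent.Helper694.NMA.J_section_series
import Pool.Agent.Helper694.NMA.J_InN_of_pow
import Pool.Agent.Helper694.NMA.J_InN_sum
import Pool.Agent.Helper694.NMA.J_InN_smul
import Pool.Agent.Helper694.NMA.J_InN_rot
import Pool.Agent.Helper694.NMA.J_InN_congr
set_option autoImplicit false

namespace NMA

open NM Complex Metric Set Filter Topology MeasureTheory


namespace N_section_InN

theorem section_InN (a : ℕ → ℂ) (f : ℂ → ℂ) (hf : InN f)
    (hs : ∀ z ∈ ball (0:ℂ) 1, HasSum (fun n => a n * z ^ n) (f z)) (q r : ℕ) (hr : r < q) :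
    ∃ g : ℂ → ℂ, InN g ∧ ∀ z ∈ ball (0:ℂ) 1, HasSum (fun m => a (q * m + r) * z ^ m) (g z) := by
  obtain ⟨g, hg, h1, h2⟩ := section_series a f hs q r hr
  refine ⟨g, ?_, h1⟩
  apply InN_of_pow q r (by omega) g hg
  have hn : ∀ j : ℕ, ‖Complex.exp (2 * Real.pi * Complex.I / q) ^ j‖ = 1 := by
    intro j
    have e : (2 * Real.pi * Complex.I / q : ℂ) = ((2 * Real.pi / q : ℝ) : ℂ) * Complex.I := by
      push_cast
      ring
    rw [norm_pow, e, Complex.norm_exp_ofReal_mul_I, one_pow]
  refine InN_congr (fun z => ∑ j ∈ Finset.range q, ((q : ℂ)⁻¹ *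
          (Complex.exp (2 * Real.pi * Complex.I / q) ^ (j * r))⁻¹) *
          f (Complex.exp (2 * Real.pi * Complex.I / q) ^ j * z)) _
    (fun z hz => (h2 z hz).symm) ?_
  apply InN_sum
  intro j _
  exact InN_smul _ _ (InN_rot _ (hn j) f hf)

end N_section_InN

alias section_InN := N_section_InN.section_InN

end NMA
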