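import Pool.Agent.Helper694.NMA.Defs
import Pool.Agent.Helper694.NMA.J_coef_growth
import Pool.Agent.Helper694.NMA.J_InN_of_bound
import Pool.Agent.Helper694.NMA.J_InN_add
import Pool.Agent.Helper694.NMA.J_InN_smul
import Pool.Agent.Helper694.NMA.J_InN_rot
import Pool.Agent.Helper694.NMA.J_InN_sum
set_option autoImplicit false

namespace NMA

open NM Complex Metric Set Filter Topology MeasureTheory


namespace N_sufficiency

theorem exp_bd (n : ℕ) : Real.exp (-Real.sqrt n) ≤ (24 * Real.exp 1) * (1 / ((n : ℝ) + 1) ^ 2) := by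
  have h0 : 0 ≤ Real.sqrt n := Real.sqrt_nonneg _
  have h1 := Real.pow_div_factorial_le_exp (Real.sqrt n + 1) (by positivity) 4
  have h2 : ((n : ℝ) + 1) ^ 2 ≤ (Real.sqrt n + 1) ^ 4 := by
    have h3 : (n : ℝ) + 1 ≤ (Real.sqrt n + 1) ^ 2 := by
      have := Real.sq_sqrt (Nat.cast_nonneg n : (0 : ℝ) ≤ n)
      nlinarith
    calc ((n : ℝ) + 1) ^ 2 ≤ ((Real.sqrt n + 1) ^ 2) ^ 2 := by
          apply pow_le_pow_left₀ (by positivity) h3
      _ = (Real.sqrt n + 1) ^ 4 := by ring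
  have h4 : ((n : ℝ) + 1) ^ 2 ≤ 24 * Real.exp (Real.sqrt n + 1) := by
    have : ((4 : ℕ).factorial : ℝ) = 24 := by norm_num [Nat.factorial]
    rw [this] at h1
    have h5 : (Real.sqrt n + 1) ^ 4 ≤ 24 * Real.exp (Real.sqrt n + 1) := by
      rw [div_le_iff₀ (by norm_num)] at h1
      linarith
    exact h2.trans h5
  rw [Real.exp_add] at h4
  have h6 : 0 < ((n : ℝ) + 1) ^ 2 := by positivity
  rw [mul_one_div, le_div_iff₀ h6, Real.exp_neg]
  have h7 := Real.exp_pos (Real.sqrt n)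
  rw [inv_mul_le_iff₀ h7]
  linarith

theorem sufficiency (l : ℕ → ℂ) (m : ℕ) (c w : Fin m → ℂ) (hw : ∀ j, ‖w j‖ = 1)
    (h : ∀ C : ℝ, ∃ A : ℝ, ∀ n : ℕ, ‖l n - ∑ j, c j * w j ^ n‖ ≤ A * Real.exp (-(C * Real.sqrt n))) :
    IsMul l := by
  intro a f hf ha
  obtain ⟨C, c0, hC, hc0, hbd⟩ := coef_growth f hf a ha
  obtain ⟨A, hA⟩ := h (c0 + 1)
  have hA0 : 0 ≤ A := by
    have h1 := (norm_nonneg _).trans (hA 0)
    simpa using h1
  set b : ℕ → ℂ := fun n => (l n - ∑ j, c j * w j ^ n) * a n with hb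
  have hbn : ∀ n, ‖b n‖ ≤ A * C * Real.exp (-Real.sqrt n) := by
    intro n
    rw [hb, norm_mul]
    calc ‖l n - ∑ j, c j * w j ^ n‖ * ‖a n‖
        ≤ (A * Real.exp (-((c0 + 1) * Real.sqrt n))) * (C * Real.exp (c0 * Real.sqrt n)) :=
          mul_le_mul (hA n) (hbd n) (norm_nonneg _)
            (mul_nonneg hA0 (Real.exp_pos _).le)
      _ = A * C * (Real.exp (-((c0 + 1) * Real.sqrt n)) * Real.exp (c0 * Real.sqrt n)) := by ring
      _ = A * C * Real.exp (-Real.sqrt n) := by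
          rw [← Real.exp_add]
          congr 2
          ring
  have hsum1 : Summable (fun n : ℕ => Real.exp (-Real.sqrt n)) := by
    have h1 : Summable (fun n : ℕ => 1 / ((n : ℝ) + 1) ^ 2) := by
      have h2 := (summable_nat_add_iff 1).2 (Real.summable_one_div_nat_pow.2 (by norm_num : 1 < 2))
      simpa using h2
    exact Summable.of_nonneg_of_le (fun n => (Real.exp_pos _).le) exp_bd
      (h1.mul_left (24 * Real.exp 1))
  have hsumu : Summable (fun n : ℕ => A * C * Real.exp (-Real.sqrt n)) := hsum1.mul_left _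
  have hterm : ∀ (n : ℕ) (z : ℂ), z ∈ ball (0 : ℂ) 1 →
      ‖b n * z ^ n‖ ≤ A * C * Real.exp (-Real.sqrt n) := by
    intro n z hz
    rw [norm_mul, norm_pow]
    have hz' : ‖z‖ ≤ 1 := (mem_ball_zero_iff.1 hz).le
    have h1 : ‖z‖ ^ n ≤ 1 := pow_le_one₀ (norm_nonneg _) hz'
    calc ‖b n‖ * ‖z‖ ^ n ≤ ‖b n‖ * 1 := mul_le_mul_of_nonneg_left h1 (norm_nonneg _)
      _ ≤ _ := by rw [mul_one]; exact hbn n
  set g0 : ℂ → ℂ := fun z => ∑' n, b n * z ^ n with hg0
  have hg0d : DifferentiableOn ℂ g0 (ball 0 1) :=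
    differentiableOn_tsum_of_summable_norm hsumu (fun n => by fun_prop) isOpen_ball hterm
  have hg0s : ∀ z ∈ ball (0 : ℂ) 1, HasSum (fun n => b n * z ^ n) (g0 z) := by
    intro z hz
    exact (Summable.of_norm_bounded hsumu (fun n => hterm n z hz)).hasSum
  have hg0N : InN g0 := by
    refine InN_of_bound g0 hg0d (∑' n : ℕ, A * C * Real.exp (-Real.sqrt n)) fun z hz => ?_
    exact tsum_of_norm_bounded hsumu.hasSum (fun n => hterm n z hz)
  refine ⟨fun z => g0 z + ∑ j, c j * f (w j * z), ?_, ?_⟩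
  · apply InN_add g0 _ hg0N
    exact InN_sum Finset.univ (fun j z => c j * f (w j * z)) fun j _ =>
      InN_smul (c j) (fun z => f (w j * z)) (InN_rot (w j) (hw j) f hf)
  · intro z hz
    have h1 : ∀ j ∈ (Finset.univ : Finset (Fin m)),
        HasSum (fun n => c j * (a n * (w j * z) ^ n)) (c j * f (w j * z)) := by
      intro j _
      apply HasSum.mul_left
      apply ha
      rw [mem_ball_zero_iff, norm_mul, hw j, one_mul]
      exact mem_ball_zero_iff.1 hz
    have h2 := (hg0s z hz).add (hasSum_sum h1)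
    have h3 : (fun n => l n * a n * z ^ n) =
        fun n => b n * z ^ n + ∑ j, c j * (a n * (w j * z) ^ n) := by
      funext n
      have h4 : ∑ j, c j * (a n * (w j * z) ^ n) = (∑ j, c j * w j ^ n) * (a n * z ^ n) := by
        rw [Finset.sum_mul]
        refine Finset.sum_congr rfl fun j _ => ?_
        rw [mul_pow]
        ring
      rw [h4, hb]
      ring
    rw [h3]
    exact h2

end N_sufficiency

alias sufficiency := N_sufficiency.sufficiency

end NMA
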