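import Pool.Agent.Helper694.NMA.Defs
import Pool.Agent.Helper694.NMA.J_section_InN
import Pool.Agent.Helper694.NMA.J_regroup
import Pool.Agent.Helper694.NMA.J_InN_sum
import Pool.Agent.Helper694.NMA.J_InN_pow_mul
import Pool.Agent.Helper694.NMA.J_InN_comp_pow
set_option autoImplicit false

namespace NMA

open NM Complex Metric Set Filter Topology MeasureTheory


namespace N_undec

theorem undec (l : ℕ → ℂ) (hl : IsMul l) (q : ℕ) (hq : 0 < q) : IsMul (fun n => l (n / q)) := by
  intro a f hf hs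
  have h1 : ∀ r : ℕ, ∃ g : ℂ → ℂ, r < q → InN g ∧
      ∀ z ∈ ball (0:ℂ) 1, HasSum (fun m => l m * a (q * m + r) * z ^ m) (g z) := by
    intro r
    by_cases hr : r < q
    · obtain ⟨f1, hf1, hs1⟩ := section_InN a f hf hs q r hr
      obtain ⟨g, hg1, hg2⟩ := hl (fun m => a (q * m + r)) f1 hf1 hs1
      exact ⟨g, fun _ => ⟨hg1, hg2⟩⟩
    · exact ⟨0, fun h => absurd h hr⟩
  choose g hg using h1
  refine ⟨fun z => ∑ r ∈ Finset.range q, z ^ r * g r (z ^ q), ?_, ?_⟩
  · exact InN_sum (Finset.range q) (fun r z => z ^ r * g r (z ^ q)) fun r hr =>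
      InN_pow_mul r (fun z => g r (z ^ q))
        (InN_comp_pow q hq (g r) (hg r (Finset.mem_range.1 hr)).1)
  · intro z hz
    refine regroup q hq (fun n => l (n / q) * a n) z (fun r => g r (z ^ q)) fun r hr => ?_
    have hz1 : z ^ q ∈ ball (0:ℂ) 1 := by
      rw [mem_ball_zero_iff] at hz ⊢
      rw [norm_pow]
      exact pow_lt_one₀ (norm_nonneg z) hz hq.ne'
    have h2 := (hg r hr).2 (z ^ q) hz1
    have h3 : (fun m => l ((q * m + r) / q) * a (q * m + r) * (z ^ q) ^ m) =
        fun m => l m * a (q * m + r) * (z ^ q) ^ m := by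
      funext m
      rw [Nat.mul_add_div hq, Nat.div_eq_of_lt hr, add_zero]
    show HasSum (fun m => l ((q * m + r) / q) * a (q * m + r) * (z ^ q) ^ m) (g r (z ^ q))
    rw [h3]
    exact h2

end N_undec

alias undec := N_undec.undec

end NMA
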